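import Pool.Agent.Helper5K9.LP.Hyper

set_option autoImplicit false

/-!
Existence of hyperbolic words near a given periodic one.
-/

namespace Pool.Agent.Helper5K9.LP

open Finset

/-- the modified word -/
noncomputable def wmod (s0 : ℤ → ℝ) (P : ℕ) (τ τ' : ℝ) (x : ℤ) : ℝ :=
  s0 x + (if (P : ℤ) ∣ x then τ else 0) + (if (P : ℤ) ∣ (x - 1) then τ' else 0)

lemma wmod_per {s0 : ℤ → ℝ} {P : ℕ} (hs : ∀ x, s0 (x + P) = s0 x) (τ τ' : ℝ) (x : ℤ) :
    wmod s0 P τ τ' (x + P) = wmod s0 P τ τ' x := by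
  unfold wmod
  have e : x + (P : ℤ) - 1 = x - 1 + P := by ring
  rw [hs, e]
  simp only [dvd_add_self_right]

lemma wmod_near {s0 : ℤ → ℝ} {P : ℕ} (hP : 2 ≤ P) {τ τ' δ : ℝ} (h1 : |τ| ≤ δ) (h2 : |τ'| ≤ δ)
    (x : ℤ) : |wmod s0 P τ τ' x - s0 x| ≤ δ := by
  have hδ : 0 ≤ δ := (abs_nonneg _).trans h1
  unfold wmod
  by_cases hx : (P : ℤ) ∣ x
  · have hx' : ¬ (P : ℤ) ∣ (x - 1) := by
      intro h
      have h3 := dvd_sub hx h
      rw [sub_sub_cancel] at h3
      have := Int.le_of_dvd one_pos h3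
      omega
    rw [if_pos hx, if_neg hx']
    simpa using h1
  · rw [if_neg hx]
    by_cases hx' : (P : ℤ) ∣ (x - 1)
    · rw [if_pos hx']; simpa using h2
    · rw [if_neg hx']; simpa using hδ

lemma wmod_tr {s0 : ℤ → ℝ} {P : ℕ} (hP : 2 ≤ P) (E τ τ' : ℝ) :
    Tm E (wmod s0 P τ τ') 0 P 0 0 + Tm E (wmod s0 P τ τ') 0 P 1 1 =
      Tm E s0 0 P 0 0 + Tm E s0 0 P 1 1 + τ * Tm E s0 0 P 0 1 +
      τ' * ((E - s0 0) * Tm E s0 0 P 0 0 + (E - s0 0) ^ 2 * Tm E s0 0 P 0 1 - Tm E s0 0 P 1 0 -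
        (E - s0 0) * Tm E s0 0 P 1 1) -
      τ * τ' * (Tm E s0 0 P 0 0 + (E - s0 0) * Tm E s0 0 P 0 1) := by
  obtain ⟨Q, rfl⟩ : ∃ Q, P = 2 + Q := ⟨P - 2, by omega⟩
  rw [Tm_add, Tm_add]
  have hB : Tm E (wmod s0 (2 + Q) τ τ') (0 + (2 : ℕ)) Q = Tm E s0 (0 + (2 : ℕ)) Q := by
    apply Tm_congr
    intro x hx
    unfold wmod
    rw [if_neg, if_neg]
    · ring
    · intro h
      have h2 := Int.le_of_dvd (by push_cast; omega) h
      push_cast at h2
      omega
    · intro h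
      have h2 := Int.le_of_dvd (by push_cast; omega) h
      push_cast at h2
      omega
  rw [hB]
  have h0 : wmod s0 (2 + Q) τ τ' 0 = s0 0 + τ := by
    unfold wmod
    rw [if_pos (dvd_zero _), if_neg]
    · ring
    · intro h
      rw [zero_sub, dvd_neg] at h
      have h2 := Int.le_of_dvd one_pos h
      push_cast at h2
      omega
  have h1 : wmod s0 (2 + Q) τ τ' 1 = s0 1 + τ' := by
    unfold wmod
    rw [if_neg, if_pos (by rw [sub_self]; exact dvd_zero _)]
    · ring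
    · intro h
      have h2 := Int.le_of_dvd one_pos h
      push_cast at h2
      omega
  have e2 : ∀ v : ℤ → ℝ, Tm E v 0 2 = T1 (E - v 1) * (T1 (E - v 0) * 1) := by
    intro v
    simp [Tm]
  rw [e2, e2, h0, h1]
  generalize Tm E s0 (0 + (2 : ℕ)) Q = B
  simp only [T1, Matrix.mul_apply, Fin.sum_univ_two, Matrix.of_apply, Matrix.cons_val',
      Matrix.cons_val_zero, Matrix.cons_val_one, Matrix.cons_val_fin_one, mul_one]
  ring

/-- the non-elliptic case -/
lemma word_par {s0 : ℤ → ℝ} {P : ℕ} (hP : 2 ≤ P) (hs : ∀ x, s0 (x + P) = s0 x) {E δ : ℝ}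
    (hδ : 0 < δ) (htr : 2 ≤ |Tm E s0 0 P 0 0 + Tm E s0 0 P 1 1|) :
    ∃ w : ℤ → ℝ, (∀ x, w (x + P) = w x) ∧ (∀ x, |w x - s0 x| ≤ δ) ∧
      2 < |Tm E w 0 P 0 0 + Tm E w 0 P 1 1| := by
  have hδa : |δ| ≤ δ := by rw [abs_of_pos hδ]
  have hδn : |-δ| ≤ δ := by rw [abs_neg, abs_of_pos hδ]
  have h0a : |(0 : ℝ)| ≤ δ := by rw [abs_zero]; exact hδ.le
  have hdet : Tm E s0 0 P 0 0 * Tm E s0 0 P 1 1 - Tm E s0 0 P 0 1 * Tm E s0 0 P 1 0 = 1 := by
    rw [← Matrix.det_fin_two]; exact Tm_det _ _ _ _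
  have hform := fun τ τ' => wmod_tr (s0 := s0) hP E τ τ'
  set a := Tm E s0 0 P 0 0
  set b := Tm E s0 0 P 0 1
  set c := Tm E s0 0 P 1 0
  set d := Tm E s0 0 P 1 1
  -- the key sign choice
  have sgn : ∀ t u : ℝ, 2 ≤ |t| → u ≠ 0 → 2 < |t + δ * u| ∨ 2 < |t + (-δ) * u| := by
    intro t u ht hu
    have hu' : 0 < |δ * u| := abs_pos.2 (mul_ne_zero hδ.ne' hu)
    rcases le_abs.1 ht with h1 | h1
    · rcases lt_or_ge 0 (δ * u) with h2 | h2
      · left
        exact lt_of_lt_of_le (by linarith) (le_abs_self _)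
      · right
        rw [abs_of_nonpos h2] at hu'
        exact lt_of_lt_of_le (by linarith) (le_abs_self _)
    · rcases lt_or_ge 0 (δ * u) with h2 | h2
      · right
        exact lt_of_lt_of_le (by linarith) (neg_le_abs _)
      · left
        rw [abs_of_nonpos h2] at hu'
        exact lt_of_lt_of_le (by linarith) (neg_le_abs _)
  rcases lt_or_eq_of_le htr with h | h
  · exact ⟨s0, hs, fun x => by rw [sub_self, abs_zero]; exact hδ.le, h⟩
  · by_cases hb : b = 0
    · have hadsq : (a - d) ^ 2 = 0 := by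
        have h2 : (a + d) ^ 2 = 4 := by rw [← sq_abs, ← h]; norm_num
        rw [hb] at hdet
        linear_combination h2 - 4 * hdet
      have had : a = d := by
        have := pow_eq_zero_iff (two_ne_zero) |>.1 hadsq
        linarith
      by_cases hc : c = 0
      · -- scalar
        refine ⟨wmod s0 P δ (-δ), wmod_per hs _ _, wmod_near hP hδa hδn, ?_⟩
        rw [hform, hb, hc, ← had]
        have e : a + a + δ * 0 + -δ * ((E - s0 0) * a + (E - s0 0) ^ 2 * 0 - 0 - (E - s0 0) * a) -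
            δ * -δ * (a + (E - s0 0) * 0) = (a + a) * (1 + δ ^ 2 / 2) := by ring
        rw [e, abs_mul]
        rw [← had] at h
        rw [← h, abs_of_pos (by positivity)]
        nlinarith
      · rcases sgn (a + d) (-c) (le_of_eq h) (neg_ne_zero.2 hc) with h3 | h3
        · refine ⟨wmod s0 P 0 δ, wmod_per hs _ _, wmod_near hP h0a hδa, ?_⟩
          rw [hform, hb]
          have e : a + d + 0 * 0 + δ * ((E - s0 0) * a + (E - s0 0) ^ 2 * 0 - c - (E - s0 0) * d) -
            0 * δ * (a + (E - s0 0) * 0) = a + d + δ * -c := by rw [had]; ring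
          rw [e]; exact h3
        · refine ⟨wmod s0 P 0 (-δ), wmod_per hs _ _, wmod_near hP h0a hδn, ?_⟩
          rw [hform, hb]
          have e : a + d + 0 * 0 + -δ * ((E - s0 0) * a + (E - s0 0) ^ 2 * 0 - c - (E - s0 0) * d) -
            0 * -δ * (a + (E - s0 0) * 0) = a + d + -δ * -c := by rw [had]; ring
          rw [e]; exact h3
    · rcases sgn (a + d) b (le_of_eq h) hb with h3 | h3
      · refine ⟨wmod s0 P δ 0, wmod_per hs _ _, wmod_near hP hδa h0a, ?_⟩
        rw [hform]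
        simpa using h3
      · refine ⟨wmod s0 P (-δ) 0, wmod_per hs _ _, wmod_near hP hδn h0a, ?_⟩
        rw [hform]
        simpa using h3

lemma Tm_mul {s0 : ℤ → ℝ} {P : ℕ} (hs : ∀ x, s0 (x + P) = s0 x) (E : ℝ) (n : ℕ) :
    Tm E s0 0 (n * P) = Tm E s0 0 P ^ n := by
  induction n with
  | zero => simp [Tm]
  | succ n ih =>
    rw [Nat.succ_mul, Tm_add, ih, pow_succ']
    congr 1
    apply Tm_congr
    intro x _
    have hp : Function.Periodic s0 (P : ℤ) := hs
    have := hp.nat_mul n (0 + x)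
    rw [← this]
    congr 1
    push_cast
    ring

lemma pow_formula {A : Matrix (Fin 2) (Fin 2) ℝ} (hdet : A 0 0 * A 1 1 - A 0 1 * A 1 0 = 1)
    {θ : ℝ} (htr : A 0 0 + A 1 1 = 2 * Real.cos θ) (n : ℕ) :
    Real.sin θ • A ^ n = Real.sin (n * θ) • A - Real.sin (((n : ℝ) - 1) * θ) • 1 := by
  have hCH : A * A = (2 * Real.cos θ) • A - 1 := by
    ext i j
    rw [Matrix.mul_apply, Fin.sum_univ_two, ← htr]
    fin_cases i <;> fin_cases j
    · simp; linear_combination -hdet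
    · simp; ring
    · simp; ring
    · simp; linear_combination -hdet
  induction n with
  | zero =>
    simp
  | succ n ih =>
    rw [pow_succ, ← Matrix.smul_mul, ih, Matrix.sub_mul, Matrix.smul_mul, Matrix.smul_mul, hCH,
      Matrix.one_mul, smul_sub, smul_smul]
    have e1 : Real.sin (((n + 1 : ℕ) : ℝ) * θ) =
        Real.sin (n * θ) * (2 * Real.cos θ) - Real.sin (((n : ℝ) - 1) * θ) := by
      have h1 : ((n + 1 : ℕ) : ℝ) * θ = n * θ + θ := by push_cast; ring
      have h2 : ((n : ℝ) - 1) * θ = n * θ - θ := by ring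
      rw [h1, h2, Real.sin_add, Real.sin_sub]
      ring
    have e2 : Real.sin ((((n + 1 : ℕ) : ℝ) - 1) * θ) = Real.sin (n * θ) := by
      congr 1
      push_cast
      ring
    rw [e1, e2, sub_smul]
    abel

lemma sq_eq_one_iff_of_side {x : ℝ} (h : x ^ 2 = 1) : x = 1 ∨ x = -1 := by
  have : (x - 1) * (x + 1) = 0 := by linear_combination h
  rcases mul_eq_zero.1 this with h | h
  · left; linarith
  · right; linarith

/-- Dirichlet -/
lemma small_sin (θ : ℝ) {κ : ℝ} (hκ : 0 < κ) : ∃ n : ℕ, 0 < n ∧ |Real.sin (n * θ)| < κ := by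
  obtain ⟨m, hm⟩ := exists_nat_gt (Real.pi / κ)
  have hm0 : 0 < m := by
    rcases Nat.eq_zero_or_pos m with h | h
    · subst h
      have : 0 < Real.pi / κ := div_pos Real.pi_pos hκ
      norm_num at hm
      linarith
    · exact h
  obtain ⟨k, hk0, _, hk⟩ := Real.exists_nat_abs_mul_sub_round_le (θ / Real.pi) hm0
  refine ⟨k, hk0, ?_⟩
  set r := round ((k : ℝ) * (θ / Real.pi)) with hr
  have h1 : |(k : ℝ) * θ - r * Real.pi| ≤ Real.pi / (m + 1) := by
    have e : (k : ℝ) * θ - r * Real.pi = ((k : ℝ) * (θ / Real.pi) - r) * Real.pi := by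
      field_simp
    rw [e, abs_mul, abs_of_pos Real.pi_pos]
    calc _ ≤ 1 / ((m : ℝ) + 1) * Real.pi := mul_le_mul_of_nonneg_right hk Real.pi_pos.le
      _ = _ := by ring
  have h2 : |Real.sin (k * θ)| = |Real.sin ((k : ℝ) * θ - r * Real.pi)| := by
    rw [Real.sin_sub_int_mul_pi, abs_mul]
    have : |(-1 : ℝ) ^ r| = 1 := by
      rw [abs_zpow]; simp
    rw [this, one_mul]
  rw [h2]
  have h3 : |Real.sin ((k : ℝ) * θ - r * Real.pi)| ≤ |(k : ℝ) * θ - r * Real.pi| := by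
    rcases eq_or_ne ((k : ℝ) * θ - r * Real.pi) 0 with h | h
    · rw [h]; simp
    · exact (Real.abs_sin_lt_abs h).le
  refine lt_of_le_of_lt (h3.trans h1) ?_
  rw [div_lt_iff₀ (by positivity)]
  rw [div_lt_iff₀ hκ] at hm
  nlinarith

/-- a hyperbolic word near any periodic one -/
lemma exists_word {s0 : ℤ → ℝ} {p0 : ℕ} (hp0 : 0 < p0) (hs0 : ∀ x, s0 (x + p0) = s0 x) (E : ℝ)
    {δ : ℝ} (hδ : 0 < δ) :
    ∃ N : ℕ, 0 < N ∧ p0 ∣ N ∧ ∃ w : ℤ → ℝ, (∀ x, w (x + N) = w x) ∧
      (∀ x, |w x - s0 x| ≤ δ) ∧ 2 < |Tm E w 0 N 0 0 + Tm E w 0 N 1 1| := by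
  have hδa : |δ| ≤ δ := by rw [abs_of_pos hδ]
  have hδn : |-δ| ≤ δ := by rw [abs_neg, abs_of_pos hδ]
  have h0a : |(0 : ℝ)| ≤ δ := by rw [abs_zero]; exact hδ.le
  have hper : ∀ n : ℕ, ∀ x, s0 (x + ((n * p0 : ℕ) : ℤ)) = s0 x := by
    intro n x
    have hp : Function.Periodic s0 (p0 : ℤ) := hs0
    have := hp.nat_mul n x
    rw [← this]
    push_cast; rfl
  have hq2 : 2 ≤ 2 * p0 := by omega
  have hsq := hper 2
  by_cases htr : 2 ≤ |Tm E s0 0 (2 * p0) 0 0 + Tm E s0 0 (2 * p0) 1 1|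
  · obtain ⟨w, h1, h2, h3⟩ := word_par hq2 hsq hδ htr
    exact ⟨2 * p0, by omega, dvd_mul_left _ _, w, h1, h2, h3⟩
  · rw [not_le] at htr
    have hdet : Tm E s0 0 (2 * p0) 0 0 * Tm E s0 0 (2 * p0) 1 1 -
        Tm E s0 0 (2 * p0) 0 1 * Tm E s0 0 (2 * p0) 1 0 = 1 := by
      rw [← Matrix.det_fin_two]; exact Tm_det _ _ _ _
    have hpw := fun n => Tm_mul (s0 := s0) (P := 2 * p0) hsq E n
    set A := Tm E s0 0 (2 * p0) with hA
    obtain ⟨htr1, htr2⟩ := abs_lt.1 htr
    set θ := Real.arccos ((A 0 0 + A 1 1) / 2) with hθ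
    have hcos : A 0 0 + A 1 1 = 2 * Real.cos θ := by
      rw [hθ, Real.cos_arccos (by linarith) (by linarith)]; ring
    have hsin : 0 < Real.sin θ := by
      rw [hθ, Real.sin_arccos]
      apply Real.sqrt_pos.2
      nlinarith
    have hb : A 0 1 ≠ 0 := by
      intro hb
      rw [hb] at hdet
      have : (A 0 0 + A 1 1) ^ 2 < 4 := by nlinarith
      nlinarith [sq_nonneg (A 0 0 - A 1 1)]
    obtain ⟨K, hK⟩ : ∃ K : ℝ, K = δ * |A 0 1| / Real.sin θ := ⟨_, rfl⟩
    have hK0 : 0 < K := by rw [hK]; positivity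
    obtain ⟨n, hn0, hn⟩ := small_sin θ (κ := K / 2) (by linarith)
    have hform := pow_formula hdet hcos n
    have hP2 : 2 ≤ n * (2 * p0) := by nlinarith
    have hdvd : p0 ∣ n * (2 * p0) := Dvd.intro_left (n * 2) (by ring)
    have hsn : ∀ x, s0 (x + ((n * (2 * p0) : ℕ) : ℤ)) = s0 x := by
      intro x
      rw [← mul_assoc]
      exact hper (n * 2) x
    have ent : ∀ i j, Real.sin θ * (A ^ n) i j =
        Real.sin (n * θ) * A i j - Real.sin (((n : ℝ) - 1) * θ) * (1 : Matrix (Fin 2) (Fin 2) ℝ) i j := by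
      intro i j
      have := congrFun (congrFun hform i) j
      simpa using this
    have e00 := ent 0 0
    have e01 := ent 0 1
    have e11 := ent 1 1
    have hs1 : Real.sin (((n : ℝ) - 1) * θ) = Real.sin (n * θ) * Real.cos θ -
        Real.cos (n * θ) * Real.sin θ := by
      rw [show ((n : ℝ) - 1) * θ = n * θ - θ by ring, Real.sin_sub]
    simp only [Matrix.one_apply_eq, mul_one] at e00 e11
    rw [Matrix.one_apply_ne (by decide), mul_zero, sub_zero] at e01
    -- the trace of the power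
    have htrn : (A ^ n) 0 0 + (A ^ n) 1 1 = 2 * Real.cos (n * θ) := by
      apply mul_left_cancel₀ hsin.ne'
      rw [mul_add, e00, e11, hs1]
      linear_combination Real.sin (n * θ) * hcos
    by_cases hz : Real.sin (n * θ) = 0
    · have hc1 : |Real.cos (n * θ)| = 1 := by
        have := Real.sin_sq_add_cos_sq ((n : ℝ) * θ)
        rw [hz] at this
        have h3 : Real.cos (n * θ) ^ 2 = 1 := by linarith
        rcases sq_eq_one_iff_of_side h3 with h | h <;> rw [h] <;> simp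
      obtain ⟨w, h1, h2, h3⟩ := word_par (E := E) hP2 hsn hδ (by
        rw [hpw, htrn, abs_mul, hc1]; norm_num)
      exact ⟨n * (2 * p0), by omega, hdvd, w, h1, h2, h3⟩
    · -- generic case
      have hsa : 0 < |Real.sin (n * θ)| := abs_pos.2 hz
      have hu : δ * |(A ^ n) 0 1| = K * |Real.sin (n * θ)| := by
        have h1 : |(A ^ n) 0 1| = |Real.sin (n * θ)| * |A 0 1| / Real.sin θ := by
          rw [eq_div_iff hsin.ne', ← abs_mul, ← e01, abs_mul, abs_of_pos hsin]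
          ring
        rw [h1, hK]
        ring
      have hcs : 1 - |Real.sin (n * θ)| ^ 2 ≤ |Real.cos (n * θ)| := by
        have h1 := Real.sin_sq_add_cos_sq ((n : ℝ) * θ)
        rw [sq_abs]
        have h2 : |Real.cos (n * θ)| ≤ 1 := Real.abs_cos_le_one _
        have h3 : |Real.cos (n * θ)| ^ 2 = Real.cos (n * θ) ^ 2 := sq_abs _
        have h4 := abs_nonneg (Real.cos (n * θ))
        nlinarith
      have hbig : 2 < 2 * |Real.cos (n * θ)| + δ * |(A ^ n) 0 1| := by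
        rw [hu]
        nlinarith
      have habs : ∀ t u : ℝ, |t| + |u| = |t + u| ∨ |t| + |u| = |t - u| := by
        intro t u
        rcases le_total 0 t with h1 | h1 <;> rcases le_total 0 u with h2 | h2
        · left; rw [abs_of_nonneg h1, abs_of_nonneg h2, abs_of_nonneg (by linarith)]
        · right; rw [abs_of_nonneg h1, abs_of_nonpos h2, abs_of_nonneg (by linarith)]; ring
        · right; rw [abs_of_nonpos h1, abs_of_nonneg h2, abs_of_nonpos (by linarith)]; ring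
        · left; rw [abs_of_nonpos h1, abs_of_nonpos h2, abs_of_nonpos (by linarith)]; ring
      have hbig' : 2 < |2 * Real.cos (n * θ)| + |δ * (A ^ n) 0 1| := by
        rw [abs_mul, abs_mul, abs_of_pos hδ, abs_two]
        exact hbig
      rcases habs (2 * Real.cos (n * θ)) (δ * (A ^ n) 0 1) with h | h
      · refine ⟨n * (2 * p0), by omega, hdvd, wmod s0 (n * (2 * p0)) δ 0, wmod_per hsn _ _,
          wmod_near hP2 hδa h0a, ?_⟩
        rw [wmod_tr hP2, hpw, htrn]
        rw [h] at hbig'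
        simpa using hbig'
      · refine ⟨n * (2 * p0), by omega, hdvd, wmod s0 (n * (2 * p0)) (-δ) 0, wmod_per hsn _ _,
          wmod_near hP2 hδn h0a, ?_⟩
        rw [wmod_tr hP2, hpw, htrn]
        rw [h] at hbig'
        simpa [sub_eq_add_neg] using hbig'

end Pool.Agent.Helper5K9.LP
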