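import Pool.Agent.Helper5K9.LP.Hyper2
import Pool.Agent.Helper5K9.LP.Word

set_option autoImplicit false

/-!
The barrier potential.
-/

namespace Pool.Agent.Helper5K9.LP

open Finset

/-- large energies -/
lemma big_energy {V φ : ℤ → ℝ} {E M : ℝ} {a l : ℤ}
    (hE : ∀ x, a ≤ x → x < a + l → 3 ≤ |E - V x|)
    (hφ : ∀ x, a ≤ x → x < a + l → Hm V φ x = E * φ x)
    (hM : ∀ x, a - 1 ≤ x → x ≤ a + l → |φ x| ≤ M) (j : ℕ) :
    ∀ x, a - 1 + j ≤ x → x ≤ a + l - j → |φ x| ≤ (2 / 3) ^ j * M := by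
  induction j with
  | zero =>
    intro x h1 h2
    simpa using hM x (by simpa using h1) (by simpa using h2)
  | succ j ih =>
    intro x h1 h2
    push_cast at h1 h2
    have e := hφ x (by omega) (by omega)
    unfold Hm at e
    have g1 := ih (x + 1) (by omega) (by omega)
    have g2 := ih (x - 1) (by omega) (by omega)
    have e2 : (E - V x) * φ x = φ (x + 1) + φ (x - 1) := by linear_combination -e
    have e3 : |E - V x| * |φ x| ≤ 2 * ((2 / 3) ^ j * M) := by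
      rw [← abs_mul, e2]
      refine (abs_add_le _ _).trans ?_
      linarith
    have e4 : 3 * |φ x| ≤ |E - V x| * |φ x| :=
      mul_le_mul_of_nonneg_right (hE x (by omega) (by omega)) (abs_nonneg _)
    rw [pow_succ]
    linarith

lemma unif (t : Finset ℝ) (r lam C : ℝ → ℝ) (hr : ∀ i ∈ t, 0 < r i) (hl : ∀ i ∈ t, lam i < 1) :
    ∃ r0 lam0 C0 : ℝ, 0 < r0 ∧ r0 ≤ 1 ∧ 2 / 3 ≤ lam0 ∧ lam0 < 1 ∧ 1 ≤ C0 ∧
      ∀ i ∈ t, r0 ≤ r i ∧ lam i ≤ lam0 ∧ C i ≤ C0 := by
  induction t using Finset.induction_on with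
  | empty => exact ⟨1, 2 / 3, 1, one_pos, le_rfl, le_rfl, by norm_num, le_rfl, by simp⟩
  | insert a s ha ih =>
    obtain ⟨r0, lam0, C0, h1, h2, h3, h4, h5, h6⟩ := ih
      (fun i hi => hr i (mem_insert_of_mem hi)) (fun i hi => hl i (mem_insert_of_mem hi))
    refine ⟨min r0 (r a), max lam0 (lam a), max C0 (C a), lt_min h1 (hr a (mem_insert_self _ _)),
      (min_le_left _ _).trans h2, h3.trans (le_max_left _ _),
      max_lt h4 (hl a (mem_insert_self _ _)), h5.trans (le_max_left _ _), ?_⟩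
    intro i hi
    rcases mem_insert.1 hi with rfl | hi
    · exact ⟨min_le_right _ _, le_max_right _ _, le_max_right _ _⟩
    · obtain ⟨g1, g2, g3⟩ := h6 i hi
      exact ⟨(min_le_left _ _).trans g1, g2.trans (le_max_left _ _), g3.trans (le_max_left _ _)⟩

/-- the barrier potential -/
noncomputable def V1 (s0 : ℤ → ℝ) (w : ℕ → ℤ → ℝ) (p S B : ℤ) (x : ℤ) : ℝ :=
  if ((x % p) / S + 1) * S ≤ p then w (((x % p) % S) / B).toNat (x % p) else s0 (x % p)

lemma V1_per (s0 : ℤ → ℝ) (w : ℕ → ℤ → ℝ) (p S B x : ℤ) :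
    V1 s0 w p S B (x + p) = V1 s0 w p S B x := by
  unfold V1
  rw [Int.add_emod_right]

lemma V1_near {s0 : ℤ → ℝ} {w : ℕ → ℤ → ℝ} {p S B : ℤ} {δ : ℝ} (hδ : 0 ≤ δ)
    (hs : ∀ x, s0 (x + p) = s0 x) (hw : ∀ i x, |w i x - s0 x| ≤ δ) (x : ℤ) :
    |V1 s0 w p S B x - s0 x| ≤ δ := by
  have e : s0 (x % p) = s0 x := by
    have hp : Function.Periodic s0 p := hs
    have := hp.int_mul (x / p) (x % p)
    rw [← this]
    congr 1
    have := Int.emod_add_mul_ediv x p
    rw [mul_comm] at this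
    simpa using this
  unfold V1
  rw [← e]
  split_ifs
  · exact hw _ _
  · rw [sub_self, abs_zero]; exact hδ

lemma V1_copy (s0 : ℤ → ℝ) (w : ℕ → ℤ → ℝ) {p S B : ℤ} (hS : 0 < S) (hSp : S ≤ p) (hB : 0 < B)
    (a : ℤ) : ∃ g k : ℤ, a < g ∧ g ≤ a + 2 * S ∧ ∀ (i : ℕ) (z : ℤ), 0 ≤ z → z < B →
      i * B + z < S → V1 s0 w p S B (g + i * B + z) = w i (k * S + i * B + z) := by
  have hp : 0 < p := by omega
  obtain ⟨g, k, h1, h2, h3, h4, h5⟩ : ∃ g k : ℤ, a < g ∧ g ≤ a + 2 * S ∧ 0 ≤ k ∧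
      (k + 1) * S ≤ p ∧ ∃ t : ℤ, g = p * t + k * S := by
    have hy0 := Int.emod_nonneg a hp.ne'
    have hy1 := Int.emod_lt_of_pos a hp
    have hya := Int.emod_add_mul_ediv a p
    set y := a % p with hy
    have hk0 := Int.ediv_nonneg hy0 hS.le
    have hr0 := Int.emod_nonneg y hS.ne'
    have hr1 := Int.emod_lt_of_pos y hS
    have hky := Int.emod_add_mul_ediv y S
    set ρ := y % S with hρ
    set k := y / S with hk
    by_cases hc : (k + 1 + 1) * S ≤ p
    · refine ⟨a + S - ρ, k + 1, by omega, by omega, by omega, hc, a / p, ?_⟩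
      linear_combination - hky - hya
    · refine ⟨a + p - y, 0, by omega, ?_, le_rfl, by simpa using hSp, a / p + 1, ?_⟩
      · rw [not_le] at hc
        nlinarith
      · linear_combination - hya
  obtain ⟨t, ht⟩ := h5
  refine ⟨g, k, h1, h2, ?_⟩
  intro i z hz0 hz1 hz2
  have hiB : (0 : ℤ) ≤ i * B := by positivity
  have hkS : 0 ≤ k * S := mul_nonneg h3 hS.le
  have e1 : (g + i * B + z) % p = k * S + (i * B + z) := by
    have : g + i * B + z = k * S + (i * B + z) + p * t := by rw [ht]; ring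
    rw [this, Int.add_mul_emod_self_left]
    apply Int.emod_eq_of_lt
    · positivity
    · nlinarith
  have e2 : (k * S + (i * B + z)) / S = k := by
    rw [Int.mul_add_ediv_right _ _ hS.ne', Int.ediv_eq_zero_of_lt (by positivity) hz2, add_zero]
  have e3 : (k * S + (i * B + z)) % S = i * B + z := by
    rw [Int.mul_add_emod_self_right]
    exact Int.emod_eq_of_lt (by positivity) hz2
  have e4 : (i * B + z) / B = (i : ℤ) := by
    rw [Int.mul_add_ediv_right _ _ hB.ne', Int.ediv_eq_zero_of_lt hz0 hz1, add_zero]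
  unfold V1
  rw [e1, e2, e3, e4, if_pos h4, Int.toNat_natCast]
  congr 1
  ring

/-- the barriers: for every `h` there is a potential near `s0`, all of whose small perturbations
have good places in all intervals of length `3 h R` -/
theorem barrier {s0 : ℤ → ℝ} {p0 : ℕ} (hp0 : 0 < p0) (hs0 : ∀ x, s0 (x + p0) = s0 x) {δ : ℝ}
    (hδ : 0 < δ) :
    ∃ (r lam C : ℝ) (R : ℕ), 0 < r ∧ 0 < lam ∧ lam < 1 ∧ 1 ≤ C ∧ 1 ≤ R ∧ ∀ h : ℕ, 1 ≤ h →
      ∀ p : ℕ, p0 ∣ p → h * R ≤ p → ∃ v1 : ℤ → ℝ, (∀ x, v1 (x + p) = v1 x) ∧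
        (∀ x, |v1 x - s0 x| ≤ δ) ∧
        ∀ V : ℤ → ℝ, (∀ x, |V x - v1 x| ≤ r) → SB V (3 * (h * R : ℕ)) (C * lam ^ h) := by
  -- bound for s0
  obtain ⟨K0, hK0⟩ : ∃ K0 : ℝ, ∀ x, |s0 x| ≤ K0 := by
    refine ⟨∑ j ∈ range p0, |s0 j|, fun x => ?_⟩
    have hp0' : (0 : ℤ) < p0 := by exact_mod_cast hp0
    have e : s0 (x % p0) = s0 x := by
      have hp : Function.Periodic s0 (p0 : ℤ) := hs0
      have := hp.int_mul (x / p0) (x % p0)
      rw [← this]
      congr 1
      have := Int.emod_add_mul_ediv x p0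
      rw [mul_comm] at this
      simpa using this
    rw [← e]
    have h1 := Int.emod_nonneg x hp0'.ne'
    have h2 := Int.emod_lt_of_pos x hp0'
    obtain ⟨n, hn⟩ := Int.eq_ofNat_of_zero_le h1
    rw [hn]
    rw [hn] at h2
    exact single_le_sum (f := fun j : ℕ => |s0 j|) (fun _ _ => abs_nonneg _)
      (mem_range.2 (by exact_mod_cast h2))
  have hK00 : 0 ≤ K0 := (abs_nonneg _).trans (hK0 0)
  -- the data
  have hdata : ∀ E0 : ℝ, ∃ (N : ℕ) (w : ℤ → ℝ) (r lam C : ℝ), 0 < N ∧ p0 ∣ N ∧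
      (∀ x, w (x + N) = w x) ∧ (∀ x, |w x - s0 x| ≤ δ) ∧ 0 < r ∧ 0 < lam ∧ lam < 1 ∧ 0 < C ∧
      ∀ (h : ℕ) (E : ℝ) (v φ : ℤ → ℝ) (a : ℤ) (M : ℝ), |E - E0| ≤ r →
        (∀ x : ℤ, 0 ≤ x → x < 2 * h * N → |v (a + x) - w x| ≤ r) →
        (∀ x, a ≤ x → x < a + 2 * h * N → Hm v φ x = E * φ x) →
        (∀ x, a - 1 ≤ x → x ≤ a + 2 * h * N → |φ x| ≤ M) →
        |φ (a + h * N)| ≤ C * lam ^ h * M ∧ |φ (a + h * N - 1)| ≤ C * lam ^ h * M := by
    intro E0
    obtain ⟨N, hN, hpN, w, hw, hws, htr⟩ := exists_word hp0 hs0 E0 hδ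
    obtain ⟨r, lam, C, h1, h2, h3, h4, h5⟩ := block_decay hw htr
    exact ⟨N, w, r, lam, C, hN, hpN, hw, hws, h1, h2, h3, h4, h5⟩
  choose N w r lam C hN hpN hw hws hr hlam0 hlam1 hC hdec using hdata
  -- compactness
  obtain ⟨t, _, ht⟩ := (isCompact_Icc (a := -(K0 + δ + 4)) (b := K0 + δ + 4)).elim_nhds_subcover
    (fun E0 => Metric.ball E0 (r E0)) (fun E0 _ => Metric.ball_mem_nhds E0 (hr E0))
  obtain ⟨r0, lam0, C0, hr0, hr01, hl0, hl1, hC0, hall⟩ := unif t r lam C (fun i _ => hr i)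
    (fun i _ => hlam1 i)
  obtain ⟨N0, hN0, hpN0, hdv⟩ : ∃ N0 : ℕ, 0 < N0 ∧ p0 ∣ N0 ∧ ∀ i ∈ t, N i ∣ N0 :=
    ⟨p0 * ∏ i ∈ t, N i, Nat.mul_pos hp0 (Finset.prod_pos fun i _ => hN i), dvd_mul_right _ _,
      fun i hi => (Finset.dvd_prod_of_mem N hi).trans (dvd_mul_left _ _)⟩
  obtain ⟨m, en, hen⟩ : ∃ (m : ℕ) (en : ℕ → ℝ), ∀ E ∈ t, ∃ i, i < m ∧ en i = E := by
    refine ⟨t.toList.length, fun i => t.toList.getD i 0, fun E hE => ?_⟩
    obtain ⟨i, hi, hiE⟩ := List.getElem_of_mem (Finset.mem_toList.2 hE)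
    refine ⟨i, hi, ?_⟩
    show t.toList.getD i 0 = E
    rw [List.getD_eq_getElem _ _ hi, hiE]
  refine ⟨r0, lam0, C0, (m + 1) * (2 * N0), hr0, by linarith, hl1, hC0, ?_, ?_⟩
  · have : 1 ≤ (m + 1) * (2 * N0) := Nat.mul_pos (by omega) (by omega)
    exact this
  intro h hh p hp0p hp
  set R := (m + 1) * (2 * N0) with hR
  set B : ℤ := 2 * h * N0 with hB
  set S : ℤ := ((h * R : ℕ) : ℤ) with hS
  have hSB : S = (m + 1) * B := by rw [hS, hB, hR]; push_cast; ring
  have hhz : (1 : ℤ) ≤ h := by exact_mod_cast hh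
  have hN0z : (1 : ℤ) ≤ N0 := by exact_mod_cast hN0
  have hB0 : 0 < B := by rw [hB]; positivity
  have hB2 : 2 * (h : ℤ) ≤ B := by rw [hB]; nlinarith
  have hSBle : B ≤ S := by
    rw [hSB]
    have : (0 : ℤ) ≤ m * B := by positivity
    linarith
  have hS0 : 0 < S := by omega
  have hSp : S ≤ p := by rw [hS]; exact_mod_cast hp
  have hs0p : ∀ x, s0 (x + (p : ℤ)) = s0 x := by
    obtain ⟨c, rfl⟩ := hp0p
    intro x
    have hper : Function.Periodic s0 (p0 : ℤ) := hs0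
    have := hper.nat_mul c x
    rw [← this]
    push_cast
    rw [mul_comm]
  refine ⟨V1 s0 (fun i => w (en i)) p S B, V1_per _ _ _ _ _,
    V1_near hδ.le hs0p (fun i x => hws _ x), ?_⟩
  intro V hV E a φ M hφ hM
  have hM0 : 0 ≤ M := (abs_nonneg _).trans (hM a (by omega) (by omega))
  by_cases hE : |E| ≤ K0 + δ + 4
  · -- find the word
    have hEm : E ∈ Set.Icc (-(K0 + δ + 4)) (K0 + δ + 4) := ⟨(abs_le.1 hE).1, (abs_le.1 hE).2⟩
    have hEt := ht hEm
    simp only [Set.mem_iUnion, Metric.mem_ball, Real.dist_eq, exists_prop] at hEt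
    obtain ⟨E0, hE0t, hE0⟩ := hEt
    obtain ⟨i, him, hi⟩ := hen E0 hE0t
    obtain ⟨u1, u2, u3⟩ := hall E0 hE0t
    obtain ⟨c, hc⟩ := hdv E0 hE0t
    have hc0 : 0 < c := by
      rcases Nat.eq_zero_or_pos c with h0 | h0
      · rw [h0, mul_zero] at hc; omega
      · exact h0
    obtain ⟨g, k, g1, g2, g3⟩ := V1_copy s0 (fun i => w (en i)) hS0 hSp hB0 a
    have hBN : B = 2 * ((h * c : ℕ) : ℤ) * (N E0 : ℤ) := by
      rw [hB, hc]; push_cast; ring
    have hiB : (i : ℤ) * B + B ≤ S := by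
      rw [hSB]
      have : (i : ℤ) ≤ m := by omega
      nlinarith
    have hiB0 : (0 : ℤ) ≤ i * B := by positivity
    have hper : Function.Periodic (w E0) (N E0 : ℤ) := hw E0
    have hV1w : ∀ x : ℤ, 0 ≤ x → x < B →
        V1 s0 (fun i => w (en i)) p S B (g + i * B + x) = w E0 x := by
      intro x hx0 hx1
      rw [g3 i x hx0 hx1 (by omega), hi]
      have := hper.int_mul ((k * (m + 1) + i) * (2 * (h * c : ℕ))) x
      rw [← this]
      congr 1
      push_cast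
      rw [hSB, hBN]
      push_cast
      ring
    have hd := hdec E0 (h * c) E V φ (g + i * B) M hE0.le
      (fun x hx0 hx1 => by
        rw [← hBN] at hx1
        rw [← hV1w x hx0 hx1]
        exact (hV _).trans u1)
      (fun x hx0 hx1 => by
        rw [← hBN] at hx1
        exact hφ x (by omega) (by omega))
      (fun x hx0 hx1 => by
        rw [← hBN] at hx1
        exact hM x (by omega) (by omega))
    have hlamle : C E0 * lam E0 ^ (h * c) * M ≤ C0 * lam0 ^ h * M := by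
      apply mul_le_mul_of_nonneg_right _ hM0
      have v1 : lam E0 ^ (h * c) ≤ lam0 ^ (h * c) := pow_le_pow_left₀ (hlam0 E0).le u2 _
      have v2 : lam0 ^ (h * c) ≤ lam0 ^ h :=
        pow_le_pow_of_le_one (by linarith) hl1.le (Nat.le_mul_of_pos_right _ hc0)
      exact mul_le_mul u3 (v1.trans v2) (pow_nonneg (hlam0 E0).le _) (by linarith)
    have hhcN : (1 : ℤ) ≤ ((h * c : ℕ) : ℤ) * (N E0 : ℤ) := by
      have : 0 < (h * c) * N E0 := Nat.mul_pos (Nat.mul_pos hh hc0) (hN E0)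
      exact_mod_cast this
    have hhcB : ((h * c : ℕ) : ℤ) * (N E0 : ℤ) < B := by
      rw [hBN]; nlinarith
    refine ⟨g + i * B + (h * c : ℕ) * (N E0) - 1, by omega, by omega, hd.2.trans hlamle, ?_⟩
    rw [sub_add_cancel]
    exact hd.1.trans hlamle
  · rw [not_le] at hE
    have hbig := big_energy (V := V) (φ := φ) (E := E) (M := M) (a := a) (l := 3 * S)
      (fun x _ _ => by
        have k1 := hV x
        have k2 := V1_near (p := p) (S := S) (B := B) hδ.le hs0p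
          (fun i x => hws (en i) x) x
        have k3 := hK0 x
        have k4 : |V x| ≤ K0 + δ + 1 := by
          have e : V x = (V x - V1 s0 (fun i => w (en i)) p S B x) +
            (V1 s0 (fun i => w (en i)) p S B x - s0 x) + s0 x := by ring
          rw [e]
          refine (abs_add_le _ _).trans ?_
          refine (add_le_add_left (abs_add_le _ _) _).trans ?_
          linarith
        have k5 := abs_sub_abs_le_abs_sub E (V x)
        linarith) hφ hM h
    have hle : (2 / 3 : ℝ) ^ h * M ≤ C0 * lam0 ^ h * M := by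
      apply mul_le_mul_of_nonneg_right _ hM0
      have v1 : (2 / 3 : ℝ) ^ h ≤ lam0 ^ h := pow_le_pow_left₀ (by norm_num) hl0 _
      have v2 : 0 ≤ lam0 ^ h := pow_nonneg (by linarith) _
      nlinarith
    exact ⟨a + h, by omega, by omega, (hbig (a + h) (by omega) (by omega)).trans hle,
      (hbig (a + h + 1) (by omega) (by omega)).trans hle⟩

end Pool.Agent.Helper5K9.LP
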