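import Mathlib

set_option autoImplicit false

/-!
Limit-periodic Schroedinger operators: small points of solutions and nonresonance.
-/

namespace Pool.Agent.Helper5K9.LP

open Finset

/-- the discrete Schroedinger operator on real sequences -/
def Hm (V : ℤ → ℝ) (u : ℤ → ℝ) (x : ℤ) : ℝ := u (x + 1) + u (x - 1) + V x * u x

/-- there is a unit vector on `[a, b]` which is an approximate eigenvector at `E` -/
def Res (V : ℤ → ℝ) (a b : ℤ) (E η : ℝ) : Prop :=
  ∃ u : ℤ → ℝ, (∀ x, ¬ (a ≤ x ∧ x ≤ b) → u x = 0) ∧ ∑ x ∈ Icc a b, u x ^ 2 = 1 ∧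
    ∑ x ∈ Icc a b, (Hm V u x - E * u x) ^ 2 ≤ η ^ 2

/-- no two adjacent intervals of total length `≤ L` are resonant at the same energy -/
def NR (V : ℤ → ℝ) (η : ℝ) (L : ℤ) : Prop :=
  ∀ a y b : ℤ, a ≤ y → y < b → b < a + L → ∀ E : ℝ, ¬ (Res V a y E η ∧ Res V (y + 1) b E η)

/-- in every interval of length `l` every solution has two small consecutive values -/
def SB (V : ℤ → ℝ) (l : ℤ) (δ : ℝ) : Prop :=
  ∀ (E : ℝ) (a : ℤ) (φ : ℤ → ℝ) (M : ℝ), (∀ x, a ≤ x → x < a + l → Hm V φ x = E * φ x) →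
    (∀ x, a - 1 ≤ x → x ≤ a + l → |φ x| ≤ M) →
    ∃ x, a ≤ x ∧ x + 1 < a + l ∧ |φ x| ≤ δ * M ∧ |φ (x + 1)| ≤ δ * M

lemma res_of_cut {V φ : ℤ → ℝ} {a b : ℤ} {E d m η : ℝ} (hab : a ≤ b) (hη : 0 < η)
    (hφ : ∀ x, a ≤ x → x ≤ b → Hm V φ x = E * φ x) (h1 : |φ (a - 1)| ≤ d) (h2 : |φ (b + 1)| ≤ d)
    (hm : m = ∑ x ∈ Icc a b, φ x ^ 2) (hm0 : 0 < m) (hmd : (2 * d / η) ^ 2 ≤ m) :
    Res V a b E η := by
  have hd : 0 ≤ d := (abs_nonneg _).trans h1
  set r : ℝ := (Real.sqrt m)⁻¹ with hr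
  have hsq : Real.sqrt m ^ 2 = m := Real.sq_sqrt hm0.le
  have hsp : 0 < Real.sqrt m := Real.sqrt_pos.2 hm0
  have hr2 : r ^ 2 = m⁻¹ := by rw [hr, inv_pow, hsq]
  refine ⟨fun x => if a ≤ x ∧ x ≤ b then r * φ x else 0, fun x hx => if_neg hx, ?_, ?_⟩
  · have : ∀ x ∈ Icc a b, (if a ≤ x ∧ x ≤ b then r * φ x else 0) ^ 2 = m⁻¹ * φ x ^ 2 := by
      intro x hx
      rw [mem_Icc] at hx
      rw [if_pos hx, mul_pow, hr2]
    rw [sum_congr rfl this, ← mul_sum, ← hm]
    exact inv_mul_cancel₀ hm0.ne'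
  · have key : ∀ x ∈ Icc a b, (Hm V (fun x => if a ≤ x ∧ x ≤ b then r * φ x else 0) x -
        E * (if a ≤ x ∧ x ≤ b then r * φ x else 0)) ^ 2 ≤
        (if x = a then 2 * (r * d) ^ 2 else 0) + (if x = b then 2 * (r * d) ^ 2 else 0) := by
      intro x hx
      rw [mem_Icc] at hx
      have e := hφ x hx.1 hx.2
      unfold Hm at e ⊢
      have hr0 : 0 ≤ r := by rw [hr]; positivity
      have q1 : φ (a - 1) ^ 2 ≤ d ^ 2 := by rw [← sq_abs]; gcongr
      have q2 : φ (b + 1) ^ 2 ≤ d ^ 2 := by rw [← sq_abs]; gcongr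
      have q1' : (r * φ (a - 1)) ^ 2 ≤ (r * d) ^ 2 := by
        rw [mul_pow, mul_pow]; gcongr
      have q2' : (r * φ (b + 1)) ^ 2 ≤ (r * d) ^ 2 := by
        rw [mul_pow, mul_pow]; gcongr
      simp only []
      rw [if_pos hx]
      by_cases ha : x = a
      · by_cases hb : x = b
        · rw [if_neg (show ¬ (a ≤ x + 1 ∧ x + 1 ≤ b) by omega),
            if_neg (show ¬ (a ≤ x - 1 ∧ x - 1 ≤ b) by omega), if_pos ha, if_pos hb]
          have e2 : 0 + 0 + V x * (r * φ x) - E * (r * φ x) =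
              - (r * φ (b + 1)) - r * φ (a - 1) := by
            have : x + 1 = b + 1 := by omega
            have h' : x - 1 = a - 1 := by omega
            rw [this, h'] at e
            linear_combination r * e
          rw [e2]
          nlinarith [sq_nonneg (r * φ (b + 1) - r * φ (a - 1))]
        · rw [if_pos (show (a ≤ x + 1 ∧ x + 1 ≤ b) by omega),
            if_neg (show ¬ (a ≤ x - 1 ∧ x - 1 ≤ b) by omega), if_pos ha, if_neg hb]
          have e2 : r * φ (x + 1) + 0 + V x * (r * φ x) - E * (r * φ x) = - (r * φ (a - 1)) := by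
            have h' : x - 1 = a - 1 := by omega
            rw [h'] at e
            linear_combination r * e
          rw [e2]
          nlinarith [sq_nonneg (r * d)]
      · by_cases hb : x = b
        · rw [if_neg (show ¬ (a ≤ x + 1 ∧ x + 1 ≤ b) by omega),
            if_pos (show (a ≤ x - 1 ∧ x - 1 ≤ b) by omega), if_neg ha, if_pos hb]
          have e2 : 0 + r * φ (x - 1) + V x * (r * φ x) - E * (r * φ x) = - (r * φ (b + 1)) := by
            have h' : x + 1 = b + 1 := by omega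
            rw [h'] at e
            linear_combination r * e
          rw [e2]
          nlinarith [sq_nonneg (r * d)]
        · rw [if_pos (show (a ≤ x + 1 ∧ x + 1 ≤ b) by omega),
            if_pos (show (a ≤ x - 1 ∧ x - 1 ≤ b) by omega), if_neg ha, if_neg hb]
          have e2 : r * φ (x + 1) + r * φ (x - 1) + V x * (r * φ x) - E * (r * φ x) = 0 := by
            linear_combination r * e
          rw [e2]
          norm_num
    refine (sum_le_sum key).trans ?_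
    rw [sum_add_distrib, sum_ite_eq', sum_ite_eq', if_pos (mem_Icc.2 ⟨le_refl a, hab⟩),
      if_pos (mem_Icc.2 ⟨hab, le_refl b⟩)]
    have e3 : 2 * (r * d) ^ 2 + 2 * (r * d) ^ 2 = (2 * d) ^ 2 / m := by
      rw [mul_pow r d, hr2]; ring
    rw [e3, div_le_iff₀ hm0]
    rw [div_pow, div_le_iff₀ (by positivity)] at hmd
    linarith

/-- one halving step -/
lemma half {V : ℤ → ℝ} {l L : ℤ} {δ η : ℝ} (hSB : SB V l δ) (hNR : NR V η L) (hη : 0 < η)
    (hδ : 0 < δ) {t : ℤ} (ht : 0 ≤ t) (hs : 3 * l + 2 * t ≤ L) {E : ℝ} {a : ℤ}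
    {φ : ℤ → ℝ} {M : ℝ} (hφ : ∀ x, a ≤ x → x < a + (3 * l + 2 * t) → Hm V φ x = E * φ x)
    (hl : 0 < l)
    (hM : ∀ x, a - 1 ≤ x → x ≤ a + (3 * l + 2 * t) → |φ x| ≤ M) :
    ∃ a', a ≤ a' ∧ a' + t ≤ a + (3 * l + 2 * t) ∧
      ∀ x, a' - 1 ≤ x → x ≤ a' + t → |φ x| ≤ (2 * δ / η) * M := by
  have hM0 : 0 ≤ M := (abs_nonneg _).trans (hM a (by omega) (by omega))
  rcases hM0.eq_or_lt with hM00 | hMp
  · refine ⟨a, le_refl a, by omega, fun x h1 h2 => ?_⟩
    rw [← hM00, mul_zero]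
    rw [hM00]
    exact hM x (by omega) (by omega)
  obtain ⟨x1, h11, h12, h13, h14⟩ := hSB E a φ M (fun x h1 h2 => hφ x h1 (by omega))
    (fun x h1 h2 => hM x h1 (by omega))
  obtain ⟨x2, h21, h22, h23, h24⟩ := hSB E (a + l + t) φ M
    (fun x h1 h2 => hφ x (by omega) (by omega)) (fun x h1 h2 => hM x (by omega) (by omega))
  obtain ⟨x3, h31, h32, h33, h34⟩ := hSB E (a + 2 * l + 2 * t) φ M
    (fun x h1 h2 => hφ x (by omega) (by omega)) (fun x h1 h2 => hM x (by omega) (by omega))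
  set θ : ℝ := 2 * (δ * M) / η with hθ
  have hθ0 : 0 < θ := by rw [hθ]; positivity
  have eθ : (2 * δ / η) * M = θ := by rw [hθ]; ring
  rw [eθ]
  by_cases hL : θ ^ 2 ≤ ∑ x ∈ Icc (x1 + 1) x2, φ x ^ 2
  · by_cases hR : θ ^ 2 ≤ ∑ x ∈ Icc (x2 + 1) x3, φ x ^ 2
    · exfalso
      refine hNR (x1 + 1) x2 x3 (by omega) (by omega) (by omega) E ⟨?_, ?_⟩
      · refine res_of_cut (φ := φ) (d := δ * M) (by omega) hη
          (fun x h1 h2 => hφ x (by omega) (by omega)) ?_ h24 rfl ?_ hL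
        · rw [add_sub_cancel_right]; exact h13
        · exact lt_of_lt_of_le (by positivity) hL
      · refine res_of_cut (φ := φ) (d := δ * M) (by omega) hη
          (fun x h1 h2 => hφ x (by omega) (by omega)) ?_ h34 rfl ?_ hR
        · rw [add_sub_cancel_right]; exact h23
        · exact lt_of_lt_of_le (by positivity) hR
    · rw [not_le] at hR
      refine ⟨a + 2 * l + t, by omega, by omega, fun x h1 h2 => ?_⟩
      have h5 : φ x ^ 2 ≤ ∑ x ∈ Icc (x2 + 1) x3, φ x ^ 2 :=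
        single_le_sum (f := fun x => φ x ^ 2) (fun _ _ => sq_nonneg _)
          (mem_Icc.2 ⟨by omega, by omega⟩)
      exact (abs_lt_of_sq_lt_sq (h5.trans_lt hR) hθ0.le).le
  · rw [not_le] at hL
    refine ⟨a + l, by omega, by omega, fun x h1 h2 => ?_⟩
    have h5 : φ x ^ 2 ≤ ∑ x ∈ Icc (x1 + 1) x2, φ x ^ 2 :=
      single_le_sum (f := fun x => φ x ^ 2) (fun _ _ => sq_nonneg _)
        (mem_Icc.2 ⟨by omega, by omega⟩)
    exact (abs_lt_of_sq_lt_sq (h5.trans_lt hL) hθ0.le).le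

/-- the small points of the next scale -/
lemma SB_step {V : ℤ → ℝ} {l L : ℤ} {δ η : ℝ} (hSB : SB V l δ) (hNR : NR V η L) (hη : 0 < η)
    (hδ : 0 < δ) (hl : 2 ≤ l) (hL : 61 * l ≤ L) (hδη : 4 * δ ≤ η ^ 2) : SB V (61 * l) (δ ^ 2) := by
  intro E a φ M hφ hM
  have hM0 : 0 ≤ M := (abs_nonneg _).trans (hM a (by omega) (by omega))
  have hr : (2 * δ / η) ^ 2 ≤ δ := by
    rw [div_pow, div_le_iff₀ (by positivity)]
    nlinarith
  obtain ⟨a1, h11, h12, h13⟩ := half hSB hNR hη hδ (t := 29 * l) (by omega) (by omega)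
    (a := a) (fun x h1 h2 => hφ x h1 (by omega)) (by omega) (fun x h1 h2 => hM x h1 (by omega))
  obtain ⟨a2, h21, h22, h23⟩ := half hSB hNR hη hδ (t := 13 * l) (by omega) (by omega)
    (a := a1) (fun x h1 h2 => hφ x (by omega) (by omega)) (by omega)
    (fun x h1 h2 => h13 x (by omega) (by omega))
  obtain ⟨a3, h31, h32, h33⟩ := half hSB hNR hη hδ (t := 5 * l) (by omega) (by omega)
    (a := a2) (fun x h1 h2 => hφ x (by omega) (by omega)) (by omega)
    (fun x h1 h2 => h23 x (by omega) (by omega))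
  obtain ⟨a4, h41, h42, h43⟩ := half hSB hNR hη hδ (t := l) (by omega) (by omega)
    (a := a3) (fun x h1 h2 => hφ x (by omega) (by omega)) (by omega)
    (fun x h1 h2 => h33 x (by omega) (by omega))
  have e : 2 * δ / η * (2 * δ / η * (2 * δ / η * (2 * δ / η * M))) ≤ δ ^ 2 * M := by
    have e1 : 2 * δ / η * (2 * δ / η * (2 * δ / η * (2 * δ / η * M))) =
        ((2 * δ / η) ^ 2) ^ 2 * M := by ring
    rw [e1]
    gcongr
  exact ⟨a4, by omega, by omega, (h43 a4 (by omega) (by omega)).trans e,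
    (h43 (a4 + 1) (by omega) (by omega)).trans e⟩

end Pool.Agent.Helper5K9.LP
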