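import Pool.Agent.Helper5K9.LP.Basic

set_option autoImplicit false

/-!
Finite boxes: spectral decomposition.
-/

namespace Pool.Agent.Helper5K9.LP

open Finset

lemma spectral {n : ℕ} (A : Matrix (Fin n) (Fin n) ℝ) (hA : A.IsHermitian) :
    ∃ B : Matrix (Fin n) (Fin n) ℝ, (∀ k l, ∑ i, B k i * B l i = if k = l then 1 else 0) ∧
      (∀ i j, ∑ k, B k i * B k j = if i = j then 1 else 0) ∧
      ∀ k i, ∑ j, A i j * B k j = hA.eigenvalues k * B k i := by
  set B : Matrix (Fin n) (Fin n) ℝ := Matrix.of fun k i => hA.eigenvectorBasis k i with hB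
  have o1 : ∀ k l, ∑ i, B k i * B l i = if k = l then 1 else 0 := by
    intro k l
    have h := orthonormal_iff_ite.1 hA.eigenvectorBasis.orthonormal k l
    rw [PiLp.inner_apply] at h
    rw [← h]
    refine sum_congr rfl fun i _ => ?_
    simp only [hB, Matrix.of_apply, RCLike.inner_apply, conj_trivial]
    ring
  refine ⟨B, o1, ?_, ?_⟩
  · have h1 : B * B.transpose = 1 := by
      ext k l
      rw [Matrix.mul_apply, Matrix.one_apply, ← o1 k l]
      rfl
    have h2 : B.transpose * B = 1 := mul_eq_one_comm.1 h1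
    intro i j
    have h3 := congrFun (congrFun h2 i) j
    rw [Matrix.mul_apply, Matrix.one_apply] at h3
    rw [← h3]
    rfl
  · intro k i
    have h := congrFun (hA.mulVec_eigenvectorBasis k) i
    rw [Matrix.mulVec, dotProduct] at h
    simp only [Pi.smul_apply, smul_eq_mul] at h
    exact h

/-- the matrix of the operator on the box `[a, a + n)` -/
def boxM (V : ℤ → ℝ) (a : ℤ) (n : ℕ) : Matrix (Fin n) (Fin n) ℝ :=
  Matrix.of fun i j => (if i = j then V (a + (i : ℕ)) else 0) +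
    (if (j : ℕ) = i + 1 then 1 else 0) + (if (i : ℕ) = j + 1 then 1 else 0)

lemma boxM_herm (V : ℤ → ℝ) (a : ℤ) (n : ℕ) : (boxM V a n).IsHermitian := by
  ext i j
  simp only [boxM, Matrix.conjTranspose_apply, Matrix.of_apply, star_trivial]
  by_cases h : i = j
  · subst h; ring
  · rw [if_neg h, if_neg (Ne.symm h)]
    ring

/-- extension by zero -/
def ext (a : ℤ) {n : ℕ} (v : Fin n → ℝ) (x : ℤ) : ℝ :=
  ∑ j : Fin n, if a + ((j : ℕ) : ℤ) = x then v j else 0

lemma ext_at (a : ℤ) {n : ℕ} (v : Fin n → ℝ) (i : Fin n) : ext a v (a + ((i : ℕ) : ℤ)) = v i := by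
  unfold ext
  rw [sum_eq_single i]
  · simp
  · intro j _ hj
    rw [if_neg]
    intro h
    apply hj
    ext
    omega
  · intro h; exact absurd (mem_univ i) h

lemma ext_out (a : ℤ) {n : ℕ} (v : Fin n → ℝ) (x : ℤ) (hx : ¬ (a ≤ x ∧ x < a + n)) :
    ext a v x = 0 := by
  unfold ext
  refine sum_eq_zero fun j _ => if_neg ?_
  intro h
  apply hx
  have := j.isLt
  omega

lemma ext_restrict (a : ℤ) (n : ℕ) (u : ℤ → ℝ) (hu : ∀ x, ¬ (a ≤ x ∧ x < a + n) → u x = 0) :
    ext a (fun i : Fin n => u (a + ((i : ℕ) : ℤ))) = u := by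
  funext x
  by_cases hx : a ≤ x ∧ x < a + n
  · obtain ⟨i, hi⟩ : ∃ i : Fin n, a + ((i : ℕ) : ℤ) = x :=
      ⟨⟨(x - a).toNat, by omega⟩, by simp only []; omega⟩
    rw [← hi, ext_at]
  · rw [ext_out a _ x hx, hu x hx]

lemma sum_box (a : ℤ) (n : ℕ) (f : ℤ → ℝ) :
    ∑ x ∈ Icc a (a + n - 1), f x = ∑ i : Fin n, f (a + ((i : ℕ) : ℤ)) := by
  induction n with
  | zero =>
    rw [Icc_eq_empty (by push_cast; omega)]
    simp
  | succ n ih =>
    have h : Icc a (a + ((n + 1 : ℕ) : ℤ) - 1) = insert (a + n) (Icc a (a + n - 1)) := by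
      ext x
      simp only [mem_Icc, mem_insert]
      push_cast
      omega
    rw [h, sum_insert (by simp only [mem_Icc]; omega), ih, Fin.sum_univ_castSucc]
    simp only [Fin.val_castSucc, Fin.val_last]
    ring

lemma boxM_apply (V : ℤ → ℝ) (a : ℤ) {n : ℕ} (v : Fin n → ℝ) (i : Fin n) :
    ∑ j, boxM V a n i j * v j = Hm V (ext a v) (a + ((i : ℕ) : ℤ)) := by
  unfold Hm
  rw [ext_at]
  unfold ext
  have h1 : ∀ j : Fin n, boxM V a n i j * v j = (if i = j then V (a + ((i : ℕ) : ℤ)) * v j else 0) +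
      (if a + ((j : ℕ) : ℤ) = a + ((i : ℕ) : ℤ) + 1 then v j else 0) +
      (if a + ((j : ℕ) : ℤ) = a + ((i : ℕ) : ℤ) - 1 then v j else 0) := by
    intro j
    simp only [boxM, Matrix.of_apply]
    have e1 : (a + ((j : ℕ) : ℤ) = a + ((i : ℕ) : ℤ) + 1) ↔ ((j : ℕ) = i + 1) := by omega
    have e2 : (a + ((j : ℕ) : ℤ) = a + ((i : ℕ) : ℤ) - 1) ↔ ((i : ℕ) = j + 1) := by omega
    simp only [e1, e2]
    by_cases h : i = j
    · subst h
      simp
    · rw [if_neg h, if_neg h]
      by_cases h2 : (j : ℕ) = i + 1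
      · rw [if_pos h2, if_pos h2, if_neg (show ¬ (i : ℕ) = j + 1 by omega),
          if_neg (show ¬ (i : ℕ) = j + 1 by omega)]
        ring
      · rw [if_neg h2, if_neg h2]
        by_cases h3 : (i : ℕ) = j + 1
        · rw [if_pos h3, if_pos h3]
          ring
        · rw [if_neg h3, if_neg h3]
          ring
  rw [sum_congr rfl fun j _ => h1 j, sum_add_distrib, sum_add_distrib, sum_ite_eq]
  simp only [mem_univ, if_true]
  ring

/-- eigenvalues of the box `[a, a + n)` -/
noncomputable def eig (V : ℤ → ℝ) (a : ℤ) (n : ℕ) : Fin n → ℝ := (boxM_herm V a n).eigenvalues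

lemma eig_congr {V W : ℤ → ℝ} {a : ℤ} {n : ℕ} (h : ∀ x, a ≤ x → x < a + n → V x = W x) :
    eig V a n = eig W a n := by
  have hM : boxM V a n = boxM W a n := by
    ext i j
    simp only [boxM, Matrix.of_apply]
    rw [h (a + ((i : ℕ) : ℤ)) (by omega) (by have := i.isLt; omega)]
  unfold eig
  congr 1

/-- the spectral decomposition of the box `[a, a + n)` -/
lemma box_spectral (V : ℤ → ℝ) (a : ℤ) (n : ℕ) :
    ∃ φ : Fin n → ℤ → ℝ, (∀ k x, ¬ (a ≤ x ∧ x < a + n) → φ k x = 0) ∧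
      (∀ k x, a ≤ x → x < a + n → Hm V (φ k) x = eig V a n k * φ k x) ∧
      (∀ k l, ∑ x ∈ Icc a (a + n - 1), φ k x * φ l x = if k = l then 1 else 0) ∧
      (∀ x y, a ≤ x → x < a + n → a ≤ y → y < a + n →
        ∑ k, φ k x * φ k y = if x = y then 1 else 0) := by
  obtain ⟨B, h1, h2, h3⟩ := spectral (boxM V a n) (boxM_herm V a n)
  refine ⟨fun k => ext a (B k), fun k x hx => ext_out a _ x hx, ?_, ?_, ?_⟩
  · intro k x hx1 hx2
    obtain ⟨i, hi⟩ : ∃ i : Fin n, a + ((i : ℕ) : ℤ) = x :=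
      ⟨⟨(x - a).toNat, by omega⟩, by simp only []; omega⟩
    rw [← hi]
    have e := h3 k i
    rw [boxM_apply] at e
    refine e.trans ?_
    change _ = eig V a n k * ext a (B k) (a + ((i : ℕ) : ℤ))
    rw [ext_at]
    rfl
  · intro k l
    rw [sum_box]
    simp only [ext_at]
    exact h1 k l
  · intro x y hx1 hx2 hy1 hy2
    obtain ⟨i, hi⟩ : ∃ i : Fin n, a + ((i : ℕ) : ℤ) = x :=
      ⟨⟨(x - a).toNat, by omega⟩, by simp only []; omega⟩
    obtain ⟨j, hj⟩ : ∃ j : Fin n, a + ((j : ℕ) : ℤ) = y :=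
      ⟨⟨(y - a).toNat, by omega⟩, by simp only []; omega⟩
    rw [← hi, ← hj]
    simp only [ext_at]
    rw [h2 i j]
    have : (i = j) ↔ (a + ((i : ℕ) : ℤ) = a + ((j : ℕ) : ℤ)) := by
      constructor
      · intro h; rw [h]
      · intro h; ext; omega
    simp only [this]

/-- an approximate eigenvector at `E` gives an eigenvalue close to `E` -/
lemma eig_near {V : ℤ → ℝ} {a : ℤ} {n : ℕ} {E η : ℝ} (hη : 0 ≤ η)
    (h : Res V a (a + n - 1) E η) : ∃ k, |eig V a n k - E| ≤ η := by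
  obtain ⟨B, h1, h2, h3⟩ := spectral (boxM V a n) (boxM_herm V a n)
  obtain ⟨u, hu0, hu1, hu2⟩ := h
  set v : Fin n → ℝ := fun i => u (a + ((i : ℕ) : ℤ)) with hv
  have hext : ext a v = u := ext_restrict a n u (fun x hx => hu0 x (by omega))
  rw [sum_box] at hu1 hu2
  have hres : ∀ i : Fin n, Hm V u (a + ((i : ℕ) : ℤ)) = ∑ j, boxM V a n i j * v j := by
    intro i
    rw [boxM_apply, hext]
  -- coefficients
  set c : Fin n → ℝ := fun k => ∑ i, B k i * v i with hc
  have parseval : ∀ w : Fin n → ℝ, ∑ k, (∑ i, B k i * w i) ^ 2 = ∑ i, w i ^ 2 := by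
    intro w
    have e : ∀ k, (∑ i, B k i * w i) ^ 2 = ∑ i, ∑ j, (B k i * B k j) * (w i * w j) := by
      intro k
      rw [sq, sum_mul_sum]
      refine sum_congr rfl fun i _ => sum_congr rfl fun j _ => by ring
    rw [sum_congr rfl fun k _ => e k, sum_comm]
    refine sum_congr rfl fun i _ => ?_
    rw [sum_comm]
    have e2 : ∀ j, ∑ k, (B k i * B k j) * (w i * w j) = (if i = j then 1 else 0) * (w i * w j) := by
      intro j
      rw [← sum_mul, h2 i j]
    rw [sum_congr rfl fun j _ => e2 j]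
    simp [sq]
  have hw : ∀ k, ∑ i, B k i * (Hm V u (a + ((i : ℕ) : ℤ)) - E * u (a + ((i : ℕ) : ℤ))) =
      (eig V a n k - E) * c k := by
    intro k
    have e1 : ∑ i, B k i * (Hm V u (a + ((i : ℕ) : ℤ))) = eig V a n k * c k := by
      have : ∀ i, B k i * (Hm V u (a + ((i : ℕ) : ℤ))) = ∑ j, (boxM V a n j i * B k i) * v j := by
        intro i
        rw [hres i, mul_sum]
        refine sum_congr rfl fun j _ => ?_
        have hs := congrFun (congrFun (boxM_herm V a n) i) j
        simp only [Matrix.conjTranspose_apply, star_trivial] at hs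
        rw [hs]
        ring
      rw [sum_congr rfl fun i _ => this i, sum_comm]
      simp only [hc, mul_sum]
      refine sum_congr rfl fun j _ => ?_
      rw [← sum_mul, h3 k j]
      change eig V a n k * B k j * v j = _
      ring
    have e2 : ∑ i, B k i * (E * u (a + ((i : ℕ) : ℤ))) = E * c k := by
      simp only [hc, mul_sum]
      refine sum_congr rfl fun j _ => by ring
    simp only [mul_sub, sum_sub_distrib]
    rw [e1, e2]
    ring
  by_contra hcon
  push Not at hcon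
  have hp1 := parseval v
  have hp2 := parseval (fun i => Hm V u (a + ((i : ℕ) : ℤ)) - E * u (a + ((i : ℕ) : ℤ)))
  simp only [hw] at hp2
  have hc1 : ∑ k, c k ^ 2 = 1 := by rw [← hu1]; exact hp1
  have hle : ∑ k, η ^ 2 * c k ^ 2 < ∑ k, ((eig V a n k - E) * c k) ^ 2 := by
    obtain ⟨k0, hk0⟩ : ∃ k, c k ≠ 0 := by
      by_contra hall
      push Not at hall
      rw [sum_congr rfl (fun k _ => by rw [hall k])] at hc1
      simp at hc1
    refine sum_lt_sum (fun k _ => ?_) ⟨k0, mem_univ _, ?_⟩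
    · rw [mul_pow]
      have h5 : η ^ 2 ≤ (eig V a n k - E) ^ 2 := by
        rw [← sq_abs (eig V a n k - E)]
        have := (hcon k).le
        gcongr
      exact mul_le_mul_of_nonneg_right h5 (sq_nonneg _)
    · rw [mul_pow]
      have h5 : η ^ 2 < (eig V a n k0 - E) ^ 2 := by
        rw [← sq_abs (eig V a n k0 - E)]
        have := hcon k0
        gcongr
      exact mul_lt_mul_of_pos_right h5 (by positivity)
  rw [← mul_sum, hc1, mul_one, hp2] at hle
  linarith

end Pool.Agent.Helper5K9.LP
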