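import Pool.Agent.Helper5K9.LP.Box

set_option autoImplicit false

/-!
A completeness criterion for the eigenvectors.
-/

namespace Pool.Agent.Helper5K9.LP

open Finset Filter Topology

/-- the eigenvectors in `l^2` -/
def EigSet (V : ℤ → ℝ) : Set (lp (fun _ : ℤ => ℂ) 2) :=
  {ψ | ∃ E : ℝ, ∀ n : ℤ, ψ (n + 1) + ψ (n - 1) + (V n : ℂ) * ψ n = (E : ℂ) * ψ n}

lemma norm_le_of_sum {G : lp (fun _ : ℤ => ℂ) 2} {g : ℤ → ℝ} {ε : ℝ} (hε : 0 ≤ ε)
    (hG : ∀ x, G x = (g x : ℂ)) (h : ∀ F : Finset ℤ, ∑ x ∈ F, g x ^ 2 ≤ ε ^ 2) : ‖G‖ ≤ ε := by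
  have h5 : (2 : ENNReal).toReal = ((2 : ℕ) : ℝ) := by norm_num
  refine lp.norm_le_of_forall_sum_le (by norm_num) hε fun F => ?_
  rw [h5]
  simp only [Real.rpow_natCast]
  refine le_trans (le_of_eq ?_) (h F)
  refine sum_congr rfl fun x _ => ?_
  rw [hG, Complex.norm_real, Real.norm_eq_abs, sq_abs]

lemma exists_lp {g : ℤ → ℝ} {C : ℝ} (h : ∀ F : Finset ℤ, ∑ x ∈ F, g x ^ 2 ≤ C) :
    ∃ G : lp (fun _ : ℤ => ℂ) 2, ∀ x, G x = (g x : ℂ) := by
  have h5 : (2 : ENNReal).toReal = ((2 : ℕ) : ℝ) := by norm_num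
  have hm : Memℓp (fun x : ℤ => ((g x : ℝ) : ℂ)) 2 := by
    refine memℓp_gen' (C := C) fun F => ?_
    rw [h5]
    simp only [Real.rpow_natCast]
    refine le_trans (le_of_eq ?_) (h F)
    refine sum_congr rfl fun x _ => ?_
    rw [Complex.norm_real, Real.norm_eq_abs, sq_abs]
  exact ⟨⟨_, hm⟩, fun x => rfl⟩

lemma ulim {f : ℕ → ℝ} {K : ℝ} (h : ∀ n, |f n| ≤ K) :
    ∃ l : ℝ, |l| ≤ K ∧ Tendsto f (hyperfilter ℕ : Filter ℕ) (𝓝 l) := by
  have hc : IsCompact (Set.Icc (-K) K) := isCompact_Icc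
  obtain ⟨l, hl, hl2⟩ := hc.ultrafilter_le_nhds ((hyperfilter ℕ).map f) (by
    rw [le_principal_iff, Ultrafilter.coe_map, Filter.mem_map]
    exact univ_mem' (fun n => by
      have := h n
      rw [abs_le] at this
      exact this))
  exact ⟨l, abs_le.2 hl, hl2⟩

lemma compl_crit (V : ℤ → ℝ) (K : ℝ) (c : ℤ)
    (H : ∀ ε : ℝ, 0 < ε → ∃ r : ℕ, ∀ n : ℕ, ∃ (g : Fin r → ℤ → ℝ) (e : Fin r → ℝ),
      (∀ j, |e j| ≤ K) ∧ (∀ j x, c - n ≤ x → x ≤ c + n → Hm V (g j) x = e j * g j x) ∧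
      (∀ j (F : Finset ℤ), ∑ x ∈ F, g j x ^ 2 ≤ 1) ∧
      (∀ F : Finset ℤ, ∑ x ∈ F, ((if x = c then 1 else 0) - ∑ j, g j x) ^ 2 ≤ ε ^ 2)) :
    lp.single 2 c (1 : ℂ) ∈ (Submodule.span ℂ (EigSet V)).topologicalClosure := by
  rw [← SetLike.mem_coe, Submodule.topologicalClosure_coe, Metric.mem_closure_iff]
  intro ε hε
  obtain ⟨r, hr⟩ := H (ε / 2) (by positivity)
  choose g e h1 h2 h3 h4 using hr
  have hg : ∀ n j x, |g n j x| ≤ 1 := by
    intro n j x
    have := h3 n j {x}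
    rw [sum_singleton] at this
    exact abs_le_one_iff_mul_self_le_one.2 (by nlinarith)
  choose el hel1 hel2 using fun j => ulim (f := fun n => e n j) (fun n => h1 n j)
  choose gl hgl1 hgl2 using fun j x => ulim (f := fun n => g n j x) (fun n => hg n j x)
  have heq : ∀ j x, Hm V (gl j) x = el j * gl j x := by
    intro j x
    have t1 : Tendsto (fun n => Hm V (g n j) x) (hyperfilter ℕ : Filter ℕ) (𝓝 (Hm V (gl j) x)) := by
      unfold Hm
      exact ((hgl2 j (x + 1)).add (hgl2 j (x - 1))).add ((hgl2 j x).const_mul _)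
    have t2 : Tendsto (fun n => e n j * g n j x) (hyperfilter ℕ : Filter ℕ)
        (𝓝 (el j * gl j x)) := (hel2 j).mul (hgl2 j x)
    refine tendsto_nhds_unique t1 (t2.congr' ?_)
    have hev : ∀ᶠ n : ℕ in atTop, e n j * g n j x = Hm V (g n j) x := by
      filter_upwards [eventually_ge_atTop (x - c).natAbs] with n hn
      exact (h2 n j x (by omega) (by omega)).symm
    exact hev.filter_mono Nat.hyperfilter_le_atTop
  have hsum1 : ∀ j (F : Finset ℤ), ∑ x ∈ F, gl j x ^ 2 ≤ 1 := by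
    intro j F
    have t : Tendsto (fun n => ∑ x ∈ F, g n j x ^ 2) (hyperfilter ℕ : Filter ℕ)
        (𝓝 (∑ x ∈ F, gl j x ^ 2)) := tendsto_finsetSum _ fun x _ => (hgl2 j x).pow 2
    exact le_of_tendsto' t fun n => h3 n j F
  have hsum2 : ∀ F : Finset ℤ, ∑ x ∈ F, ((if x = c then 1 else 0) - ∑ j, gl j x) ^ 2 ≤
      (ε / 2) ^ 2 := by
    intro F
    have t : Tendsto (fun n => ∑ x ∈ F, ((if x = c then 1 else 0) - ∑ j, g n j x) ^ 2)
        (hyperfilter ℕ : Filter ℕ)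
        (𝓝 (∑ x ∈ F, ((if x = c then 1 else 0) - ∑ j, gl j x) ^ 2)) :=
      tendsto_finsetSum _ fun x _ =>
        ((tendsto_const_nhds.sub (tendsto_finsetSum _ fun j _ => hgl2 j x))).pow 2
    exact le_of_tendsto' t fun n => h4 n F
  choose G hG using fun j => exists_lp (hsum1 j)
  refine ⟨∑ j, G j, ?_, ?_⟩
  · rw [SetLike.mem_coe]
    refine Submodule.sum_mem _ fun j _ => Submodule.subset_span ⟨el j, fun n => ?_⟩
    have := heq j n
    unfold Hm at this
    have h2 := congrArg (fun t : ℝ => (t : ℂ)) this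
    push_cast at h2
    rw [hG, hG, hG]
    exact h2
  · rw [dist_eq_norm]
    refine lt_of_le_of_lt (norm_le_of_sum (g := fun x => (if x = c then 1 else 0) - ∑ j, gl j x)
      (ε := ε / 2) (by positivity) ?_ hsum2) (by linarith)
    intro x
    rw [lp.coeFn_sub, Pi.sub_apply, lp.coeFn_sum, Finset.sum_apply, lp.single_apply]
    simp only [hG]
    push_cast
    congr 1
    by_cases hx : x = c
    · subst hx; simp
    · rw [if_neg hx, Pi.single_apply, if_neg hx]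
      simp

lemma closure_top (V : ℤ → ℝ)
    (h : ∀ c : ℤ, lp.single 2 c (1 : ℂ) ∈ (Submodule.span ℂ (EigSet V)).topologicalClosure) :
    (Submodule.span ℂ (EigSet V)).topologicalClosure = ⊤ := by
  rw [eq_top_iff]
  intro f _
  have hs := lp.hasSum_single (p := 2) (by norm_num) f
  have hcl : IsClosed ((Submodule.span ℂ (EigSet V)).topologicalClosure :
      Set (lp (fun _ : ℤ => ℂ) 2)) := Submodule.isClosed_topologicalClosure _
  refine hcl.mem_of_tendsto hs (Eventually.of_forall fun F => ?_)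
  rw [SetLike.mem_coe]
  refine Submodule.sum_mem _ fun i _ => ?_
  have e : lp.single 2 i (f i) = (f i) • (lp.single 2 i (1 : ℂ) : lp (fun _ : ℤ => ℂ) 2) := by
    rw [← lp.single_smul]
    simp
  rw [e]
  exact Submodule.smul_mem _ _ (h i)

end Pool.Agent.Helper5K9.LP
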