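import Pool.Agent.Helper5K9.LP.Basic

set_option autoImplicit false

/-!
Hyperbolic words.
-/

namespace Pool.Agent.Helper5K9.LP

open Finset

/-- one step -/
def T1 (e : ℝ) : Matrix (Fin 2) (Fin 2) ℝ := !![e, -1; 1, 0]

/-- transfer matrices -/
def Tm (E : ℝ) (v : ℤ → ℝ) (a : ℤ) : ℕ → Matrix (Fin 2) (Fin 2) ℝ
  | 0 => 1
  | n + 1 => T1 (E - v (a + n)) * Tm E v a n

lemma Tm_add (E : ℝ) (v : ℤ → ℝ) (a : ℤ) (m n : ℕ) :
    Tm E v a (m + n) = Tm E v (a + m) n * Tm E v a m := by
  induction n with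
  | zero => simp [Tm]
  | succ n ih =>
    rw [← add_assoc, Tm, Tm, ih, Matrix.mul_assoc]
    congr 3
    push_cast
    ring_nf

lemma Tm_congr {E : ℝ} {v w : ℤ → ℝ} {a b : ℤ} {n : ℕ} (h : ∀ x : ℕ, x < n → v (a + x) = w (b + x)) :
    Tm E v a n = Tm E w b n := by
  induction n with
  | zero => rfl
  | succ n ih =>
    rw [Tm, Tm, ih fun x hx => h x (by omega), h n (by omega)]

lemma Tm_det (E : ℝ) (v : ℤ → ℝ) (a : ℤ) (n : ℕ) : (Tm E v a n).det = 1 := by
  induction n with
  | zero => simp [Tm]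
  | succ n ih =>
    rw [Tm, Matrix.det_mul, ih, T1, Matrix.det_fin_two]
    simp

lemma Tm_sol {E : ℝ} {v φ : ℤ → ℝ} {a : ℤ} {n : ℕ}
    (h : ∀ x, a ≤ x → x < a + n → Hm v φ x = E * φ x) :
    φ (a + n) = Tm E v a n 0 0 * φ a + Tm E v a n 0 1 * φ (a - 1) ∧
      φ (a + n - 1) = Tm E v a n 1 0 * φ a + Tm E v a n 1 1 * φ (a - 1) := by
  induction n with
  | zero => simp [Tm]
  | succ n ih =>
    obtain ⟨h1, h2⟩ := ih fun x hx1 hx2 => h x hx1 (by push_cast; omega)
    have h3 := h (a + n) (by omega) (by push_cast; omega)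
    unfold Hm at h3
    have e1 : a + ((n + 1 : ℕ) : ℤ) = a + n + 1 := by push_cast; ring
    rw [e1, add_sub_cancel_right]
    simp only [Tm, T1, Matrix.mul_apply, Fin.sum_univ_two, Matrix.of_apply, Matrix.cons_val',
      Matrix.cons_val_zero, Matrix.cons_val_one, Matrix.cons_val_fin_one]
    constructor
    · have : φ (a + n + 1) = (E - v (a + n)) * φ (a + n) - φ (a + n - 1) := by linear_combination h3
      rw [this, h1, h2]
      ring
    · rw [h1]; ring

lemma Tm_cont (N : ℕ) (w : ℤ → ℝ) (E0 : ℝ) : ∀ κ : ℝ, 0 < κ → ∃ r : ℝ, 0 < r ∧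
    ∀ (E : ℝ) (v : ℤ → ℝ) (a : ℤ), |E - E0| ≤ r → (∀ x : ℕ, x < N → |v (a + x) - w x| ≤ r) →
      ∀ i j, |Tm E v a N i j - Tm E0 w 0 N i j| ≤ κ := by
  induction N with
  | zero =>
    intro κ hκ
    refine ⟨1, one_pos, fun E v a _ _ i j => ?_⟩
    simp only [Tm, sub_self, abs_zero]
    exact hκ.le
  | succ N ih =>
    intro κ hκ
    obtain ⟨B, hB1, hB⟩ : ∃ B : ℝ, 1 ≤ B ∧ ∀ i j, |Tm E0 w 0 N i j| ≤ B := by
      refine ⟨1 + ∑ i, ∑ j, |Tm E0 w 0 N i j|, ?_, fun i j => ?_⟩
      · have : 0 ≤ ∑ i, ∑ j, |Tm E0 w 0 N i j| :=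
          sum_nonneg fun _ _ => sum_nonneg fun _ _ => abs_nonneg _
        linarith
      · have h1 : |Tm E0 w 0 N i j| ≤ ∑ j, |Tm E0 w 0 N i j| :=
          single_le_sum (f := fun j => |Tm E0 w 0 N i j|) (fun _ _ => abs_nonneg _) (mem_univ j)
        have h2 : ∑ j, |Tm E0 w 0 N i j| ≤ ∑ i, ∑ j, |Tm E0 w 0 N i j| :=
          single_le_sum (f := fun i => ∑ j, |Tm E0 w 0 N i j|)
            (fun _ _ => sum_nonneg fun _ _ => abs_nonneg _) (mem_univ i)
        linarith
    set e0 : ℝ := E0 - w N with he0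
    set D : ℝ := |e0| + 1 with hD
    have hD1 : 1 ≤ D := by have := abs_nonneg e0; linarith
    obtain ⟨r, hr, h⟩ := ih (min 1 (κ / (4 * D))) (by positivity)
    refine ⟨min r (κ / (8 * (B + 1))), by positivity, fun E v a hE hv => ?_⟩
    have hE' := hE.trans (min_le_left _ _)
    have hE'' := hE.trans (min_le_right _ _)
    have h5 := h E v a hE' fun x hx => (hv x (by omega)).trans (min_le_left _ _)
    have h6 := (hv N (by omega)).trans (min_le_right _ _)
    set e : ℝ := E - v (a + N) with he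
    have h7 : |e - e0| ≤ κ / (4 * (B + 1)) := by
      have e1 : e - e0 = (E - E0) - (v (a + N) - w N) := by rw [he, he0]; ring
      rw [e1]
      refine (abs_sub _ _).trans ?_
      have : κ / (4 * (B + 1)) = κ / (8 * (B + 1)) + κ / (8 * (B + 1)) := by
        field_simp; ring
      linarith
    have h8 : ∀ i j, |Tm E v a N i j| ≤ B + 1 := by
      intro i j
      have g1 := (h5 i j).trans (min_le_left _ _)
      have g2 := hB i j
      have g3 : Tm E v a N i j = Tm E0 w 0 N i j + (Tm E v a N i j - Tm E0 w 0 N i j) := by ring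
      rw [g3]
      refine (abs_add_le _ _).trans ?_
      linarith
    have h9 : ∀ i j, |Tm E v a N i j - Tm E0 w 0 N i j| ≤ κ / (4 * D) := fun i j =>
      (h5 i j).trans (min_le_right _ _)
    have hle : κ / (4 * D) ≤ κ / 4 := by
      apply div_le_div_of_nonneg_left hκ.le (by norm_num) (by linarith)
    intro i j
    have e3 : Tm E v a (N + 1) = T1 e * Tm E v a N := rfl
    have e4 : Tm E0 w 0 (N + 1) = T1 e0 * Tm E0 w 0 N := by
      rw [Tm]; simp only [zero_add]; rw [he0]
    rw [e3, e4, Matrix.mul_apply, Matrix.mul_apply, Fin.sum_univ_two, Fin.sum_univ_two]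
    fin_cases i
    · simp only [T1, Matrix.of_apply, Matrix.cons_val', Matrix.cons_val_zero, Matrix.cons_val_one,
        Matrix.cons_val_fin_one, Fin.zero_eta, Fin.isValue]
      have e5 : e * Tm E v a N 0 j + -1 * Tm E v a N 1 j -
          (e0 * Tm E0 w 0 N 0 j + -1 * Tm E0 w 0 N 1 j) =
          (e - e0) * Tm E v a N 0 j + e0 * (Tm E v a N 0 j - Tm E0 w 0 N 0 j) -
            (Tm E v a N 1 j - Tm E0 w 0 N 1 j) := by ring
      rw [e5]
      refine (abs_sub _ _).trans ?_
      have g1 : |(e - e0) * Tm E v a N 0 j + e0 * (Tm E v a N 0 j - Tm E0 w 0 N 0 j)| ≤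
          κ / 4 + κ / 4 := by
        refine (abs_add_le _ _).trans ?_
        rw [abs_mul, abs_mul]
        have k1 : |e - e0| * |Tm E v a N 0 j| ≤ κ / (4 * (B + 1)) * (B + 1) :=
          mul_le_mul h7 (h8 0 j) (abs_nonneg _) (by positivity)
        have k2 : |e0| * |Tm E v a N 0 j - Tm E0 w 0 N 0 j| ≤ D * (κ / (4 * D)) :=
          mul_le_mul (by linarith) (h9 0 j) (abs_nonneg _) (by positivity)
        have k3 : κ / (4 * (B + 1)) * (B + 1) = κ / 4 := by field_simp
        have k4 : D * (κ / (4 * D)) = κ / 4 := by field_simp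
        linarith
      have g2 := h9 1 j
      linarith
    · simp only [T1, Matrix.of_apply, Matrix.cons_val', Matrix.cons_val_zero, Matrix.cons_val_one,
        Matrix.cons_val_fin_one, Fin.mk_one, Fin.isValue]
      have e5 : (1 : ℝ) * Tm E v a N 0 j + 0 * Tm E v a N 1 j -
          (1 * Tm E0 w 0 N 0 j + 0 * Tm E0 w 0 N 1 j) = Tm E v a N 0 j - Tm E0 w 0 N 0 j := by ring
      rw [e5]
      have := h9 0 j
      linarith

/-- the dynamics of a nearly diagonal hyperbolic recursion -/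
lemma hyp_dyn {α β : ℕ → ℝ} {mu κ lam C : ℝ} {h : ℕ} (hlam0 : 0 < lam) (hlam1 : lam < 1)
    (hmu : lam⁻¹ ≤ |mu| - κ) (hmu' : |mu⁻¹| + κ ≤ lam)
    (h1 : ∀ j, j < 2 * h → |α (j + 1) - mu * α j| ≤ κ * max |α j| |β j|)
    (h2 : ∀ j, j < 2 * h → |β (j + 1) - mu⁻¹ * β j| ≤ κ * max |α j| |β j|)
    (h0 : |β 0| ≤ C) (hend : |α (2 * h)| ≤ C) : |α h| ≤ C * lam ^ h ∧ |β h| ≤ C * lam ^ h := by
  have hinv : 1 ≤ lam⁻¹ := (one_le_inv₀ hlam0).2 hlam1.le
  have step : ∀ j, j < 2 * h → |β j| ≤ |α j| → |β (j + 1)| ≤ |α (j + 1)| ∧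
      |α j| ≤ lam * |α (j + 1)| := by
    intro j hj hP
    have g1 := h1 j hj
    have g2 := h2 j hj
    rw [max_eq_left hP] at g1 g2
    have a0 := abs_nonneg (α j)
    have e1 : |mu| * |α j| - κ * |α j| ≤ |α (j + 1)| := by
      have := abs_sub_abs_le_abs_sub (mu * α j) (α (j + 1))
      rw [abs_sub_comm] at this
      rw [abs_mul] at this
      linarith
    have e2 : |β (j + 1)| ≤ |mu⁻¹| * |β j| + κ * |α j| := by
      have := abs_sub_abs_le_abs_sub (β (j + 1)) (mu⁻¹ * β j)
      rw [abs_mul] at this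
      linarith
    have e3 : lam⁻¹ * |α j| ≤ |α (j + 1)| := by
      have : lam⁻¹ * |α j| ≤ (|mu| - κ) * |α j| := mul_le_mul_of_nonneg_right hmu a0
      linarith
    have e4 : |α j| ≤ |α (j + 1)| := by
      have : 1 * |α j| ≤ lam⁻¹ * |α j| := mul_le_mul_of_nonneg_right hinv a0
      linarith
    constructor
    · have k1 : |mu⁻¹| * |β j| ≤ |mu⁻¹| * |α j| := mul_le_mul_of_nonneg_left hP (abs_nonneg _)
      have k2 : (|mu⁻¹| + κ) * |α j| ≤ lam * |α j| := mul_le_mul_of_nonneg_right hmu' a0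
      have k3 : lam * |α j| ≤ 1 * |α j| := mul_le_mul_of_nonneg_right hlam1.le a0
      nlinarith
    · have k4 := mul_le_mul_of_nonneg_left e3 hlam0.le
      rwa [← mul_assoc, mul_inv_cancel₀ hlam0.ne', one_mul] at k4
  by_cases hP : |β h| ≤ |α h|
  · have key : ∀ k, k ≤ h → |β (h + k)| ≤ |α (h + k)| ∧ |α h| ≤ lam ^ k * |α (h + k)| := by
      intro k
      induction k with
      | zero => intro _; exact ⟨hP, by simp⟩
      | succ k ih =>
        intro hk
        obtain ⟨i1, i2⟩ := ih (by omega)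
        obtain ⟨s1, s2⟩ := step (h + k) (by omega) i1
        refine ⟨s1, i2.trans ?_⟩
        rw [pow_succ, mul_assoc]
        exact mul_le_mul_of_nonneg_left s2 (by positivity)
    have e1 := (key h le_rfl).2
    rw [← two_mul] at e1
    have e2 : |α h| ≤ C * lam ^ h := by
      have : lam ^ h * |α (2 * h)| ≤ lam ^ h * C := mul_le_mul_of_nonneg_left hend (by positivity)
      linarith
    exact ⟨e2, hP.trans e2⟩
  · have hN : ∀ j, j ≤ h → |α j| < |β j| := by
      intro j hj
      by_contra hcon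
      rw [not_lt] at hcon
      apply hP
      have key : ∀ k, j + k ≤ h → |β (j + k)| ≤ |α (j + k)| := by
        intro k
        induction k with
        | zero => intro _; exact hcon
        | succ k ih =>
          intro hk
          exact (step (j + k) (by omega) (ih (by omega))).1
      have := key (h - j) (by omega)
      rwa [show j + (h - j) = h by omega] at this
    have key : ∀ j, j ≤ h → |β j| ≤ C * lam ^ j := by
      intro j
      induction j with
      | zero => intro _; simpa using h0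
      | succ j ih =>
        intro hj
        have i1 := ih (by omega)
        have g2 := h2 j (by omega)
        rw [max_eq_right (hN j (by omega)).le] at g2
        have e2 : |β (j + 1)| ≤ |mu⁻¹| * |β j| + κ * |β j| := by
          have := abs_sub_abs_le_abs_sub (β (j + 1)) (mu⁻¹ * β j)
          rw [abs_mul] at this
          linarith
        have k2 : (|mu⁻¹| + κ) * |β j| ≤ lam * |β j| :=
          mul_le_mul_of_nonneg_right hmu' (abs_nonneg _)
        have k3 : lam * |β j| ≤ lam * (C * lam ^ j) := mul_le_mul_of_nonneg_left i1 hlam0.le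
        rw [pow_succ]
        linarith
    have e1 := key h le_rfl
    exact ⟨(hN h le_rfl).le.trans e1, e1⟩

lemma left_eig {a b c d mu : ℝ} (hdet : a * d - b * c = 1) (hmu : mu ^ 2 - (a + d) * mu + 1 = 0) :
    ∃ p q : ℝ, (p ≠ 0 ∨ q ≠ 0) ∧ p * a + q * c = mu * p ∧ p * b + q * d = mu * q := by
  by_cases hc : c = 0
  · by_cases hb : b = 0
    · subst hc; subst hb
      have h1 : (mu - a) * (mu - d) = 0 := by linear_combination hmu + hdet
      rcases mul_eq_zero.1 h1 with h | h
      · exact ⟨1, 0, Or.inl one_ne_zero, by linear_combination -h, by ring⟩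
      · exact ⟨0, 1, Or.inr one_ne_zero, by ring, by linear_combination -h⟩
    · exact ⟨mu - d, b, Or.inr hb, by linear_combination - hmu - hdet, by ring⟩
  · exact ⟨c, mu - a, Or.inl hc, by ring, by linear_combination - hmu - hdet⟩

lemma eig_indep {a b c d mu nu p1 q1 p2 q2 : ℝ} (hne : mu ≠ nu) (h1 : p1 ≠ 0 ∨ q1 ≠ 0)
    (h2 : p2 ≠ 0 ∨ q2 ≠ 0) (e1 : p1 * a + q1 * c = mu * p1) (e2 : p1 * b + q1 * d = mu * q1)
    (f1 : p2 * a + q2 * c = nu * p2) (f2 : p2 * b + q2 * d = nu * q2) :
    p1 * q2 - p2 * q1 ≠ 0 := by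
  intro h0
  have hmn : mu - nu ≠ 0 := sub_ne_zero.2 hne
  have k1 : (mu - nu) * (p1 * q2) = 0 := by
    linear_combination (-q2) * e1 + q1 * f1 + (a - nu) * h0
  have k2 : p1 * q2 = 0 := (mul_eq_zero.1 k1).resolve_left hmn
  have k3 : p2 * q1 = 0 := by linarith
  rcases mul_eq_zero.1 k2 with hp1 | hq2
  · have hq1 : q1 ≠ 0 := by
      rcases h1 with h | h
      · exact absurd hp1 h
      · exact h
    have hp2 : p2 = 0 := (mul_eq_zero.1 k3).resolve_right hq1
    have hq2 : q2 ≠ 0 := by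
      rcases h2 with h | h
      · exact absurd hp2 h
      · exact h
    subst hp1; subst hp2
    have m1 : d = mu := mul_left_cancel₀ hq1 (by linear_combination e2)
    have m2 : d = nu := mul_left_cancel₀ hq2 (by linear_combination f2)
    exact hne (m1.symm.trans m2)
  · have hp2 : p2 ≠ 0 := by
      rcases h2 with h | h
      · exact h
      · exact absurd hq2 h
    have hq1 : q1 = 0 := (mul_eq_zero.1 k3).resolve_left hp2
    have hp1 : p1 ≠ 0 := by
      rcases h1 with h | h
      · exact h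
      · exact absurd hq1 h
    subst hq1; subst hq2
    have m1 : a = mu := mul_left_cancel₀ hp1 (by linear_combination e1)
    have m2 : a = nu := mul_left_cancel₀ hp2 (by linear_combination f1)
    exact hne (m1.symm.trans m2)

end Pool.Agent.Helper5K9.LP
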