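import Pool.Agent.Helper5K9.LP.Hyper

set_option autoImplicit false

/-!
Solutions on long hyperbolic blocks are small in the middle.
-/

namespace Pool.Agent.Helper5K9.LP

open Finset

/-- coordinates for a hyperbolic matrix -/
lemma hyp_coord {a b c d : ℝ} (hdet : a * d - b * c = 1) (htr : 2 < |a + d|) :
    ∃ mu p1 q1 p2 q2 : ℝ, 1 < |mu| ∧ p1 * q2 - p2 * q1 ≠ 0 ∧
      p1 * a + q1 * c = mu * p1 ∧ p1 * b + q1 * d = mu * q1 ∧
      p2 * a + q2 * c = mu⁻¹ * p2 ∧ p2 * b + q2 * d = mu⁻¹ * q2 := by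
  obtain ⟨mu, hmu, hmu1⟩ : ∃ mu : ℝ, mu ^ 2 - (a + d) * mu + 1 = 0 ∧ 1 < |mu| := by
    have hpos : 0 < (a + d) ^ 2 - 4 := by
      have : 2 ^ 2 < |a + d| ^ 2 := by gcongr
      rw [sq_abs] at this
      linarith
    set s := Real.sqrt ((a + d) ^ 2 - 4) with hs
    have hs2 : s ^ 2 = (a + d) ^ 2 - 4 := Real.sq_sqrt hpos.le
    have hs0 : 0 < s := Real.sqrt_pos.2 hpos
    rcases lt_or_ge 0 (a + d) with h | h
    · rw [abs_of_pos h] at htr
      refine ⟨(a + d + s) / 2, by nlinarith, ?_⟩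
      rw [abs_of_pos (by linarith)]
      linarith
    · rw [abs_of_nonpos h] at htr
      refine ⟨(a + d - s) / 2, by nlinarith, ?_⟩
      rw [abs_of_neg (by linarith)]
      linarith
  have hmu0 : mu ≠ 0 := by
    intro h0
    rw [h0, abs_zero] at hmu1
    linarith
  have hinv : mu⁻¹ ^ 2 - (a + d) * mu⁻¹ + 1 = 0 := by
    field_simp
    linear_combination hmu
  have hne : mu ≠ mu⁻¹ := by
    intro h
    have h1 : mu * mu = 1 := by
      nth_rewrite 2 [h]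
      exact mul_inv_cancel₀ hmu0
    have h2 : |mu| * |mu| = 1 := by rw [← abs_mul, h1, abs_one]
    nlinarith
  obtain ⟨p1, q1, h1, e1, e2⟩ := left_eig hdet hmu
  obtain ⟨p2, q2, h2, f1, f2⟩ := left_eig hdet hinv
  exact ⟨mu, p1, q1, p2, q2, hmu1, eig_indep hne h1 h2 e1 e2 f1 f2, e1, e2, f1, f2⟩

/-- inverting the coordinates -/
lemma coord_inv {p1 q1 p2 q2 x y m K1 : ℝ} (hD : p1 * q2 - p2 * q1 ≠ 0)
    (hK : |p1| + |q1| + |p2| + |q2| ≤ K1)
    (h1 : |p1 * x + q1 * y| ≤ m) (h2 : |p2 * x + q2 * y| ≤ m) :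
    |x| ≤ (K1 + 1) / |p1 * q2 - p2 * q1| * m ∧ |y| ≤ (K1 + 1) / |p1 * q2 - p2 * q1| * m := by
  have hD0 : 0 < |p1 * q2 - p2 * q1| := abs_pos.2 hD
  have m0 : 0 ≤ m := (abs_nonneg _).trans h1
  have n1 := abs_nonneg p1
  have n2 := abs_nonneg q1
  have n3 := abs_nonneg p2
  have n4 := abs_nonneg q2
  constructor
  · have h3 : |p1 * q2 - p2 * q1| * |x| ≤ (K1 + 1) * m := by
      have e : (p1 * q2 - p2 * q1) * x = q2 * (p1 * x + q1 * y) - q1 * (p2 * x + q2 * y) := by ring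
      rw [← abs_mul, e]
      refine (abs_sub _ _).trans ?_
      rw [abs_mul, abs_mul]
      have k1 : |q2| * |p1 * x + q1 * y| ≤ |q2| * m := mul_le_mul_of_nonneg_left h1 n4
      have k2 : |q1| * |p2 * x + q2 * y| ≤ |q1| * m := mul_le_mul_of_nonneg_left h2 n2
      have k3 : (|q2| + |q1|) * m ≤ (K1 + 1) * m := mul_le_mul_of_nonneg_right (by linarith) m0
      linarith
    rw [div_mul_eq_mul_div, le_div_iff₀ hD0, mul_comm]
    exact h3
  · have h3 : |p1 * q2 - p2 * q1| * |y| ≤ (K1 + 1) * m := by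
      have e : (p1 * q2 - p2 * q1) * y = p1 * (p2 * x + q2 * y) - p2 * (p1 * x + q1 * y) := by ring
      rw [← abs_mul, e]
      refine (abs_sub _ _).trans ?_
      rw [abs_mul, abs_mul]
      have k1 : |p1| * |p2 * x + q2 * y| ≤ |p1| * m := mul_le_mul_of_nonneg_left h2 n1
      have k2 : |p2| * |p1 * x + q1 * y| ≤ |p2| * m := mul_le_mul_of_nonneg_left h1 n3
      have k3 : (|p1| + |p2|) * m ≤ (K1 + 1) * m := mul_le_mul_of_nonneg_right (by linarith) m0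
      linarith
    rw [div_mul_eq_mul_div, le_div_iff₀ hD0, mul_comm]
    exact h3

/-- the error of one perturbed step -/
lemma step_err {p q x y m K1 K2 s κ b00 b01 b10 b11 : ℝ} (hpq : |p| + |q| ≤ K1)
    (hK2 : 0 ≤ K2) (hx : |x| ≤ K2 * m) (hy : |y| ≤ K2 * m) (hm : 0 ≤ m) (hs : 0 ≤ s)
    (hsκ : 2 * s * K1 * K2 ≤ κ)
    (h00 : |b00| ≤ s) (h01 : |b01| ≤ s) (h10 : |b10| ≤ s) (h11 : |b11| ≤ s) :
    |p * (b00 * x + b01 * y) + q * (b10 * x + b11 * y)| ≤ κ * m := by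
  have hbd : ∀ c d : ℝ, |c| ≤ s → |d| ≤ s → |c * x + d * y| ≤ 2 * s * (K2 * m) := by
    intro c d hc hd
    refine (abs_add_le _ _).trans ?_
    rw [abs_mul, abs_mul]
    have k1 : |c| * |x| ≤ s * (K2 * m) := mul_le_mul hc hx (abs_nonneg _) hs
    have k2 : |d| * |y| ≤ s * (K2 * m) := mul_le_mul hd hy (abs_nonneg _) hs
    linarith
  refine (abs_add_le _ _).trans ?_
  rw [abs_mul, abs_mul]
  have k1 := mul_le_mul_of_nonneg_left (hbd _ _ h00 h01) (abs_nonneg p)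
  have k2 := mul_le_mul_of_nonneg_left (hbd _ _ h10 h11) (abs_nonneg q)
  have k3 : (|p| + |q|) * (2 * s * (K2 * m)) ≤ K1 * (2 * s * (K2 * m)) :=
    mul_le_mul_of_nonneg_right hpq (by positivity)
  have k4 : K1 * (2 * s * (K2 * m)) = (2 * s * K1 * K2) * m := by ring
  have k5 := mul_le_mul_of_nonneg_right hsκ hm
  linarith

/-- decay of a sequence of vectors moved by nearly constant hyperbolic matrices -/
lemma seq_decay {a b c d : ℝ} (hdet : a * d - b * c = 1) (htr : 2 < |a + d|) :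
    ∃ s lam C : ℝ, 0 < s ∧ 0 < lam ∧ lam < 1 ∧ 0 < C ∧
      ∀ (h : ℕ) (X Y : ℕ → ℝ) (M : ℝ),
        (∀ j, j < 2 * h → ∃ b00 b01 b10 b11 : ℝ, |b00 - a| ≤ s ∧ |b01 - b| ≤ s ∧ |b10 - c| ≤ s ∧
          |b11 - d| ≤ s ∧ X (j + 1) = b00 * X j + b01 * Y j ∧ Y (j + 1) = b10 * X j + b11 * Y j) →
        (∀ j, j ≤ 2 * h → |X j| ≤ M ∧ |Y j| ≤ M) →
        |X h| ≤ C * lam ^ h * M ∧ |Y h| ≤ C * lam ^ h * M := by
  obtain ⟨mu, p1, q1, p2, q2, hmu, hD, e1, e2, f1, f2⟩ := hyp_coord hdet htr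
  have hD0 : 0 < |p1 * q2 - p2 * q1| := abs_pos.2 hD
  -- constants
  obtain ⟨K1, hK1p, hK1⟩ : ∃ K1 : ℝ, 0 ≤ K1 ∧ |p1| + |q1| + |p2| + |q2| ≤ K1 :=
    ⟨_, by positivity, le_rfl⟩
  obtain ⟨K2, hK2p, hK2⟩ : ∃ K2 : ℝ, 0 < K2 ∧ (K1 + 1) / |p1 * q2 - p2 * q1| = K2 :=
    ⟨_, by positivity, rfl⟩
  have hmui : |mu⁻¹| < 1 := by rw [abs_inv]; exact inv_lt_one_of_one_lt₀ hmu
  have hmui0 : 0 < |mu⁻¹| := by rw [abs_inv]; positivity
  obtain ⟨lam, hlam⟩ : ∃ lam : ℝ, lam = (1 + |mu⁻¹|) / 2 := ⟨_, rfl⟩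
  have hlam0 : 0 < lam := by rw [hlam]; positivity
  have hlam1 : lam < 1 := by rw [hlam]; linarith
  have hlammu : lam⁻¹ < |mu| := by
    rw [inv_lt_comm₀ hlam0 (by linarith), ← abs_inv]
    rw [hlam]; linarith
  obtain ⟨κ, hκ0, hκ1, hκ2⟩ : ∃ κ : ℝ, 0 < κ ∧ κ ≤ |mu| - lam⁻¹ ∧ κ ≤ lam - |mu⁻¹| :=
    ⟨min (|mu| - lam⁻¹) (lam - |mu⁻¹|), lt_min (by linarith) (by rw [hlam]; linarith),
      min_le_left _ _, min_le_right _ _⟩
  obtain ⟨s, hs0, hsκ⟩ : ∃ s : ℝ, 0 < s ∧ 2 * s * K1 * K2 ≤ κ := by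
    refine ⟨κ / (4 * (K1 + 1) * (K2 + 1)), by positivity, ?_⟩
    have : 2 * (κ / (4 * (K1 + 1) * (K2 + 1))) * K1 * K2 =
        κ * (K1 * K2 / (2 * (K1 + 1) * (K2 + 1))) := by field_simp; ring
    rw [this]
    have h1 : K1 * K2 / (2 * (K1 + 1) * (K2 + 1)) ≤ 1 := by
      rw [div_le_one (by positivity)]
      nlinarith
    nlinarith
  refine ⟨s, lam, K2 * (K1 + 1), hs0, hlam0, hlam1, by positivity, ?_⟩
  intro h X Y M hstep hM
  have hM0 : 0 ≤ M := (abs_nonneg _).trans (hM 0 (by omega)).1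
  have hbnd : ∀ p q : ℝ, |p| + |q| ≤ K1 → ∀ j, j ≤ 2 * h → |p * X j + q * Y j| ≤ (K1 + 1) * M := by
    intro p q hpq j hj
    obtain ⟨g1, g2⟩ := hM j hj
    refine (abs_add_le _ _).trans ?_
    rw [abs_mul, abs_mul]
    have k1 : |p| * |X j| ≤ |p| * M := mul_le_mul_of_nonneg_left g1 (abs_nonneg _)
    have k2 : |q| * |Y j| ≤ |q| * M := mul_le_mul_of_nonneg_left g2 (abs_nonneg _)
    have k3 : (|p| + |q|) * M ≤ K1 * M := mul_le_mul_of_nonneg_right hpq hM0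
    linarith
  have n1 := abs_nonneg p1
  have n2 := abs_nonneg q1
  have n3 := abs_nonneg p2
  have n4 := abs_nonneg q2
  have hpq1 : |p1| + |q1| ≤ K1 := by linarith
  have hpq2 : |p2| + |q2| ≤ K1 := by linarith
  have hinvc : ∀ j, |X j| ≤ K2 * max |p1 * X j + q1 * Y j| |p2 * X j + q2 * Y j| ∧
      |Y j| ≤ K2 * max |p1 * X j + q1 * Y j| |p2 * X j + q2 * Y j| := by
    intro j
    rw [← hK2]
    exact coord_inv hD hK1 (le_max_left _ _) (le_max_right _ _)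
  have hdyn := hyp_dyn (α := fun j => p1 * X j + q1 * Y j) (β := fun j => p2 * X j + q2 * Y j)
    (mu := mu) (κ := κ) (lam := lam) (C := (K1 + 1) * M)
    (h := h) hlam0 hlam1 (by linarith) (by linarith)
    (by
      intro j hj
      obtain ⟨b00, b01, b10, b11, h00, h01, h10, h11, hB1, hB2⟩ := hstep j hj
      obtain ⟨g1, g2⟩ := hinvc j
      have := step_err hpq1 hK2p.le g1 g2 ((abs_nonneg _).trans (le_max_left _ _)) hs0.le hsκ
        h00 h01 h10 h11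
      refine le_trans (le_of_eq ?_) this
      congr 1
      rw [hB1, hB2]
      linear_combination X j * e1 + Y j * e2)
    (by
      intro j hj
      obtain ⟨b00, b01, b10, b11, h00, h01, h10, h11, hB1, hB2⟩ := hstep j hj
      obtain ⟨g1, g2⟩ := hinvc j
      have := step_err hpq2 hK2p.le g1 g2 ((abs_nonneg _).trans (le_max_left _ _)) hs0.le hsκ
        h00 h01 h10 h11
      refine le_trans (le_of_eq ?_) this
      congr 1
      rw [hB1, hB2]
      linear_combination X j * f1 + Y j * f2)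
    (hbnd p2 q2 hpq2 0 (by omega)) (hbnd p1 q1 hpq1 (2 * h) le_rfl)
  obtain ⟨g1, g2⟩ := hinvc h
  have hmax := max_le hdyn.1 hdyn.2
  have hfin := mul_le_mul_of_nonneg_left hmax hK2p.le
  have e : K2 * ((K1 + 1) * M * lam ^ h) = K2 * (K1 + 1) * lam ^ h * M := by ring
  rw [e] at hfin
  exact ⟨g1.trans hfin, g2.trans hfin⟩

/-- a solution on a long block which is close to a periodic hyperbolic word is small in the
middle of the block -/
lemma block_decay {N : ℕ} {w : ℤ → ℝ} {E0 : ℝ} (hw : ∀ x, w (x + N) = w x)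
    (htr : 2 < |Tm E0 w 0 N 0 0 + Tm E0 w 0 N 1 1|) :
    ∃ r lam C : ℝ, 0 < r ∧ 0 < lam ∧ lam < 1 ∧ 0 < C ∧
      ∀ (h : ℕ) (E : ℝ) (v φ : ℤ → ℝ) (a : ℤ) (M : ℝ), |E - E0| ≤ r →
        (∀ x : ℤ, 0 ≤ x → x < 2 * h * N → |v (a + x) - w x| ≤ r) →
        (∀ x, a ≤ x → x < a + 2 * h * N → Hm v φ x = E * φ x) →
        (∀ x, a - 1 ≤ x → x ≤ a + 2 * h * N → |φ x| ≤ M) →
        |φ (a + h * N)| ≤ C * lam ^ h * M ∧ |φ (a + h * N - 1)| ≤ C * lam ^ h * M := by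
  have hdet : Tm E0 w 0 N 0 0 * Tm E0 w 0 N 1 1 - Tm E0 w 0 N 0 1 * Tm E0 w 0 N 1 0 = 1 := by
    rw [← Matrix.det_fin_two]; exact Tm_det _ _ _ _
  obtain ⟨s, lam, C, hs, hlam0, hlam1, hC, hdec⟩ := seq_decay hdet htr
  obtain ⟨r, hr, hcont⟩ := Tm_cont N w E0 s hs
  refine ⟨r, lam, C, hr, hlam0, hlam1, hC, ?_⟩
  intro h E v φ a M hE hv hφ hM
  have hwper : ∀ (j : ℕ) (x : ℤ), w (j * N + x) = w x := by
    intro j x
    have hp : Function.Periodic w (N : ℤ) := hw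
    have := hp.nat_mul j x
    rw [← this]
    congr 1
    push_cast
    ring
  refine hdec h (fun j => φ (a + j * N)) (fun j => φ (a + j * N - 1)) M ?_ ?_
  · intro j hj
    have hjN : ((j : ℤ) + 1) * N ≤ 2 * h * N := by
      have : (j : ℤ) + 1 ≤ 2 * h := by omega
      exact mul_le_mul_of_nonneg_right this (by omega)
    have hjN0 : (0 : ℤ) ≤ j * N := by positivity
    have hc := hcont E v (a + j * N) hE (fun x hx => by
      have hx' : (x : ℤ) < N := by exact_mod_cast hx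
      have h3 := hv (j * N + x) (by omega) (by linarith)
      rw [hwper, ← add_assoc] at h3
      exact h3)
    obtain ⟨t1, t2⟩ := Tm_sol (E := E) (v := v) (φ := φ) (a := a + j * N) (n := N)
      (fun x hx1 hx2 => hφ x (by omega) (by linarith))
    have e : a + (j : ℤ) * N + N = a + ((j + 1 : ℕ) : ℤ) * N := by push_cast; ring
    rw [e] at t1 t2
    exact ⟨_, _, _, _, hc 0 0, hc 0 1, hc 1 0, hc 1 1, t1, t2⟩
  · intro j hj
    have hjN : (j : ℤ) * N ≤ 2 * h * N := by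
      have : (j : ℤ) ≤ 2 * h := by exact_mod_cast hj
      exact mul_le_mul_of_nonneg_right this (by omega)
    have hjN0 : (0 : ℤ) ≤ j * N := by positivity
    exact ⟨hM _ (by omega) (by omega), hM _ (by omega) (by omega)⟩

end Pool.Agent.Helper5K9.LP
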