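import Mathlib

set_option autoImplicit false

/-! The symmetric local lemma in counting form. -/

namespace Pool.Agent.Helper5K9.LP

open Finset

open Classical in
theorem lll_step {α ι : Type} (Ω : Finset α) (E : ι → α → Prop) (S : Finset ι)
    (nb : ι → Finset ι) (D : ℕ) (q : ℝ) (hq : 0 ≤ q) (hDq : 4 * D * q ≤ 1)
    (hnb : ∀ i ∈ S, (nb i).card ≤ D)
    (hind : ∀ i ∈ S, ∀ T ⊆ S, (∀ j ∈ T, j ∉ nb i) →
      ((Ω.filter fun x => E i x ∧ ∀ j ∈ T, ¬ E j x).card : ℝ) ≤
        q * (Ω.filter fun x => ∀ j ∈ T, ¬ E j x).card) :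
    ∀ (n : ℕ) (T : Finset ι), T.card = n → T ⊆ S → ∀ i ∈ S,
      ((Ω.filter fun x => E i x ∧ ∀ j ∈ T, ¬ E j x).card : ℝ) ≤
        2 * q * (Ω.filter fun x => ∀ j ∈ T, ¬ E j x).card := by
  intro n
  induction n using Nat.strong_induction_on with
  | _ n ih =>
    intro T hTn hTS i hi
    set S1 : Finset ι := T.filter (fun j => j ∈ nb i) with hS1
    set S2 : Finset ι := T.filter (fun j => j ∉ nb i) with hS2
    have hS2S : S2 ⊆ S := (Finset.filter_subset _ _).trans hTS
    have hcard : S1.card + S2.card = T.card := Finset.card_filter_add_card_filter_not _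
    have hG0 : (0 : ℝ) ≤ ((Ω.filter fun x => ∀ j ∈ T, ¬ E j x).card : ℝ) := Nat.cast_nonneg _
    by_cases hemp : S1 = ∅
    · have h1 : ∀ j ∈ T, j ∉ nb i := by
        intro j hj hjn
        have : j ∈ S1 := Finset.mem_filter.2 ⟨hj, hjn⟩
        rw [hemp] at this
        exact absurd this (Finset.notMem_empty j)
      have h2 := hind i hi T hTS h1
      nlinarith
    · have hpos : 0 < S1.card := Finset.card_pos.2 (Finset.nonempty_iff_ne_empty.2 hemp)
      have hlt : S2.card < n := by omega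
      have h1 : ((Ω.filter fun x => E i x ∧ ∀ j ∈ T, ¬ E j x).card : ℝ) ≤
          ((Ω.filter fun x => E i x ∧ ∀ j ∈ S2, ¬ E j x).card : ℝ) := by
        have hsub : (Ω.filter fun x => E i x ∧ ∀ j ∈ T, ¬ E j x) ⊆
            (Ω.filter fun x => E i x ∧ ∀ j ∈ S2, ¬ E j x) := by
          intro x hx
          rw [Finset.mem_filter] at hx ⊢
          exact ⟨hx.1, hx.2.1, fun j hj => hx.2.2 j (Finset.mem_of_mem_filter j hj)⟩
        exact_mod_cast Finset.card_le_card hsub
      have h2 := hind i hi S2 hS2S (fun j hj => (Finset.mem_filter.1 hj).2)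
      -- union bound
      have h3 : (Ω.filter fun x => ∀ j ∈ S2, ¬ E j x) ⊆
          (Ω.filter fun x => ∀ j ∈ T, ¬ E j x) ∪
            S1.biUnion (fun j => Ω.filter fun x => E j x ∧ ∀ k ∈ S2, ¬ E k x) := by
        intro x hx
        rw [Finset.mem_filter] at hx
        by_cases hall : ∀ j ∈ T, ¬ E j x
        · exact Finset.mem_union_left _ (Finset.mem_filter.2 ⟨hx.1, hall⟩)
        · push Not at hall
          obtain ⟨j, hjT, hjE⟩ := hall
          refine Finset.mem_union_right _ (Finset.mem_biUnion.2 ⟨j, ?_, ?_⟩)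
          · refine Finset.mem_filter.2 ⟨hjT, ?_⟩
            by_contra hcon
            exact hx.2 j (Finset.mem_filter.2 ⟨hjT, hcon⟩) hjE
          · exact Finset.mem_filter.2 ⟨hx.1, hjE, hx.2⟩
      have h4 : ((Ω.filter fun x => ∀ j ∈ S2, ¬ E j x).card : ℝ) ≤
          ((Ω.filter fun x => ∀ j ∈ T, ¬ E j x).card : ℝ) +
            ∑ j ∈ S1, ((Ω.filter fun x => E j x ∧ ∀ k ∈ S2, ¬ E k x).card : ℝ) := by
        have := (Finset.card_le_card h3).trans (Finset.card_union_le _ _)
        have h5 := Finset.card_biUnion_le (s := S1)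
          (t := fun j => Ω.filter fun x => E j x ∧ ∀ k ∈ S2, ¬ E k x)
        exact_mod_cast this.trans (Nat.add_le_add_left h5 _)
      have h5 : ∑ j ∈ S1, ((Ω.filter fun x => E j x ∧ ∀ k ∈ S2, ¬ E k x).card : ℝ) ≤
          S1.card * (2 * q * ((Ω.filter fun x => ∀ j ∈ S2, ¬ E j x).card : ℝ)) := by
        rw [← nsmul_eq_mul]
        refine Finset.sum_le_card_nsmul _ _ _ fun j hj => ?_
        exact ih S2.card hlt S2 rfl hS2S j (hTS (Finset.mem_of_mem_filter j hj))
      have hS1D : (S1.card : ℝ) ≤ D := by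
        have h6 : S1 ⊆ nb i := fun j hj => (Finset.mem_filter.1 hj).2
        exact_mod_cast (Finset.card_le_card h6).trans (hnb i hi)
      set g2 : ℝ := ((Ω.filter fun x => ∀ j ∈ S2, ¬ E j x).card : ℝ) with hg2
      have hg20 : 0 ≤ g2 := Nat.cast_nonneg _
      have h6 : (S1.card : ℝ) * (2 * q * g2) ≤ g2 / 2 := by
        have h7 : (S1.card : ℝ) * (2 * q * g2) ≤ D * (2 * q * g2) :=
          mul_le_mul_of_nonneg_right hS1D (by positivity)
        nlinarith
      have h7 : g2 ≤ 2 * ((Ω.filter fun x => ∀ j ∈ T, ¬ E j x).card : ℝ) := by linarith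
      calc ((Ω.filter fun x => E i x ∧ ∀ j ∈ T, ¬ E j x).card : ℝ) ≤ q * g2 := h1.trans h2
        _ ≤ q * (2 * ((Ω.filter fun x => ∀ j ∈ T, ¬ E j x).card : ℝ)) :=
            mul_le_mul_of_nonneg_left h7 hq
        _ = _ := by ring

open Classical in
/-- LLL: symmetric local lemma, counting form, with the lower bound for the probability. -/
theorem lll {α ι : Type} (Ω : Finset α) (E : ι → α → Prop) (S : Finset ι) (nb : ι → Finset ι)
    (D : ℕ) (q : ℝ) (hq : 0 ≤ q) (hDq : 4 * D * q ≤ 1) (hq2 : 2 * q ≤ 1)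
    (hnb : ∀ i ∈ S, (nb i).card ≤ D)
    (hind : ∀ i ∈ S, ∀ T ⊆ S, (∀ j ∈ T, j ∉ nb i) →
      ((Ω.filter fun x => E i x ∧ ∀ j ∈ T, ¬ E j x).card : ℝ) ≤
        q * (Ω.filter fun x => ∀ j ∈ T, ¬ E j x).card) :
    (1 - 2 * q) ^ S.card * (Ω.card : ℝ) ≤ (Ω.filter fun x => ∀ j ∈ S, ¬ E j x).card := by
  have key : ∀ T : Finset ι, T ⊆ S → (1 - 2 * q) ^ T.card * (Ω.card : ℝ) ≤
      (Ω.filter fun x => ∀ j ∈ T, ¬ E j x).card := by
    intro T
    induction T using Finset.induction_on with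
    | empty => intro _; simp
    | insert i T hiT ih =>
      intro hT
      have hTS : T ⊆ S := (Finset.subset_insert _ _).trans hT
      have hi : i ∈ S := hT (Finset.mem_insert_self _ _)
      have h1 := ih hTS
      have h2 := lll_step Ω E S nb D q hq hDq hnb hind T.card T rfl hTS i hi
      have h3 : (Ω.filter fun x => ∀ j ∈ T, ¬ E j x).card =
          (Ω.filter fun x => E i x ∧ ∀ j ∈ T, ¬ E j x).card +
            (Ω.filter fun x => ∀ j ∈ insert i T, ¬ E j x).card := by
        rw [← Finset.card_filter_add_card_filter_not (s := Ω.filter fun x => ∀ j ∈ T, ¬ E j x)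
          (fun x => E i x)]
        congr 2
        · ext x
          simp only [Finset.mem_filter]
          tauto
        · ext x
          simp only [Finset.mem_filter, Finset.mem_insert, forall_eq_or_imp]
          tauto
      have h3' : ((Ω.filter fun x => ∀ j ∈ T, ¬ E j x).card : ℝ) =
          ((Ω.filter fun x => E i x ∧ ∀ j ∈ T, ¬ E j x).card : ℝ) +
            ((Ω.filter fun x => ∀ j ∈ insert i T, ¬ E j x).card : ℝ) := by exact_mod_cast h3
      rw [Finset.card_insert_of_notMem hiT, pow_succ]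
      have h4 : 0 ≤ 1 - 2 * q := by linarith
      calc (1 - 2 * q) ^ T.card * (1 - 2 * q) * (Ω.card : ℝ) =
            (1 - 2 * q) * ((1 - 2 * q) ^ T.card * (Ω.card : ℝ)) := by ring
        _ ≤ (1 - 2 * q) * ((Ω.filter fun x => ∀ j ∈ T, ¬ E j x).card : ℝ) :=
            mul_le_mul_of_nonneg_left h1 h4
        _ ≤ _ := by linarith
  exact key S (Finset.Subset.refl _)

end Pool.Agent.Helper5K9.LP
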