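import Pool.Agent.Helper5K9.LP.Compl

set_option autoImplicit false

/-!
Localisation of the eigenfunctions of finite boxes and completeness.
-/

namespace Pool.Agent.Helper5K9.LP

open Finset

/-- the scales -/
structure Hyp (V : ℤ → ℝ) (l : ℕ → ℤ) (δ η : ℕ → ℝ) : Prop where
  l0 : 2 ≤ l 0
  lS : ∀ i, l (i + 1) = 61 * l i
  δpos : ∀ i, 0 < δ i
  δle : ∀ i, δ i ≤ 1
  ηpos : ∀ i, 0 < η i
  δη : ∀ i, 4 * δ i ≤ η i ^ 2
  δS : ∀ i, δ (i + 1) = δ i ^ 2
  nr : ∀ i, NR V (η i) (244 * l i)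
  sb0 : SB V (l 0) (δ 0)
  sm : ∀ i, δ i * (12 * l (i + 1) + 2) ≤ (1 / 8) * (1 / 2) ^ i

variable {V : ℤ → ℝ} {l : ℕ → ℤ} {δ η : ℕ → ℝ}

lemma Hyp.l2 (h : Hyp V l δ η) (i : ℕ) : 2 ≤ l i := by
  induction i with
  | zero => exact h.l0
  | succ i ih => rw [h.lS]; omega

lemma Hyp.lge (h : Hyp V l δ η) (i : ℕ) : (i : ℤ) ≤ l i := by
  induction i with
  | zero => have := h.l0; push_cast; omega
  | succ i ih => have := h.l2 i; rw [h.lS]; push_cast; omega

lemma Hyp.sb (h : Hyp V l δ η) (i : ℕ) : SB V (l i) (δ i) := by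
  induction i with
  | zero => exact h.sb0
  | succ i ih =>
    rw [h.lS, h.δS]
    have := h.l2 i
    exact SB_step ih (h.nr i) (h.ηpos i) (h.δpos i) (h.l2 i) (by omega) (h.δη i)

lemma Hyp.anti (h : Hyp V l δ η) {i j : ℕ} (hij : i ≤ j) : δ j ≤ δ i := by
  induction hij with
  | refl => exact le_refl _
  | step _ ih =>
    rename_i m _
    refine le_trans ?_ ih
    rw [h.δS]
    have h1 := h.δpos m
    have h2 := h.δle m
    nlinarith

lemma Hyp.lmono (h : Hyp V l δ η) {i j : ℕ} (hij : i ≤ j) : l i ≤ l j := by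
  induction hij with
  | refl => exact le_refl _
  | step _ ih =>
    rename_i m _
    rw [h.lS]
    have := h.l2 m
    omega

/-- a normalised eigenfunction of the box `[c - n, c + n]` -/
structure EF (V : ℤ → ℝ) (c : ℤ) (n : ℕ) (E : ℝ) (φ : ℤ → ℝ) : Prop where
  out : ∀ x, ¬ (c - n ≤ x ∧ x ≤ c + n) → φ x = 0
  eq : ∀ x, c - n ≤ x → x ≤ c + n → Hm V φ x = E * φ x
  nm : ∑ x ∈ Icc (c - n) (c + n), φ x ^ 2 = 1

variable {c : ℤ} {n : ℕ} {E : ℝ} {φ : ℤ → ℝ}

lemma EF.sum_le (e : EF V c n E φ) (F : Finset ℤ) : ∑ x ∈ F, φ x ^ 2 ≤ 1 := by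
  rw [← e.nm]
  have h1 : ∑ x ∈ F, φ x ^ 2 = ∑ x ∈ F.filter (fun x => c - n ≤ x ∧ x ≤ c + n), φ x ^ 2 := by
    rw [sum_filter]
    refine sum_congr rfl fun x _ => ?_
    split_ifs with hx
    · rfl
    · rw [e.out x hx]; norm_num
  rw [h1]
  refine sum_le_sum_of_subset_of_nonneg ?_ fun _ _ _ => sq_nonneg _
  intro x hx
  rw [mem_filter] at hx
  exact mem_Icc.2 hx.2

lemma EF.abs_le (e : EF V c n E φ) (x : ℤ) : |φ x| ≤ 1 := by
  have := e.sum_le {x}
  rw [sum_singleton] at this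
  exact abs_le_one_iff_mul_self_le_one.2 (by nlinarith)

lemma sum_union_le' (s t : Finset ℤ) (f : ℤ → ℝ) (hf : ∀ x, 0 ≤ f x) :
    ∑ x ∈ s ∪ t, f x ≤ ∑ x ∈ s, f x + ∑ x ∈ t, f x := by
  rw [← sum_union_inter]
  have : 0 ≤ ∑ x ∈ s ∩ t, f x := sum_nonneg fun x _ => hf x
  linarith

/-- masses -/
noncomputable def Ms (φ : ℤ → ℝ) (c r : ℤ) : ℝ := ∑ x ∈ Icc (c - r) (c + r), φ x ^ 2

lemma Ms_mono (φ : ℤ → ℝ) (c : ℤ) {r s : ℤ} (h : r ≤ s) : Ms φ c r ≤ Ms φ c s := by
  unfold Ms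
  refine sum_le_sum_of_subset_of_nonneg ?_ fun _ _ _ => sq_nonneg _
  intro x hx
  rw [mem_Icc] at hx ⊢
  omega

lemma EF.Ms_one (e : EF V c n E φ) {r : ℤ} (h : n ≤ r) : Ms φ c r = 1 := by
  refine le_antisymm (e.sum_le _) ?_
  rw [← e.nm]
  exact Ms_mono φ c h

lemma mass_big {δ η : ℝ} (hη : 0 < η) (hδ : 0 < δ) (h : 4 * δ ≤ η ^ 2) :
    (2 * (δ * 1) / η) ^ 2 ≤ δ := by
  rw [div_pow, div_le_iff₀ (by positivity)]
  nlinarith

lemma annulus_pos (h : Hyp V l δ η) (e : EF V c n E φ) (i : ℕ) (hM : δ i < Ms φ c (2 * l i)) :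
    ∑ x ∈ Icc (c + 3 * l i) (c + 3 * l (i + 1)), φ x ^ 2 ≤ δ i := by
  have hl := h.l2 i
  have hS := h.lS i
  by_contra hcon
  rw [not_le] at hcon
  have hn : 3 * l i ≤ n := by
    by_contra hn
    rw [not_le] at hn
    rw [sum_eq_zero] at hcon
    · exact absurd (h.δpos i) (not_lt.2 hcon.le)
    · intro x hx
      rw [mem_Icc] at hx
      rw [e.out x (by omega)]
      norm_num
  obtain ⟨xp, h11, h12, h13, h14⟩ := h.sb i E (c + 2 * l i) φ 1
    (fun x h1 h2 => e.eq x (by omega) (by omega)) (fun x _ _ => e.abs_le x)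
  obtain ⟨xm, h21, h22, h23, h24⟩ := h.sb i E (c - 3 * l i) φ 1
    (fun x h1 h2 => e.eq x (by omega) (by omega)) (fun x _ _ => e.abs_le x)
  have hd : 0 ≤ δ i * 1 := by have := h.δpos i; linarith
  obtain ⟨yp, hy1, hy2, hy3, hy4⟩ : ∃ yp, xp < yp ∧ yp < c + 184 * l i ∧ yp ≤ c + n ∧
      (c + 183 * l i ≤ yp ∨ yp = c + n) ∧ |φ (yp + 1)| ≤ δ i * 1 := by
    by_cases hc : c + 184 * l i - 1 ≤ c + n
    · obtain ⟨y, g1, g2, g3, g4⟩ := h.sb i E (c + 183 * l i) φ 1
        (fun x h1 h2 => e.eq x (by omega) (by omega)) (fun x _ _ => e.abs_le x)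
      exact ⟨y, by omega, by omega, by omega, Or.inl g1, g4⟩
    · refine ⟨c + n, by omega, by omega, le_refl _, Or.inr rfl, ?_⟩
      rw [e.out (c + n + 1) (by omega), abs_zero]
      exact hd
  have hbig := mass_big (h.ηpos i) (h.δpos i) (h.δη i)
  refine h.nr i (xm + 1) xp yp (by omega) hy1 (by omega) E ⟨?_, ?_⟩
  · have hmass : δ i < ∑ x ∈ Icc (xm + 1) xp, φ x ^ 2 := by
      refine hM.trans_le ?_
      unfold Ms
      refine sum_le_sum_of_subset_of_nonneg ?_ fun _ _ _ => sq_nonneg _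
      intro x hx
      rw [mem_Icc] at hx ⊢
      omega
    refine res_of_cut (φ := φ) (d := δ i * 1) (by omega) (h.ηpos i)
      (fun x h1 h2 => e.eq x (by omega) (by omega)) ?_ h14 rfl ((h.δpos i).trans hmass)
      (hbig.trans hmass.le)
    rw [add_sub_cancel_right]; exact h23
  · have hmass : δ i < ∑ x ∈ Icc (xp + 1) yp, φ x ^ 2 := by
      refine hcon.trans_le ?_
      have h1 : ∑ x ∈ Icc (c + 3 * l i) (c + 3 * l (i + 1)), φ x ^ 2 =
          ∑ x ∈ (Icc (c + 3 * l i) (c + 3 * l (i + 1))).filter (fun x => x ≤ c + n), φ x ^ 2 := by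
        rw [sum_filter]
        refine sum_congr rfl fun x _ => ?_
        split_ifs with hx
        · rfl
        · rw [e.out x (by omega)]; norm_num
      rw [h1]
      refine sum_le_sum_of_subset_of_nonneg ?_ fun _ _ _ => sq_nonneg _
      intro x hx
      rw [mem_filter, mem_Icc] at hx
      rw [mem_Icc]
      have := hy4.1
      omega
    refine res_of_cut (φ := φ) (d := δ i * 1) (by omega) (h.ηpos i)
      (fun x h1 h2 => e.eq x (by omega) (by omega)) ?_ hy4.2 rfl ((h.δpos i).trans hmass)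
      (hbig.trans hmass.le)
    rw [add_sub_cancel_right]; exact h13

lemma annulus_neg (h : Hyp V l δ η) (e : EF V c n E φ) (i : ℕ) (hM : δ i < Ms φ c (2 * l i)) :
    ∑ x ∈ Icc (c - 3 * l (i + 1)) (c - 3 * l i), φ x ^ 2 ≤ δ i := by
  have hl := h.l2 i
  have hS := h.lS i
  by_contra hcon
  rw [not_le] at hcon
  have hn : 3 * l i ≤ n := by
    by_contra hn
    rw [not_le] at hn
    rw [sum_eq_zero] at hcon
    · exact absurd (h.δpos i) (not_lt.2 hcon.le)
    · intro x hx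
      rw [mem_Icc] at hx
      rw [e.out x (by omega)]
      norm_num
  obtain ⟨xp, h11, h12, h13, h14⟩ := h.sb i E (c + 2 * l i) φ 1
    (fun x h1 h2 => e.eq x (by omega) (by omega)) (fun x _ _ => e.abs_le x)
  obtain ⟨xm, h21, h22, h23, h24⟩ := h.sb i E (c - 3 * l i) φ 1
    (fun x h1 h2 => e.eq x (by omega) (by omega)) (fun x _ _ => e.abs_le x)
  have hd : 0 ≤ δ i * 1 := by have := h.δpos i; linarith
  obtain ⟨ym, hy1, hy2, hy3, hy4⟩ : ∃ ym, ym < xm ∧ c - 184 * l i ≤ ym ∧ c - n - 1 ≤ ym ∧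
      (ym + 1 < c - 183 * l i ∨ ym = c - n - 1) ∧ |φ ym| ≤ δ i * 1 := by
    by_cases hc : c - n ≤ c - 184 * l i
    · obtain ⟨y, g1, g2, g3, g4⟩ := h.sb i E (c - 184 * l i) φ 1
        (fun x h1 h2 => e.eq x (by omega) (by omega)) (fun x _ _ => e.abs_le x)
      exact ⟨y, by omega, by omega, by omega, Or.inl (by omega), g3⟩
    · refine ⟨c - n - 1, by omega, by omega, le_refl _, Or.inr rfl, ?_⟩
      rw [e.out (c - n - 1) (by omega), abs_zero]
      exact hd
  have hbig := mass_big (h.ηpos i) (h.δpos i) (h.δη i)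
  refine h.nr i (ym + 1) xm xp (by omega) (by omega) (by omega) E ⟨?_, ?_⟩
  · have hmass : δ i < ∑ x ∈ Icc (ym + 1) xm, φ x ^ 2 := by
      refine hcon.trans_le ?_
      have h1 : ∑ x ∈ Icc (c - 3 * l (i + 1)) (c - 3 * l i), φ x ^ 2 =
          ∑ x ∈ (Icc (c - 3 * l (i + 1)) (c - 3 * l i)).filter (fun x => c - n ≤ x), φ x ^ 2 := by
        rw [sum_filter]
        refine sum_congr rfl fun x _ => ?_
        split_ifs with hx
        · rfl
        · rw [e.out x (by omega)]; norm_num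
      rw [h1]
      refine sum_le_sum_of_subset_of_nonneg ?_ fun _ _ _ => sq_nonneg _
      intro x hx
      rw [mem_filter, mem_Icc] at hx
      rw [mem_Icc]
      have := hy4.1
      omega
    refine res_of_cut (φ := φ) (d := δ i * 1) (by omega) (h.ηpos i)
      (fun x h1 h2 => e.eq x (by omega) (by omega)) ?_ h24 rfl ((h.δpos i).trans hmass)
      (hbig.trans hmass.le)
    rw [add_sub_cancel_right]; exact hy4.2
  · have hmass : δ i < ∑ x ∈ Icc (xm + 1) xp, φ x ^ 2 := by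
      refine hM.trans_le ?_
      unfold Ms
      refine sum_le_sum_of_subset_of_nonneg ?_ fun _ _ _ => sq_nonneg _
      intro x hx
      rw [mem_Icc] at hx ⊢
      omega
    refine res_of_cut (φ := φ) (d := δ i * 1) (by omega) (h.ηpos i)
      (fun x h1 h2 => e.eq x (by omega) (by omega)) ?_ h14 rfl ((h.δpos i).trans hmass)
      (hbig.trans hmass.le)
    rw [add_sub_cancel_right]; exact h23

lemma conc_aux (h : Hyp V l δ η) (e : EF V c n E φ) (i : ℕ) (hM : δ i < Ms φ c (2 * l i))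
    (I : ℕ) (hI : i ≤ I) :
    Ms φ c (3 * l I) ≤ Ms φ c (3 * l i) + ∑ j ∈ Ico i I, 2 * δ j := by
  induction hI with
  | refl => simp
  | step hm ih =>
    rename_i m
    have hm' : i ≤ m := hm
    rw [sum_Ico_succ_top hm', ← add_assoc]
    refine le_trans ?_ (add_le_add_left ih _)
    have hMm : δ m < Ms φ c (2 * l m) :=
      (h.anti hm').trans_lt (hM.trans_le (Ms_mono φ c (by have := h.lmono hm'; omega)))
    have hp := annulus_pos h e m hMm
    have hq := annulus_neg h e m hMm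
    have hl := h.l2 m
    have hS := h.lS m
    have hsub : Icc (c - 3 * l (m + 1)) (c + 3 * l (m + 1)) ⊆
        Icc (c - 3 * l m) (c + 3 * l m) ∪ (Icc (c + 3 * l m) (c + 3 * l (m + 1)) ∪
          Icc (c - 3 * l (m + 1)) (c - 3 * l m)) := by
      intro x hx
      simp only [mem_union, mem_Icc] at hx ⊢
      omega
    have h1 : Ms φ c (3 * l (m + 1)) ≤ Ms φ c (3 * l m) +
        (∑ x ∈ Icc (c + 3 * l m) (c + 3 * l (m + 1)), φ x ^ 2 +
          ∑ x ∈ Icc (c - 3 * l (m + 1)) (c - 3 * l m), φ x ^ 2) := by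
      unfold Ms
      refine (sum_le_sum_of_subset_of_nonneg hsub fun _ _ _ => sq_nonneg _).trans ?_
      refine (sum_union_le' _ _ (fun x => φ x ^ 2) fun _ => sq_nonneg _).trans ?_
      have := sum_union_le' (Icc (c + 3 * l m) (c + 3 * l (m + 1)))
        (Icc (c - 3 * l (m + 1)) (c - 3 * l m)) (fun x => φ x ^ 2) fun _ => sq_nonneg _
      linarith
    linarith

lemma geo_sum (i I : ℕ) : ∑ j ∈ Ico i I, (1 / 2 : ℝ) ^ j ≤ 2 * (1 / 2) ^ i := by
  rcases le_total I i with h | h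
  · rw [Ico_eq_empty (by omega)]
    simp
  · have : ∀ I, i ≤ I → ∑ j ∈ Ico i I, (1 / 2 : ℝ) ^ j = 2 * (1 / 2) ^ i - 2 * (1 / 2) ^ I := by
      intro I hI
      induction hI with
      | refl => simp
      | step hm ih =>
        rename_i m
        have hm' : i ≤ m := hm
        rw [sum_Ico_succ_top hm', ih, pow_succ]
        ring
    rw [this I h]
    have : (0 : ℝ) < (1 / 2) ^ I := by positivity
    linarith

lemma Hyp.sm' (h : Hyp V l δ η) (i : ℕ) : 2 * δ i * (6 * l (i + 1) + 1) ≤ (1 / 8) * (1 / 2) ^ i := by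
  have := h.sm i
  have e : 2 * δ i * (6 * (l (i + 1) : ℝ) + 1) = δ i * (12 * l (i + 1) + 2) := by ring
  rw [e]
  exact this

lemma conc (h : Hyp V l δ η) (e : EF V c n E φ) (i : ℕ) (hM : δ i < Ms φ c (2 * l i)) :
    1 / 2 ≤ Ms φ c (3 * l i) := by
  set I := max i n with hI
  have h1 := conc_aux h e i hM I (le_max_left _ _)
  have h2 : Ms φ c (3 * l I) = 1 := by
    apply e.Ms_one
    have g1 := h.lge I
    have g2 : n ≤ I := le_max_right _ _
    have g3 := h.l2 I
    omega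
  rw [h2] at h1
  have h3 : ∑ j ∈ Ico i I, 2 * δ j ≤ (1 / 8 : ℝ) * ∑ j ∈ Ico i I, (1 / 2) ^ j := by
    rw [mul_sum]
    refine sum_le_sum fun j _ => ?_
    have g1 := h.sm' j
    have g2 := h.δpos j
    have g3 : (0 : ℝ) ≤ l (j + 1) := by
      have := h.l2 (j + 1)
      exact_mod_cast (by omega : (0 : ℤ) ≤ l (j + 1))
    nlinarith
  have h4 := geo_sum i I
  have h5 : (1 / 2 : ℝ) ^ i ≤ 1 := pow_le_one₀ (by norm_num) (by norm_num)
  linarith

lemma center_bound (h : Hyp V l δ η) (e : EF V c n E φ) (i : ℕ)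
    (hM : ¬ δ i < Ms φ c (2 * l i)) :
    φ c ^ 2 ≤ ∑ j ∈ Ico i (max i n), 2 * δ j * Ms φ c (3 * l (j + 1)) := by
  have hex : ∃ m, δ (i + m) < Ms φ c (2 * l (i + m)) := by
    refine ⟨max 1 n, ?_⟩
    have g1 := h.lge (i + max 1 n)
    have g2 : n ≤ max 1 n := le_max_right _ _
    have g3 := h.l2 (i + max 1 n)
    rw [e.Ms_one (by push_cast at g1 ⊢; omega)]
    have h2 : 1 ≤ max 1 n := le_max_left _ _
    have h0 : δ (i + max 1 n) ≤ δ (0 + 1) := h.anti (by omega)
    have h1 : δ (0 + 1) < 1 := by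
      rw [h.δS]
      have g4 := h.δpos 0
      have g5 := h.sm 0
      have g6 : (2 : ℝ) ≤ l (0 + 1) := by
        have := h.l2 (0 + 1)
        exact_mod_cast this
      nlinarith
    linarith
  classical
  set m := Nat.find hex with hm
  have hm1 : δ (i + m) < Ms φ c (2 * l (i + m)) := Nat.find_spec hex
  have hm0 : m ≠ 0 := by
    intro h0
    rw [h0] at hm1
    exact hM hm1
  obtain ⟨k, hk⟩ := Nat.exists_eq_succ_of_ne_zero hm0
  have hk1 : ¬ δ (i + k) < Ms φ c (2 * l (i + k)) := Nat.find_min hex (by omega)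
  rw [not_lt] at hk1
  have hc := conc h e (i + m) hm1
  have h1 : φ c ^ 2 ≤ δ (i + k) := by
    refine le_trans ?_ hk1
    unfold Ms
    refine single_le_sum (f := fun x => φ x ^ 2) (fun _ _ => sq_nonneg _) ?_
    have := h.l2 (i + k)
    exact mem_Icc.2 ⟨by omega, by omega⟩
  -- the index is in the range
  have hlt : i + k < max i n := by
    by_contra hcon
    rw [not_lt] at hcon
    have g0 : n ≤ i + k := (le_max_right i n).trans hcon
    have g1 := h.lge (i + k)
    have g3 := h.l2 (i + k)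
    rw [e.Ms_one (by omega)] at hk1
    have h0 : δ (i + k) < 1 := by
      have g4 := h.δpos (i + k)
      have g5 := h.sm (i + k)
      have g6 : (2 : ℝ) ≤ l (i + k + 1) := by
        have := h.l2 (i + k + 1)
        exact_mod_cast this
      have g7 : (1 / 2 : ℝ) ^ (i + k) ≤ 1 := pow_le_one₀ (by norm_num) (by norm_num)
      nlinarith
    linarith
  have hnn : ∀ j ∈ Ico i (max i n), 0 ≤ 2 * δ j * Ms φ c (3 * l (j + 1)) := by
    intro j _
    have g1 := h.δpos j
    have g2 : 0 ≤ Ms φ c (3 * l (j + 1)) := sum_nonneg fun _ _ => sq_nonneg _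
    positivity
  refine le_trans ?_ (single_le_sum hnn (mem_Ico.2 ⟨Nat.le_add_right i k, hlt⟩))
  have e1 : i + k + 1 = i + m := by omega
  rw [e1]
  have g1 := h.δpos (i + k)
  nlinarith

lemma eig_bound {K : ℝ} (hV : ∀ x, |V x| ≤ K) (e : EF V c n E φ) : |E| ≤ K + 2 := by
  obtain ⟨x0, hx0, hmax⟩ := exists_max_image (Icc (c - n) (c + n)) (fun x => |φ x|)
    ⟨c, mem_Icc.2 ⟨by omega, by omega⟩⟩
  have hall : ∀ x, |φ x| ≤ |φ x0| := by
    intro x
    by_cases hx : c - n ≤ x ∧ x ≤ c + n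
    · exact hmax x (mem_Icc.2 hx)
    · rw [e.out x hx, abs_zero]; exact abs_nonneg _
  rw [mem_Icc] at hx0
  have h1 := e.eq x0 hx0.1 hx0.2
  have hpos : 0 < |φ x0| := by
    rcases (abs_nonneg (φ x0)).eq_or_lt with h0 | h0
    · exfalso
      have : ∑ x ∈ Icc (c - n) (c + n), φ x ^ 2 = 0 := by
        refine sum_eq_zero fun x _ => ?_
        have := hall x
        rw [← h0] at this
        have : φ x = 0 := abs_eq_zero.1 (le_antisymm this (abs_nonneg _))
        rw [this]; norm_num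
      rw [e.nm] at this
      norm_num at this
    · exact h0
  have h2 : |E| * |φ x0| ≤ (K + 2) * |φ x0| := by
    rw [← abs_mul, ← h1]
    unfold Hm
    have a1 := abs_add_le (φ (x0 + 1) + φ (x0 - 1)) (V x0 * φ x0)
    have a2 := abs_add_le (φ (x0 + 1)) (φ (x0 - 1))
    have a3 := hall (x0 + 1)
    have a4 := hall (x0 - 1)
    have a5 : |V x0 * φ x0| ≤ K * |φ x0| := by
      rw [abs_mul]
      exact mul_le_mul_of_nonneg_right (hV x0) (abs_nonneg _)
    linarith
  exact le_of_mul_le_mul_right h2 hpos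

/-- the finite volume approximation of `δ_c` -/
lemma approx {K : ℝ} (hV : ∀ x, |V x| ≤ K) (h : Hyp V l δ η) (c : ℤ) (ε : ℝ) (hε : 0 < ε) :
    ∃ r : ℕ, ∀ n : ℕ, ∃ (g : Fin r → ℤ → ℝ) (e : Fin r → ℝ),
      (∀ j, |e j| ≤ K + 2) ∧ (∀ j x, c - n ≤ x → x ≤ c + n → Hm V (g j) x = e j * g j x) ∧
      (∀ j (F : Finset ℤ), ∑ x ∈ F, g j x ^ 2 ≤ 1) ∧
      (∀ F : Finset ℤ, ∑ x ∈ F, ((if x = c then 1 else 0) - ∑ j, g j x) ^ 2 ≤ ε ^ 2) := by
  classical
  have hK : 0 ≤ K := (abs_nonneg _).trans (hV 0)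
  obtain ⟨i, hi⟩ := exists_pow_lt_of_lt_one (show 0 < ε ^ 2 by positivity)
    (show (1 / 2 : ℝ) < 1 by norm_num)
  have hli := h.l2 i
  refine ⟨(12 * l i + 2).toNat, fun n => ?_⟩
  obtain ⟨φ, p1, p2, p3, p4⟩ := box_spectral V (c - n) (2 * n + 1)
  have hb : c - (n : ℤ) + ((2 * n + 1 : ℕ) : ℤ) - 1 = c + n := by push_cast; ring
  rw [hb] at p3
  have hef : ∀ k, EF V c n (eig V (c - n) (2 * n + 1) k) (φ k) := by
    intro k
    refine ⟨fun x hx => p1 k x (by push_cast; omega),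
      fun x h1 h2 => p2 k x h1 (by push_cast; omega), ?_⟩
    have := p3 k k
    rw [if_pos rfl] at this
    rw [← this]
    exact sum_congr rfl fun x _ => sq (φ k x)
  -- sum over all the eigenfunctions
  have htr : ∀ x, ∑ k, φ k x ^ 2 ≤ 1 := by
    intro x
    by_cases hx : c - n ≤ x ∧ x ≤ c + n
    · have := p4 x x hx.1 (by push_cast; omega) hx.1 (by push_cast; omega)
      rw [if_pos rfl] at this
      rw [← this]
      exact (sum_congr rfl fun k _ => sq (φ k x)).le
    · rw [sum_eq_zero]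
      · norm_num
      · intro k _
        rw [(hef k).out x hx]; norm_num
  have hMs : ∀ j : ℕ, ∑ k, Ms (φ k) c (3 * l j) ≤ 6 * l j + 1 := by
    intro j
    have hlj := h.l2 j
    unfold Ms
    rw [sum_comm]
    refine (sum_le_sum fun x _ => htr x).trans ?_
    rw [sum_const, Int.card_Icc, nsmul_eq_mul, mul_one]
    have : ((c + 3 * l j + 1 - (c - 3 * l j)).toNat : ℤ) = 6 * l j + 1 := by
      rw [Int.toNat_of_nonneg (by omega)]; ring
    exact_mod_cast this.le
  set G : Finset (Fin (2 * n + 1)) := univ.filter fun k => δ i < Ms (φ k) c (2 * l i) with hG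
  have hcard : G.card ≤ (12 * l i + 2).toNat := by
    have h1 : ∑ k ∈ G, (1 / 2 : ℝ) ≤ ∑ k ∈ G, Ms (φ k) c (3 * l i) :=
      sum_le_sum fun k hk => conc h (hef k) i (mem_filter.1 hk).2
    have h2 : ∑ k ∈ G, Ms (φ k) c (3 * l i) ≤ ∑ k, Ms (φ k) c (3 * l i) :=
      sum_le_sum_of_subset_of_nonneg (subset_univ _) fun k _ _ =>
        sum_nonneg fun _ _ => sq_nonneg _
    rw [sum_const, nsmul_eq_mul] at h1
    have h3 := hMs i
    have h4 : (G.card : ℝ) ≤ 12 * l i + 2 := by linarith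
    have h5 : (G.card : ℤ) ≤ 12 * l i + 2 := by exact_mod_cast h4
    omega
  have hout : ∑ k ∈ univ.filter (fun k => k ∉ G), φ k c ^ 2 ≤ ε ^ 2 := by
    have h1 : ∀ k ∈ univ.filter (fun k => k ∉ G), φ k c ^ 2 ≤
        ∑ j ∈ Ico i (max i n), 2 * δ j * Ms (φ k) c (3 * l (j + 1)) := by
      intro k hk
      refine center_bound h (hef k) i fun hM => ?_
      exact (mem_filter.1 hk).2 (mem_filter.2 ⟨mem_univ _, hM⟩)
    have h2 : ∑ k ∈ univ.filter (fun k => k ∉ G), φ k c ^ 2 ≤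
        ∑ k, ∑ j ∈ Ico i (max i n), 2 * δ j * Ms (φ k) c (3 * l (j + 1)) := by
      refine (sum_le_sum h1).trans ?_
      refine sum_le_sum_of_subset_of_nonneg (subset_univ _) fun k _ _ => ?_
      refine sum_nonneg fun j _ => ?_
      have g1 := h.δpos j
      have g2 : 0 ≤ Ms (φ k) c (3 * l (j + 1)) := sum_nonneg fun _ _ => sq_nonneg _
      positivity
    rw [sum_comm] at h2
    have h3 : ∑ j ∈ Ico i (max i n), ∑ k, 2 * δ j * Ms (φ k) c (3 * l (j + 1)) ≤
        (1 / 8 : ℝ) * ∑ j ∈ Ico i (max i n), (1 / 2) ^ j := by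
      rw [mul_sum]
      refine sum_le_sum fun j _ => ?_
      rw [← mul_sum]
      refine le_trans ?_ (h.sm' j)
      have g1 := h.δpos j
      exact mul_le_mul_of_nonneg_left (hMs (j + 1)) (by positivity)
    have h4 := geo_sum i (max i n)
    have h5 : (0 : ℝ) < (1 / 2) ^ i := by positivity
    linarith
  -- the functions
  obtain ⟨ι⟩ : Nonempty ({k // k ∈ G} ↪ Fin (12 * l i + 2).toNat) :=
    Function.Embedding.nonempty_of_card_le (by
      rw [Fintype.card_coe, Fintype.card_fin]; exact hcard)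
  have hsum : ∀ x, ∑ j, (∑ k : {k // k ∈ G}, if ι k = j then φ k c * φ k x else 0) =
      ∑ k ∈ G, φ k c * φ k x := by
    intro x
    rw [sum_comm]
    have : ∀ k : {k // k ∈ G}, ∑ j, (if ι k = j then φ k c * φ k x else 0) = φ k c * φ k x := by
      intro k
      rw [sum_ite_eq]
      simp
    rw [sum_congr rfl fun k _ => this k]
    exact sum_coe_sort G (fun k => φ k c * φ k x)
  have hone : ∀ (j : Fin (12 * l i + 2).toNat),
      (∃ k : {k // k ∈ G}, ∀ x, (∑ k : {k // k ∈ G}, if ι k = j then φ k c * φ k x else 0) =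
        φ k c * φ k x) ∨
      (∀ x, (∑ k : {k // k ∈ G}, if ι k = j then φ k c * φ k x else 0) = 0) := by
    intro j
    by_cases hj : ∃ k, ι k = j
    · obtain ⟨k, hk⟩ := hj
      left
      refine ⟨k, fun x => ?_⟩
      rw [sum_eq_single k]
      · rw [if_pos hk]
      · intro k' _ hne
        rw [if_neg]
        intro hk'
        exact hne (ι.injective (hk'.trans hk.symm))
      · intro hcon; exact absurd (mem_univ _) hcon
    · right
      intro x
      refine sum_eq_zero fun k _ => if_neg ?_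
      intro hk
      exact hj ⟨k, hk⟩
  have hex : ∀ j : Fin (12 * l i + 2).toNat, ∃ e : ℝ, |e| ≤ K + 2 ∧
      ∀ x, c - n ≤ x → x ≤ c + n →
        Hm V (fun x => ∑ k : {k // k ∈ G}, if ι k = j then φ k c * φ k x else 0) x =
        e * ∑ k : {k // k ∈ G}, if ι k = j then φ k c * φ k x else 0 := by
    intro j
    rcases hone j with ⟨k, hk⟩ | hk
    · refine ⟨eig V (c - n) (2 * n + 1) k, eig_bound hV (hef k), fun x h1 h2 => ?_⟩
      have := (hef k).eq x h1 h2
      unfold Hm at this ⊢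
      beta_reduce
      rw [hk, hk, hk]
      linear_combination (φ k c) * this
    · refine ⟨0, by rw [abs_zero]; linarith, fun x h1 h2 => ?_⟩
      unfold Hm
      beta_reduce
      rw [hk, hk, hk]
      ring
  choose e he1 he2 using hex
  refine ⟨fun j x => ∑ k : {k // k ∈ G}, if ι k = j then φ k c * φ k x else 0, e, he1, he2, ?_, ?_⟩
  · intro j F
    rcases hone j with ⟨k, hk⟩ | hk
    · have h1 : ∀ x ∈ F, (∑ k : {k // k ∈ G}, if ι k = j then φ k c * φ k x else 0) ^ 2 ≤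
          φ k x ^ 2 := by
        intro x _
        rw [hk x, mul_pow]
        have h2 := (hef k).abs_le c
        have h3 : φ k c ^ 2 ≤ 1 := by rw [← sq_abs]; exact pow_le_one₀ (abs_nonneg _) h2
        have h4 := sq_nonneg (φ k x)
        nlinarith
      exact (sum_le_sum h1).trans ((hef k).sum_le F)
    · rw [sum_eq_zero]
      · norm_num
      · intro x _
        beta_reduce
        rw [hk x]; norm_num
  · intro F
    have hD : ∀ x, (if x = c then (1 : ℝ) else 0) -
        ∑ j, (∑ k : {k // k ∈ G}, if ι k = j then φ k c * φ k x else 0) =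
        ∑ k ∈ univ.filter (fun k => k ∉ G), φ k c * φ k x := by
      intro x
      rw [hsum]
      have hall : ∑ k, φ k c * φ k x = if x = c then 1 else 0 := by
        by_cases hx : c - n ≤ x ∧ x ≤ c + n
        · rw [p4 c x (by omega) (by push_cast; omega) hx.1 (by push_cast; omega)]
          simp only [eq_comm]
        · rw [sum_eq_zero fun k _ => by rw [(hef k).out x hx, mul_zero], if_neg]
          intro hxc
          apply hx
          omega
      rw [← hall, ← sum_filter_add_sum_filter_not univ (fun k => k ∈ G)]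
      rw [filter_mem_eq_inter, univ_inter]
      ring
    simp only [hD]
    have hsq : ∀ F : Finset ℤ, ∑ x ∈ F, (∑ k ∈ univ.filter (fun k => k ∉ G), φ k c * φ k x) ^ 2 ≤
        ∑ x ∈ Icc (c - n) (c + n),
          (∑ k ∈ univ.filter (fun k => k ∉ G), φ k c * φ k x) ^ 2 := by
      intro F
      rw [← sum_filter_add_sum_filter_not F (fun x => c - n ≤ x ∧ x ≤ c + n)]
      have h0 : ∑ x ∈ F.filter (fun x => ¬ (c - n ≤ x ∧ x ≤ c + n)),
          (∑ k ∈ univ.filter (fun k => k ∉ G), φ k c * φ k x) ^ 2 = 0 := by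
        refine sum_eq_zero fun x hx => ?_
        rw [sum_eq_zero fun k _ => by rw [(hef k).out x (mem_filter.1 hx).2, mul_zero]]
        norm_num
      rw [h0, add_zero]
      refine sum_le_sum_of_subset_of_nonneg ?_ fun _ _ _ => sq_nonneg _
      intro x hx
      exact mem_Icc.2 (mem_filter.1 hx).2
    refine (hsq F).trans (le_trans (le_of_eq ?_) hout)
    have e1 : ∀ x, (∑ k ∈ univ.filter (fun k => k ∉ G), φ k c * φ k x) ^ 2 =
        ∑ k ∈ univ.filter (fun k => k ∉ G), ∑ k' ∈ univ.filter (fun k => k ∉ G),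
          (φ k c * φ k' c) * (φ k x * φ k' x) := by
      intro x
      rw [sq, sum_mul_sum]
      exact sum_congr rfl fun k _ => sum_congr rfl fun k' _ => by ring
    rw [sum_congr rfl fun x _ => e1 x, sum_comm]
    refine sum_congr rfl fun k hk => ?_
    rw [sum_comm]
    have e2 : ∀ k', ∑ x ∈ Icc (c - (n : ℤ)) (c + n), (φ k c * φ k' c) * (φ k x * φ k' x) =
        if k = k' then φ k c * φ k' c else 0 := by
      intro k'
      rw [← mul_sum, p3 k k']
      split_ifs <;> ring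
    rw [sum_congr rfl fun k' _ => e2 k', sum_ite_eq, if_pos hk]
    ring

/-- pure point spectrum from the nonresonance conditions -/
theorem pure_point {K : ℝ} (hV : ∀ x, |V x| ≤ K) (h : Hyp V l δ η) :
    (Submodule.span ℂ (EigSet V)).topologicalClosure = ⊤ :=
  closure_top V fun c => compl_crit V (K + 2) c fun ε hε => approx hV h c ε hε

end Pool.Agent.Helper5K9.LP
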