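import Pool.Agent.Helper5K9.LP.Box
import Pool.Agent.Helper5K9.LP.LLL

set_option autoImplicit false

/-!
The noise.
-/

namespace Pool.Agent.Helper5K9.LP

open Finset

lemma Hm_congr {V W u : ℤ → ℝ} {x : ℤ} (h : V x = W x) : Hm V u x = Hm W u x := by
  unfold Hm; rw [h]

lemma Res_congr {V W : ℤ → ℝ} {a b : ℤ} {E η : ℝ} (h : ∀ x, a ≤ x → x ≤ b → V x = W x)
    (hR : Res V a b E η) : Res W a b E η := by
  obtain ⟨u, h1, h2, h3⟩ := hR
  refine ⟨u, h1, h2, ?_⟩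
  rw [sum_congr rfl fun x hx => ?_] at h3
  · exact h3
  · rw [mem_Icc] at hx
    rw [Hm_congr (h x hx.1 hx.2)]

lemma sum_shift (a b t : ℤ) (f : ℤ → ℝ) :
    ∑ x ∈ Icc (a + t) (b + t), f x = ∑ x ∈ Icc a b, f (x + t) := by
  refine sum_nbij' (fun x => x - t) (fun x => x + t) ?_ ?_ ?_ ?_ ?_
  · intro x hx; rw [mem_Icc] at hx ⊢; omega
  · intro x hx; rw [mem_Icc] at hx ⊢; omega
  · intro x _; simp
  · intro x _; simp
  · intro x _; simp

lemma Res_shift {V : ℤ → ℝ} {a b t : ℤ} {E η : ℝ} (hR : Res V (a + t) (b + t) E η) :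
    Res (fun x => V (x + t)) a b E η := by
  obtain ⟨u, h1, h2, h3⟩ := hR
  refine ⟨fun x => u (x + t), fun x hx => h1 (x + t) (by omega), ?_, ?_⟩
  · rw [← sum_shift a b t (fun x => u x ^ 2)]; exact h2
  · rw [sum_shift] at h3
    refine le_trans (le_of_eq ?_) h3
    refine sum_congr rfl fun x _ => ?_
    unfold Hm
    rw [show x + t + 1 = x + 1 + t by ring, show x + t - 1 = x - 1 + t by ring]

lemma hop_symm {a b : ℤ} {u v : ℤ → ℝ} (hu : ∀ x, ¬ (a ≤ x ∧ x ≤ b) → u x = 0)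
    (hv : ∀ x, ¬ (a ≤ x ∧ x ≤ b) → v x = 0) :
    ∑ x ∈ Icc a b, v x * u (x + 1) = ∑ x ∈ Icc a b, v (x - 1) * u x := by
  have h1 : ∑ x ∈ Icc a b, v x * u (x + 1) = ∑ x ∈ Icc (a + 1) (b + 1), v (x - 1) * u x := by
    rw [sum_shift a b 1 (fun x => v (x - 1) * u x)]
    refine sum_congr rfl fun x _ => ?_
    rw [add_sub_cancel_right]
  rw [h1]
  have h2 : ∑ x ∈ Icc (a + 1) (b + 1), v (x - 1) * u x =
      ∑ x ∈ Icc a (b + 1), v (x - 1) * u x := by
    refine sum_subset ?_ ?_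
    · intro x hx; rw [mem_Icc] at hx ⊢; omega
    · intro x hx hx2
      rw [mem_Icc] at hx hx2
      rw [hv (x - 1) (by omega), zero_mul]
  have h3 : ∑ x ∈ Icc a b, v (x - 1) * u x = ∑ x ∈ Icc a (b + 1), v (x - 1) * u x := by
    refine sum_subset ?_ ?_
    · intro x hx; rw [mem_Icc] at hx ⊢; omega
    · intro x hx hx2
      rw [mem_Icc] at hx hx2
      rw [hu x (by omega), mul_zero]
  rw [h2, h3]

/-- the key estimate: at a fixed energy a site value which makes the box resonant is unique up to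
a small error -/
lemma wegner {V W : ℤ → ℝ} {a b z : ℤ} {lam ρ m : ℝ} (hρ : 0 ≤ ρ) (hm : 0 < m)
    (hz : a ≤ z ∧ z ≤ b) (hVW : ∀ x, a ≤ x → x ≤ b → x ≠ z → V x = W x) {u v : ℤ → ℝ}
    (hu : ∀ x, ¬ (a ≤ x ∧ x ≤ b) → u x = 0) (hu1 : ∑ x ∈ Icc a b, u x ^ 2 = 1)
    (hu2 : ∑ x ∈ Icc a b, (Hm V u x - lam * u x) ^ 2 ≤ ρ ^ 2) (huz : m ≤ u z ^ 2)
    (hv : ∀ x, ¬ (a ≤ x ∧ x ≤ b) → v x = 0) (hv1 : ∑ x ∈ Icc a b, v x ^ 2 = 1)
    (hv2 : ∑ x ∈ Icc a b, (Hm W v x - lam * v x) ^ 2 ≤ ρ ^ 2) (hvz : m ≤ v z ^ 2) :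
    |V z - W z| * m ≤ 2 * ρ := by
  have cs : ∀ f g : ℤ → ℝ, ∑ x ∈ Icc a b, f x ^ 2 = 1 → ∑ x ∈ Icc a b, g x ^ 2 ≤ ρ ^ 2 →
      |∑ x ∈ Icc a b, f x * g x| ≤ ρ := by
    intro f g h1 h2
    have h3 := sum_mul_sq_le_sq_mul_sq (Icc a b) f g
    rw [h1, one_mul] at h3
    exact abs_le_of_sq_le_sq (h3.trans h2) hρ
  have e1 := cs v (fun x => Hm V u x - lam * u x) hv1 hu2
  have e2 := cs u (fun x => Hm W v x - lam * v x) hu1 hv2
  have key : ∑ x ∈ Icc a b, v x * (Hm V u x - lam * u x) -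
      ∑ x ∈ Icc a b, u x * (Hm W v x - lam * v x) = (V z - W z) * (u z * v z) := by
    have s1 := hop_symm hu hv
    have s2 := hop_symm hv hu
    have t1 : ∑ x ∈ Icc a b, v x * (Hm V u x - lam * u x) =
        ∑ x ∈ Icc a b, v x * u (x + 1) + ∑ x ∈ Icc a b, u (x - 1) * v x +
          ∑ x ∈ Icc a b, (V x - lam) * (u x * v x) := by
      rw [← sum_add_distrib, ← sum_add_distrib]
      refine sum_congr rfl fun x _ => ?_
      unfold Hm; ring
    have t2 : ∑ x ∈ Icc a b, u x * (Hm W v x - lam * v x) =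
        ∑ x ∈ Icc a b, u x * v (x + 1) + ∑ x ∈ Icc a b, v (x - 1) * u x +
          ∑ x ∈ Icc a b, (W x - lam) * (u x * v x) := by
      rw [← sum_add_distrib, ← sum_add_distrib]
      refine sum_congr rfl fun x _ => ?_
      unfold Hm; ring
    have t3 : ∑ x ∈ Icc a b, (V x - lam) * (u x * v x) -
        ∑ x ∈ Icc a b, (W x - lam) * (u x * v x) = (V z - W z) * (u z * v z) := by
      rw [← sum_sub_distrib, sum_eq_single z]
      · ring
      · intro x hx hne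
        rw [mem_Icc] at hx
        rw [hVW x hx.1 hx.2 hne]; ring
      · intro hcon; exact absurd (mem_Icc.2 hz) hcon
    rw [t1, t2, s1, s2]
    linarith
  have h5 : |(V z - W z) * (u z * v z)| ≤ 2 * ρ := by
    rw [← key]
    refine (abs_sub _ _).trans ?_
    linarith
  rw [abs_mul] at h5
  have h6 : m ≤ |u z * v z| := by
    have : m ^ 2 ≤ |u z * v z| ^ 2 := by
      rw [sq_abs, mul_pow, sq]
      exact mul_le_mul huz hvz hm.le (by positivity)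
    exact le_of_sq_le_sq this (abs_nonneg _)
  exact (mul_le_mul_of_nonneg_left h6 (abs_nonneg _)).trans h5

end Pool.Agent.Helper5K9.LP
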