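import Pool.Agent.Helper5K9.LP.Noise

set_option autoImplicit false

/-!
The noise: counting and the local lemma.
-/

namespace Pool.Agent.Helper5K9.LP

open Finset

/-- the residue -/
def idx (p : ℕ) (hp : 0 < p) (x : ℤ) : Fin p :=
  ⟨(x % (p : ℤ)).toNat, by
    have h1 := Int.emod_nonneg x (show (p : ℤ) ≠ 0 by omega)
    have h2 := Int.emod_lt_of_pos x (show (0 : ℤ) < p by omega)
    omega⟩

lemma idx_eq {p : ℕ} (hp : 0 < p) {x y : ℤ} : idx p hp x = idx p hp y ↔ x % (p : ℤ) = y % (p : ℤ) := by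
  unfold idx
  rw [Fin.mk.injEq]
  have h1 := Int.emod_nonneg x (show (p : ℤ) ≠ 0 by omega)
  have h2 := Int.emod_nonneg y (show (p : ℤ) ≠ 0 by omega)
  omega

lemma idx_add {p : ℕ} (hp : 0 < p) (x : ℤ) : idx p hp (x + p) = idx p hp x := by
  rw [idx_eq, Int.add_emod_right]

lemma idx_ne {p : ℕ} (hp : 0 < p) {x y : ℤ} (hxy : x ≠ y) (h1 : x - y < p) (h2 : y - x < p) :
    idx p hp x ≠ idx p hp y := by
  intro h
  rw [idx_eq] at h
  have h3 := Int.emod_emod_of_dvd (x - y) (dvd_refl (p : ℤ))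
  have h4 : (x - y) % (p : ℤ) = 0 := Int.emod_eq_emod_iff_emod_sub_eq_zero.1 h
  obtain ⟨k, hk⟩ := Int.dvd_of_emod_eq_zero h4
  have hp' : (0 : ℤ) < p := by omega
  rcases lt_trichotomy k 0 with hk0 | hk0 | hk0
  · nlinarith
  · subst hk0; omega
  · nlinarith

/-- the potential with noise -/
noncomputable def Vs (W : ℤ → ℝ) (t : ℝ) {p Q : ℕ} (hp : 0 < p) (s : Fin p → Fin Q) (x : ℤ) : ℝ :=
  W x + t * ((s (idx p hp x) : ℕ) : ℝ)

/-- the bad event -/
def Bad (W : ℤ → ℝ) (t ζ : ℝ) {p Q : ℕ} (hp : 0 < p) (i : ℤ × ℤ × ℤ) (s : Fin p → Fin Q) : Prop :=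
  ∃ E : ℝ, Res (Vs W t hp s) i.1 i.2.1 E ζ ∧ Res (Vs W t hp s) (i.2.1 + 1) i.2.2 E ζ

variable {W : ℤ → ℝ} {t ζ : ℝ} {p Q L : ℕ} {hp : 0 < p}

lemma Vs_update_ne {s : Fin p → Fin Q} {z x : ℤ} {v : Fin Q} (h : idx p hp x ≠ idx p hp z) :
    Vs W t hp (Function.update s (idx p hp z) v) x = Vs W t hp s x := by
  unfold Vs
  rw [Function.update_of_ne h]

/-- an approximate eigenvector at an eigenvalue of the left box, with mass at `z` -/
def BadAt (W : ℤ → ℝ) (t ζ : ℝ) {p Q : ℕ} (hp : 0 < p) (L : ℕ) (a y b z : ℤ) (n : ℕ)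
    (s : Fin p → Fin Q) (k : Fin n) : Prop :=
  ∃ u : ℤ → ℝ, (∀ x, ¬ (y + 1 ≤ x ∧ x ≤ b) → u x = 0) ∧ ∑ x ∈ Icc (y + 1) b, u x ^ 2 = 1 ∧
    ∑ x ∈ Icc (y + 1) b, (Hm (Vs W t hp s) u x - eig (Vs W t hp s) a n k * u x) ^ 2 ≤
      (2 * ζ) ^ 2 ∧ 1 / (L : ℝ) ≤ u z ^ 2

lemma bad_imp {a y b : ℤ} {n : ℕ} (hn : (n : ℤ) = y - a + 1) (hζ : 0 ≤ ζ) (hyb : y < b)
    (hbL : b - y ≤ L) {s : Fin p → Fin Q} (h : Bad W t ζ hp (a, y, b) s) :
    ∃ z ∈ Icc (y + 1) b, ∃ k : Fin n, BadAt W t ζ hp L a y b z n s k := by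
  obtain ⟨E, hE1, hE2⟩ := h
  simp only [] at hE1 hE2
  have e1 : y = a + n - 1 := by omega
  rw [e1] at hE1
  obtain ⟨k, hk⟩ := eig_near hζ hE1
  obtain ⟨u, h1, h2, h3⟩ := hE2
  obtain ⟨z, hz, hz2⟩ : ∃ z ∈ Icc (y + 1) b, 1 / (L : ℝ) ≤ u z ^ 2 := by
    by_contra hcon
    push Not at hcon
    have hne : (Icc (y + 1) b).Nonempty := ⟨b, mem_Icc.2 ⟨by omega, le_refl _⟩⟩
    have h4 := sum_lt_sum_of_nonempty hne hcon
    rw [h2, sum_const, Int.card_Icc, nsmul_eq_mul] at h4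
    have hL : (0 : ℝ) < L := by
      have : 0 < L := by omega
      exact_mod_cast this
    have h5 : (((b + 1 - (y + 1)).toNat : ℕ) : ℝ) ≤ L := by
      have : (b + 1 - (y + 1)).toNat ≤ L := by omega
      exact_mod_cast this
    have h6 : (((b + 1 - (y + 1)).toNat : ℕ) : ℝ) * (1 / (L : ℝ)) ≤ L * (1 / L) :=
      mul_le_mul_of_nonneg_right h5 (by positivity)
    rw [mul_one_div_cancel hL.ne'] at h6
    linarith
  refine ⟨z, hz, k, u, h1, h2, ?_, hz2⟩
  -- (a + b)^2 ≤ 2 a^2 + 2 b^2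
  set lam := eig (Vs W t hp s) a n k with hlam
  have h5 : ∀ x ∈ Icc (y + 1) b, (Hm (Vs W t hp s) u x - lam * u x) ^ 2 ≤
      2 * (Hm (Vs W t hp s) u x - E * u x) ^ 2 + 2 * (ζ ^ 2 * u x ^ 2) := by
    intro x _
    have e2 : Hm (Vs W t hp s) u x - lam * u x =
        (Hm (Vs W t hp s) u x - E * u x) - (lam - E) * u x := by ring
    have e3 : ((lam - E) * u x) ^ 2 ≤ ζ ^ 2 * u x ^ 2 := by
      rw [mul_pow]
      refine mul_le_mul_of_nonneg_right ?_ (sq_nonneg _)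
      rw [← sq_abs (lam - E)]
      gcongr
    rw [e2]
    nlinarith [sq_nonneg ((Hm (Vs W t hp s) u x - E * u x) + (lam - E) * u x)]
  refine (sum_le_sum h5).trans ?_
  rw [sum_add_distrib, ← mul_sum, ← mul_sum, ← mul_sum, h2]
  nlinarith

lemma badAt_unique {a y b z : ℤ} {n : ℕ} (hn : (n : ℤ) = y - a + 1) (hζ : 0 ≤ ζ) (ht : 0 < t)
    (hL : 0 < L) (hζL : 4 * ζ * L < t) (hay : a ≤ y) (hbL : b < a + L) (hLp : L ≤ p)
    (hz : y + 1 ≤ z ∧ z ≤ b) {s s' : Fin p → Fin Q} {k : Fin n}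
    (h1 : BadAt W t ζ hp L a y b z n s k) (h2 : BadAt W t ζ hp L a y b z n s' k)
    (hs : ∀ i, i ≠ idx p hp z → s i = s' i) : s = s' := by
  have hV : ∀ x, a ≤ x → x ≤ b → x ≠ z → Vs W t hp s x = Vs W t hp s' x := by
    intro x hx1 hx2 hx3
    unfold Vs
    rw [hs _ (idx_ne hp hx3 (by omega) (by omega))]
  have heig : eig (Vs W t hp s) a n = eig (Vs W t hp s') a n :=
    eig_congr fun x hx1 hx2 => hV x hx1 (by omega) (by omega)
  obtain ⟨u, u1, u2, u3, u4⟩ := h1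
  obtain ⟨v, v1, v2, v3, v4⟩ := h2
  rw [← heig] at v3
  have hLr : (0 : ℝ) < L := by exact_mod_cast hL
  have key := wegner (by positivity) (by positivity) hz
    (fun x hx1 hx2 hx3 => hV x (by omega) hx2 hx3) u1 u2 u3 u4 v1 v2 v3 v4
  rw [mul_one_div, div_le_iff₀ hLr] at key
  funext i
  by_cases hi : i = idx p hp z
  · subst hi
    by_contra hne
    have h5 : (1 : ℝ) ≤ |((s (idx p hp z) : ℕ) : ℝ) - ((s' (idx p hp z) : ℕ) : ℝ)| := by
      have h6 : ((s (idx p hp z) : ℕ) : ℤ) - ((s' (idx p hp z) : ℕ) : ℤ) ≠ 0 := by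
        intro h0
        apply hne
        ext
        omega
      have h7 := Int.one_le_abs h6
      have h8 : ((1 : ℤ) : ℝ) ≤ ((|((s (idx p hp z) : ℕ) : ℤ) - ((s' (idx p hp z) : ℕ) : ℤ)| : ℤ) : ℝ) :=
        by exact_mod_cast h7
      push_cast at h8
      exact h8
    have h9 : Vs W t hp s z - Vs W t hp s' z =
        t * (((s (idx p hp z) : ℕ) : ℝ) - ((s' (idx p hp z) : ℕ) : ℝ)) := by
      unfold Vs; ring
    rw [h9, abs_mul, abs_of_pos ht] at key
    nlinarith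
  · exact hs i hi

open Classical in
/-- counting -/
lemma badAt_count {a y b z : ℤ} {n : ℕ} (hn : (n : ℤ) = y - a + 1) (hζ : 0 ≤ ζ) (ht : 0 < t)
    (hL : 0 < L) (hζL : 4 * ζ * L < t) (hay : a ≤ y) (hbL : b < a + L) (hLp : L ≤ p)
    (hz : y + 1 ≤ z ∧ z ≤ b) (Gd : (Fin p → Fin Q) → Prop)
    (hGd : ∀ s v, Gd s → Gd (Function.update s (idx p hp z) v)) :
    (univ.filter fun s : Fin p → Fin Q => (∃ k : Fin n, BadAt W t ζ hp L a y b z n s k) ∧
      Gd s).card * Q ≤ n * (univ.filter fun s : Fin p → Fin Q => Gd s).card := by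
  have hk : ∀ s : Fin p → Fin Q, ∃ k : Option (Fin n), (∃ k : Fin n, BadAt W t ζ hp L a y b z n s k) →
      ∃ k' : Fin n, k = some k' ∧ BadAt W t ζ hp L a y b z n s k' := by
    intro s
    by_cases h : ∃ k : Fin n, BadAt W t ζ hp L a y b z n s k
    · obtain ⟨k, hk⟩ := h
      exact ⟨some k, fun _ => ⟨k, rfl, hk⟩⟩
    · exact ⟨none, fun h' => absurd h' h⟩
  choose kk hkk using hk
  have hcard : ((univ.filter fun s : Fin p → Fin Q =>
      (∃ k : Fin n, BadAt W t ζ hp L a y b z n s k) ∧ Gd s) ×ˢ (univ : Finset (Fin Q))).card ≤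
      (((univ : Finset (Fin n)).image some) ×ˢ
        (univ.filter fun s : Fin p → Fin Q => Gd s)).card := by
    refine card_le_card_of_injOn
      (fun q => (kk q.1, Function.update q.1 (idx p hp z) q.2)) ?_ ?_
    · rintro ⟨s, v⟩ hq
      simp only [coe_product, coe_filter, mem_univ, true_and, Set.mem_prod, Set.mem_ofPred_eq,
        coe_univ, Set.mem_univ, and_true] at hq
      simp only [coe_product, coe_image, coe_univ, Set.image_univ, coe_filter, mem_univ, true_and,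
        Set.mem_prod, Set.mem_range, Set.mem_ofPred_eq]
      obtain ⟨k', h1, _⟩ := hkk s hq.1
      exact ⟨⟨k', h1.symm⟩, hGd s v hq.2⟩
    · rintro ⟨s, v⟩ hq ⟨s', v'⟩ hq' heq
      simp only [coe_product, coe_filter, mem_univ, true_and, Set.mem_prod, Set.mem_ofPred_eq,
        coe_univ, Set.mem_univ, and_true] at hq hq'
      simp only [Prod.mk.injEq] at heq
      obtain ⟨h1, h2⟩ := heq
      have hv : v = v' := by
        have := congrFun h2 (idx p hp z)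
        rwa [Function.update_self, Function.update_self] at this
      obtain ⟨k1, g1, g2⟩ := hkk s hq.1
      obtain ⟨k2, g3, g4⟩ := hkk s' hq'.1
      have hk12 : k1 = k2 := by
        rw [g1, g3] at h1
        exact Option.some.inj h1
      subst hk12
      have hs : s = s' := by
        refine badAt_unique hn hζ ht hL hζL hay hbL hLp hz g2 g4 fun i hi => ?_
        have := congrFun h2 i
        rwa [Function.update_of_ne hi, Function.update_of_ne hi] at this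
      rw [hs, hv]
  rw [card_product, card_product, card_image_of_injective _ (Option.some_injective _), card_univ,
    card_univ, Fintype.card_fin, Fintype.card_fin] at hcard
  exact hcard

end Pool.Agent.Helper5K9.LP
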