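import Pool.Agent.Helper5K9.LP.Noise2

set_option autoImplicit false

/-!
The noise: existence.
-/

namespace Pool.Agent.Helper5K9.LP

open Finset

lemma Bad_congr {W : ℤ → ℝ} {t ζ : ℝ} {p Q : ℕ} {hp : 0 < p} {j : ℤ × ℤ × ℤ}
    {s s' : Fin p → Fin Q} (hj : j.1 ≤ j.2.1 ∧ j.2.1 < j.2.2)
    (h : ∀ x, j.1 ≤ x → x ≤ j.2.2 → s (idx p hp x) = s' (idx p hp x)) (hB : Bad W t ζ hp j s) :
    Bad W t ζ hp j s' := by
  obtain ⟨E, h1, h2⟩ := hB
  have hV : ∀ x, j.1 ≤ x → x ≤ j.2.2 → Vs W t hp s x = Vs W t hp s' x := by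
    intro x hx1 hx2
    unfold Vs
    rw [h x hx1 hx2]
  exact ⟨E, Res_congr (fun x hx1 hx2 => hV x hx1 (by omega)) h1,
    Res_congr (fun x hx1 hx2 => hV x (by omega) hx2) h2⟩

/-- the neighbours of an event -/
noncomputable def nbr (p L : ℕ) (i : ℤ × ℤ × ℤ) : Finset (ℤ × ℤ × ℤ) :=
  (Ioo (-(L : ℤ)) L ×ˢ Ico (0 : ℤ) L ×ˢ Ico (0 : ℤ) L).image (fun d =>
    ((i.1 + d.1) % (p : ℤ), (i.1 + d.1) % (p : ℤ) + d.2.1, (i.1 + d.1) % (p : ℤ) + d.2.2))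

lemma nbr_card (p L : ℕ) (i : ℤ × ℤ × ℤ) : (nbr p L i).card ≤ 2 * L ^ 3 := by
  unfold nbr
  refine card_image_le.trans ?_
  rw [card_product, card_product, Int.card_Ioo, Int.card_Ico]
  have h1 : ((L : ℤ) - (-(L : ℤ)) - 1).toNat ≤ 2 * L := by omega
  have h2 : ((L : ℤ) - 0).toNat = L := by omega
  rw [h2]
  calc ((L : ℤ) - (-(L : ℤ)) - 1).toNat * (L * L) ≤ (2 * L) * (L * L) :=
        Nat.mul_le_mul_right _ h1
    _ = 2 * L ^ 3 := by ring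

/-- the index set of the events -/
def Idx (p L : ℕ) (i : ℤ × ℤ × ℤ) : Prop :=
  0 ≤ i.1 ∧ i.1 < p ∧ i.1 ≤ i.2.1 ∧ i.2.1 < i.2.2 ∧ i.2.2 < i.1 + L

lemma nbr_disj {p L : ℕ} (hp : 0 < p) {i j : ℤ × ℤ × ℤ} (gj : Idx p L j) (gi : Idx p L i)
    (hjn : j ∉ nbr p L i) {x x' : ℤ} (h1 : i.1 ≤ x) (h2 : x ≤ i.2.2) (h3 : j.1 ≤ x')
    (h4 : x' ≤ j.2.2) : idx p hp x' ≠ idx p hp x := by
  intro heq
  apply hjn
  unfold Idx at gi gj
  rw [nbr, mem_image]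
  refine ⟨((x - i.1) - (x' - j.1), j.2.1 - j.1, j.2.2 - j.1), ?_, ?_⟩
  · simp only [mem_product, mem_Ioo, mem_Ico]
    omega
  · have e1 : (i.1 + ((x - i.1) - (x' - j.1))) % (p : ℤ) = j.1 := by
      have e2 : i.1 + ((x - i.1) - (x' - j.1)) = j.1 + (x - x') := by ring
      have e3 : (x - x') % (p : ℤ) = 0 :=
        Int.emod_eq_emod_iff_emod_sub_eq_zero.1 ((idx_eq hp).1 heq).symm
      rw [e2, Int.add_emod, e3, add_zero, Int.emod_emod_of_dvd _ (dvd_refl _)]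
      exact Int.emod_eq_of_lt gj.1 gj.2.1
    simp only []
    rw [e1]
    ext <;> simp

open Classical in
lemma hind_aux (W : ℤ → ℝ) {p L Q : ℕ} (hp : 0 < p) (hL : 1 ≤ L) (hLp : L ≤ p) {t ζ : ℝ}
    (ht0 : 0 < t) (hζ0 : 0 ≤ ζ) (hζL : 4 * ζ * L < t) {i : ℤ × ℤ × ℤ} (gi : Idx p L i)
    (T : Finset (ℤ × ℤ × ℤ)) (hT : ∀ j ∈ T, Idx p L j ∧ j ∉ nbr p L i)
    (Gd : (Fin p → Fin Q) → Prop) (hGd : ∀ s, Gd s ↔ ∀ j ∈ T, ¬ Bad W t ζ hp j s) :
    (univ.filter fun s : Fin p → Fin Q => Bad W t ζ hp i s ∧ Gd s).card * Q ≤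
      L * (L * (univ.filter fun s : Fin p → Fin Q => Gd s).card) := by
  have gi' := gi
  unfold Idx at gi'
  have hupd : ∀ z, i.2.1 + 1 ≤ z → z ≤ i.2.2 → ∀ s v, Gd s →
      Gd (Function.update s (idx p hp z) v) := by
    intro z hz1 hz2 s v hs
    rw [hGd] at hs ⊢
    intro j hj hB
    have gj := (hT j hj).1
    have gj' := gj
    unfold Idx at gj'
    refine hs j hj (Bad_congr ⟨gj'.2.2.1, gj'.2.2.2.1⟩ (fun x hx1 hx2 => ?_) hB)
    rw [Function.update_of_ne]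
    exact nbr_disj hp gj gi (hT j hj).2 (by omega) hz2 hx1 hx2
  obtain ⟨n, hn⟩ : ∃ n : ℕ, (n : ℤ) = i.2.1 - i.1 + 1 :=
    ⟨(i.2.1 - i.1 + 1).toNat, by omega⟩
  set g : ℕ := (univ.filter fun s : Fin p → Fin Q => Gd s).card with hg
  have hcnt : ∀ z ∈ Icc (i.2.1 + 1) i.2.2,
      (univ.filter fun s : Fin p → Fin Q => (∃ k : Fin n,
        BadAt W t ζ hp L i.1 i.2.1 i.2.2 z n s k) ∧ Gd s).card * Q ≤ n * g := by
    intro z hz
    rw [mem_Icc] at hz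
    exact badAt_count hn hζ0 ht0 (by omega) hζL gi'.2.2.1 gi'.2.2.2.2 hLp hz Gd
      (hupd z hz.1 hz.2)
  have hsub : (univ.filter fun s : Fin p → Fin Q => Bad W t ζ hp i s ∧ Gd s) ⊆
      (Icc (i.2.1 + 1) i.2.2).biUnion fun z =>
        (univ.filter fun s : Fin p → Fin Q => (∃ k : Fin n,
        BadAt W t ζ hp L i.1 i.2.1 i.2.2 z n s k) ∧ Gd s) := by
    intro s hs
    rw [mem_filter] at hs
    rw [mem_biUnion]
    obtain ⟨z, hz, k, hk⟩ := bad_imp (L := L) hn hζ0 gi'.2.2.2.1 (by omega) hs.2.1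
    exact ⟨z, hz, mem_filter.2 ⟨mem_univ _, ⟨k, hk⟩, hs.2.2⟩⟩
  have h1 := (card_le_card hsub).trans card_biUnion_le
  calc _ ≤ (∑ z ∈ Icc (i.2.1 + 1) i.2.2, (univ.filter fun s : Fin p → Fin Q => (∃ k : Fin n,
          BadAt W t ζ hp L i.1 i.2.1 i.2.2 z n s k) ∧ Gd s).card) * Q :=
        Nat.mul_le_mul_right _ h1
    _ = ∑ z ∈ Icc (i.2.1 + 1) i.2.2, (univ.filter fun s : Fin p → Fin Q => (∃ k : Fin n,
          BadAt W t ζ hp L i.1 i.2.1 i.2.2 z n s k) ∧ Gd s).card * Q := sum_mul _ _ _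
    _ ≤ ∑ z ∈ Icc (i.2.1 + 1) i.2.2, n * g := sum_le_sum hcnt
    _ = (i.2.2 + 1 - (i.2.1 + 1)).toNat * (n * g) := by
        rw [sum_const, Int.card_Icc, smul_eq_mul]
    _ ≤ L * (L * g) := by
        refine Nat.mul_le_mul (by omega) (Nat.mul_le_mul_right _ (by omega))

open Classical in
lemma noise_aux (W : ℤ → ℝ) {p L : ℕ} (hp : 0 < p) (hL : 1 ≤ L) (hLp : L ≤ p) {ε : ℝ} (hε : 0 < ε) :
    ∃ Q : ℕ, 0 < Q ∧ ∃ s : Fin p → Fin Q, ∀ a y b : ℤ, 0 ≤ a → a < p → a ≤ y → y < b →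
      b < a + L → ¬ Bad W (ε / (Q : ℝ)) (ε / (64 * (L : ℝ) ^ 6)) hp (a, y, b) s := by
  have hLr : (1 : ℝ) ≤ L := by exact_mod_cast hL
  have hL0 : (0 : ℝ) < L := by linarith
  obtain ⟨Q, hQ⟩ : ∃ Q : ℕ, Q = 8 * L ^ 5 := ⟨_, rfl⟩
  have hQr : (Q : ℝ) = 8 * (L : ℝ) ^ 5 := by rw [hQ]; push_cast; ring
  have hQ0 : (0 : ℝ) < Q := by rw [hQr]; positivity
  have hQ1 : 0 < Q := by exact_mod_cast hQ0
  refine ⟨Q, hQ1, ?_⟩
  obtain ⟨t, ht⟩ : ∃ t : ℝ, t = ε / (Q : ℝ) := ⟨_, rfl⟩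
  obtain ⟨ζ, hζ⟩ : ∃ ζ : ℝ, ζ = ε / (64 * (L : ℝ) ^ 6) := ⟨_, rfl⟩
  rw [← ht, ← hζ]
  have ht0 : 0 < t := by rw [ht]; positivity
  have hζ0 : 0 ≤ ζ := by rw [hζ]; positivity
  have hζL : 4 * ζ * L < t := by
    rw [hζ, ht, hQr]
    have e : 4 * (ε / (64 * (L : ℝ) ^ 6)) * L = (ε / (8 * (L : ℝ) ^ 5)) / 2 := by
      field_simp
      ring
    rw [e]
    have : 0 < ε / (8 * (L : ℝ) ^ 5) := by positivity
    linarith
  set S : Finset (ℤ × ℤ × ℤ) := (Ico (0 : ℤ) p ×ˢ (Ico (0 : ℤ) (p + L)) ×ˢ (Ico (0 : ℤ) (p + L))).filter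
    (fun i => Idx p L i) with hS
  have hSmem : ∀ i ∈ S, Idx p L i := fun i hi => (mem_filter.1 hi).2
  have hq1 : 4 * ((2 * L ^ 3 : ℕ) : ℝ) * (1 / (8 * (L : ℝ) ^ 3)) ≤ 1 := by
    push_cast
    have : 4 * (2 * (L : ℝ) ^ 3) * (1 / (8 * (L : ℝ) ^ 3)) = 1 := by
      field_simp
      ring
    exact this.le
  have hq2 : 2 * (1 / (8 * (L : ℝ) ^ 3)) < 1 := by
    have h3 : (1 : ℝ) ≤ (L : ℝ) ^ 3 := one_le_pow₀ hLr
    rw [mul_one_div, div_lt_one (by positivity)]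
    linarith
  have hlll := lll (univ : Finset (Fin p → Fin Q)) (fun i s => Bad W t ζ hp i s) S (nbr p L)
    (2 * L ^ 3) (1 / (8 * (L : ℝ) ^ 3)) (by positivity) hq1 hq2.le
    (fun i _ => nbr_card p L i) (by
      intro i hi T hT hTn
      have h2 := hind_aux W hp hL hLp ht0 hζ0 hζL (hSmem i hi) T
        (fun j hj => ⟨hSmem j (hT hj), hTn j hj⟩)
        (fun s : Fin p → Fin Q => ∀ j ∈ T, ¬ Bad W t ζ hp j s) (fun s => Iff.rfl)
      have h3 := (Nat.cast_le (α := ℝ)).2 h2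
      rw [Nat.cast_mul, Nat.cast_mul, Nat.cast_mul, ← le_div_iff₀ hQ0] at h3
      have h4 : ∀ g : ℝ, (L : ℝ) * (L * g) / Q = 1 / (8 * (L : ℝ) ^ 3) * g := by
        intro g
        rw [hQr]
        field_simp
      rw [h4] at h3
      refine le_trans (le_of_eq ?_) (h3.trans (le_of_eq ?_))
      · congr!
      · congr!)
  have hpos : 0 < (1 - 2 * (1 / (8 * (L : ℝ) ^ 3))) ^ S.card *
      ((univ : Finset (Fin p → Fin Q)).card : ℝ) := by
    have h5 : 0 < (univ : Finset (Fin p → Fin Q)).card := by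
      rw [card_pos]
      exact ⟨fun _ => ⟨0, hQ1⟩, mem_univ _⟩
    have h6 : (0 : ℝ) < ((univ : Finset (Fin p → Fin Q)).card : ℝ) := by exact_mod_cast h5
    have h7 : 0 < 1 - 2 * (1 / (8 * (L : ℝ) ^ 3)) := by linarith
    positivity
  have hcard := hpos.trans_le hlll
  have hcard' : 0 < (univ.filter fun s : Fin p → Fin Q => ∀ j ∈ S, ¬ Bad W t ζ hp j s).card := by
    exact_mod_cast hcard
  obtain ⟨s, hs⟩ := card_pos.1 hcard'
  refine ⟨s, fun a y b h1 h2 h3 h4 h5 => (mem_filter.1 hs).2 (a, y, b) ?_⟩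
  rw [hS, mem_filter]
  simp only [mem_product, mem_Ico, Idx]
  omega

/-- the noise -/
theorem noise (W : ℤ → ℝ) {p L : ℕ} (hL : 1 ≤ L) (hLp : L ≤ p) (hW : ∀ x, W (x + p) = W x)
    {ε : ℝ} (hε : 0 < ε) :
    ∃ ξ : ℤ → ℝ, (∀ x, ξ (x + p) = ξ x) ∧ (∀ x, 0 ≤ ξ x ∧ ξ x ≤ ε) ∧
      NR (fun x => W x + ξ x) (ε / (64 * (L : ℝ) ^ 6)) L := by
  have hp : 0 < p := by omega
  obtain ⟨Q, hQ1, s, hs⟩ := noise_aux W hp hL hLp hε
  set t : ℝ := ε / (Q : ℝ) with ht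
  have hLr : (1 : ℝ) ≤ L := by exact_mod_cast hL
  have hQ0 : (0 : ℝ) < Q := by exact_mod_cast hQ1
  refine ⟨fun x => t * ((s (idx p hp x) : ℕ) : ℝ), fun x => by beta_reduce; rw [idx_add],
    fun x => ⟨by positivity, ?_⟩, ?_⟩
  · have h1 : ((s (idx p hp x) : ℕ) : ℝ) ≤ Q := by
      exact_mod_cast (s (idx p hp x)).isLt.le
    calc t * ((s (idx p hp x) : ℕ) : ℝ) ≤ t * Q := mul_le_mul_of_nonneg_left h1 (by positivity)
      _ = ε := by rw [ht]; field_simp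
  · intro a y b h1 h2 h3 E ⟨hR1, hR2⟩
    -- reduce to `0 ≤ a < p`
    set r : ℤ := a % (p : ℤ) with hr
    set k : ℤ := a / (p : ℤ) with hk
    have hrk : r + p * k = a := Int.emod_add_mul_ediv a p
    have hr0 : 0 ≤ r := Int.emod_nonneg a (by omega)
    have hrp : r < p := Int.emod_lt_of_pos a (by omega)
    have hper : ∀ x, Vs W t hp s (x + p * k) = Vs W t hp s x := by
      have hone : Function.Periodic (Vs W t hp s) (p : ℤ) := by
        intro x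
        unfold Vs
        rw [hW, idx_add]
      intro x
      have := hone.int_mul k x
      rwa [mul_comm] at this
    have hVs : (fun x => W x + t * ((s (idx p hp x) : ℕ) : ℝ)) = Vs W t hp s := rfl
    rw [hVs] at hR1 hR2
    refine hs r (y - p * k) (b - p * k) hr0 hrp (by omega) (by omega) (by omega) ⟨E, ?_, ?_⟩
    · have e1 : a = r + p * k := hrk.symm
      have e2 : y = (y - p * k) + p * k := by ring
      rw [e1, e2] at hR1
      have := Res_shift hR1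
      simp only [hper] at this
      exact this
    · have e1 : y + 1 = ((y - p * k) + 1) + p * k := by ring
      have e2 : b = (b - p * k) + p * k := by ring
      rw [e1, e2] at hR2
      have := Res_shift hR2
      simp only [hper] at this
      exact this

/-- stability of the nonresonance -/
lemma NR_stable {V W : ℤ → ℝ} {ζ d : ℝ} {L : ℤ} (hd : 0 ≤ d) (hVW : ∀ x, |V x - W x| ≤ d)
    (hdζ : d ≤ ζ) (h : NR W (2 * ζ) L) : NR V ζ L := by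
  intro a y b h1 h2 h3 E ⟨hR1, hR2⟩
  have key : ∀ a b, Res V a b E ζ → Res W a b E (2 * ζ) := by
    rintro a b ⟨u, u1, u2, u3⟩
    refine ⟨u, u1, u2, ?_⟩
    have h5 : ∀ x ∈ Icc a b, (Hm W u x - E * u x) ^ 2 ≤
        2 * (Hm V u x - E * u x) ^ 2 + 2 * (d ^ 2 * u x ^ 2) := by
      intro x _
      have e2 : Hm W u x - E * u x = (Hm V u x - E * u x) - (V x - W x) * u x := by
        unfold Hm; ring
      have e3 : ((V x - W x) * u x) ^ 2 ≤ d ^ 2 * u x ^ 2 := by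
        rw [mul_pow]
        refine mul_le_mul_of_nonneg_right ?_ (sq_nonneg _)
        rw [← sq_abs (V x - W x)]
        have := hVW x
        gcongr
      rw [e2]
      nlinarith [sq_nonneg ((Hm V u x - E * u x) + (V x - W x) * u x)]
    refine (sum_le_sum h5).trans ?_
    rw [sum_add_distrib, ← mul_sum, ← mul_sum, ← mul_sum, u2]
    nlinarith
  exact h a y b h1 h2 h3 E ⟨key _ _ hR1, key _ _ hR2⟩

lemma NR_shift {V : ℤ → ℝ} {ζ : ℝ} {L : ℤ} (h : NR V ζ L) (t : ℤ) :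
    NR (fun x => V (x + t)) ζ L := by
  intro a y b h1 h2 h3 E ⟨hR1, hR2⟩
  refine h (a + t) (y + t) (b + t) (by omega) (by omega) (by omega) E ⟨?_, ?_⟩
  · have := Res_shift (V := fun x => V (x + t)) (a := a + t) (b := y + t) (t := -t) (E := E) (η := ζ)
      (by rw [add_neg_cancel_right, add_neg_cancel_right]; exact hR1)
    simp only [neg_add_cancel_right] at this
    exact this
  · have := Res_shift (V := fun x => V (x + t)) (a := y + t + 1) (b := b + t) (t := -t) (E := E)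
      (η := ζ) (by
        rw [show y + t + 1 + -t = y + 1 by ring, add_neg_cancel_right]; exact hR2)
    simp only [neg_add_cancel_right] at this
    exact this

end Pool.Agent.Helper5K9.LP
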