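import Pool.Agent.Helper5K9.LP.Params

set_option autoImplicit false

/-!
Odometers.
-/

namespace Pool.Agent.Helper5K9.LP

open Filter Topology

section odo

variable {Ω : Type} [AddCommGroup Ω] [TopologicalSpace Ω] [IsTopologicalAddGroup Ω]
  [CompactSpace Ω] [T2Space Ω] [TotallyDisconnectedSpace Ω]

/-- `p` is the order of `α` modulo the open subgroup `Γ` -/
def Ord (α : Ω) (Γ : AddSubgroup Ω) (p : ℕ) : Prop :=
  IsOpen (Γ : Set Ω) ∧ ∀ n : ℤ, n • α ∈ Γ ↔ (p : ℤ) ∣ n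

/-- the possible periods -/
def Per (α : Ω) : Set ℕ := {p | 0 < p ∧ ∃ Γ : AddSubgroup Ω, Ord α Γ p}

lemma exists_small (α : Ω) {U : Set Ω} (hU : U ∈ 𝓝 (0 : Ω)) :
    ∃ (Γ : AddSubgroup Ω) (p : ℕ), 0 < p ∧ Ord α Γ p ∧ (Γ : Set Ω) ⊆ U := by
  obtain ⟨V, hVU, hV, hV0⟩ := mem_nhds_iff.1 hU
  obtain ⟨H, hH⟩ := ProfiniteGrp.exist_openNormalAddSubgroup_sub_open_nhds_of_zero hV hV0
  have hHo : IsOpen (H.toAddSubgroup : Set Ω) := H.isOpen'
  obtain ⟨a, ha⟩ := Int.subgroup_cyclic (H.toAddSubgroup.comap (zmultiplesHom Ω α))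
  have hmem : ∀ n : ℤ, n • α ∈ H.toAddSubgroup ↔ a ∣ n := by
    intro n
    have h1 : n • α ∈ H.toAddSubgroup ↔ n ∈ H.toAddSubgroup.comap (zmultiplesHom Ω α) := by
      rw [AddSubgroup.mem_comap, zmultiplesHom_apply]
    rw [h1, ha, AddSubgroup.mem_closure_singleton]
    constructor
    · rintro ⟨k, hk⟩
      exact ⟨k, by rw [← hk, smul_eq_mul, mul_comm]⟩
    · rintro ⟨k, hk⟩
      exact ⟨k, by rw [hk, smul_eq_mul, mul_comm]⟩
  refine ⟨H.toAddSubgroup, a.natAbs, ?_, ⟨hHo, fun n => by rw [hmem, Int.natAbs_dvd]⟩,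
    hH.trans hVU⟩
  rw [Int.natAbs_pos]
  rintro rfl
  have hfin : Finite (Ω ⧸ H.toAddSubgroup) := AddSubgroup.quotient_finite_of_isOpen _ hHo
  obtain ⟨x, y, hxy, he⟩ := Finite.exists_ne_map_eq_of_infinite
    (fun n : ℤ => (QuotientAddGroup.mk (n • α) : Ω ⧸ H.toAddSubgroup))
  rw [QuotientAddGroup.eq] at he
  have h2 : -(x • α) + y • α = (y - x) • α := by rw [sub_smul]; abel
  rw [h2, hmem, zero_dvd_iff] at he
  omega

lemma lift {α : Ω} (hα : Dense (Set.range (fun n : ℤ => n • α))) {Γ : AddSubgroup Ω} {p : ℕ}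
    (h : Ord α Γ p) {s : ℤ → ℝ} (hs : ∀ x, s (x + p) = s x) :
    ∃ g : C(Ω, ℝ), (∀ n : ℤ, g (n • α) = s n) ∧ ∀ ω γ, γ ∈ Γ → g (ω + γ) = g ω := by
  obtain ⟨hΓ, hmem⟩ := h
  have hex : ∀ ω : Ω, ∃ n : ℤ, ω - n • α ∈ Γ := by
    intro ω
    have ho : IsOpen ((fun x => ω - x) ⁻¹' (Γ : Set Ω)) := hΓ.preimage (by fun_prop)
    obtain ⟨x, ⟨n, rfl⟩, hx⟩ := hα.exists_mem_open ho ⟨ω, by simp⟩
    exact ⟨n, hx⟩
  choose t ht using hex
  have hper : Function.Periodic s (p : ℤ) := hs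
  have hst : ∀ m n : ℤ, (m - n) • α ∈ Γ → s m = s n := by
    intro m n hmn
    rw [hmem] at hmn
    obtain ⟨c, hc⟩ := hmn
    have := hper.int_mul c n
    rw [← this]
    congr 1
    linear_combination hc
  have heq : ∀ ω ω' : Ω, ω' - ω ∈ Γ → s (t ω') = s (t ω) := by
    intro ω ω' hω
    apply hst
    have e : (t ω' - t ω) • α = (ω' - ω) - (ω' - t ω' • α) + (ω - t ω • α) := by
      rw [sub_smul]; abel
    rw [e]
    exact Γ.add_mem (Γ.sub_mem hω (ht _)) (ht _)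
  refine ⟨⟨fun ω => s (t ω), ?_⟩, ?_, ?_⟩
  · rw [continuous_iff_continuousAt]
    intro ω
    have ho : IsOpen ((fun x => x - ω) ⁻¹' (Γ : Set Ω)) := hΓ.preimage (by fun_prop)
    have hn : (fun x => x - ω) ⁻¹' (Γ : Set Ω) ∈ 𝓝 ω := ho.mem_nhds (by simp)
    refine (continuousAt_const (y := s (t ω))).congr ?_
    filter_upwards [hn] with x hx
    exact (heq ω x hx).symm
  · intro n
    show s (t (n • α)) = s n
    apply hst
    have := ht (n • α)
    rw [← sub_smul] at this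
    have h2 := Γ.neg_mem this
    rwa [← neg_smul, neg_sub] at h2
  · intro ω γ hγ
    exact heq ω (ω + γ) (by rwa [add_sub_cancel_left])

lemma alpha_free [Infinite Ω] {α : Ω} (hα : Dense (Set.range (fun n : ℤ => n • α))) {k : ℤ}
    (hk : k ≠ 0) : k • α ≠ 0 := by
  intro h0
  have hfin : (Set.range (fun n : ℤ => n • α)).Finite := by
    have hsub : Set.range (fun n : ℤ => n • α) ⊆
        (fun n : ℤ => n • α) '' (Set.Icc 0 |k|) := by
      rintro _ ⟨n, rfl⟩
      refine ⟨n % k, ⟨Int.emod_nonneg n hk, (Int.emod_lt_abs n hk).le⟩, ?_⟩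
      show (n % k) • α = n • α
      have h1 := Int.emod_add_mul_ediv n k
      have h2 : n • α = (n % k + k * (n / k)) • α := by rw [h1]
      rw [h2, add_smul, mul_comm k, mul_smul, h0, smul_zero, add_zero]
    exact ((Set.finite_Icc _ _).image _).subset hsub
  have hcl := hfin.isClosed.closure_eq
  rw [hα.closure_eq] at hcl
  rw [← hcl] at hfin
  exact Set.infinite_univ hfin

lemma per_extend [Infinite Ω] {α : Ω} (hα : Dense (Set.range (fun n : ℤ => n • α))) :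
    ∀ p ∈ Per α, ∀ L : ℕ, ∃ p' ∈ Per α, p ∣ p' ∧ L ≤ p' := by
  rintro p ⟨hp, Γ, hΓ, hmem⟩ L
  have hU : (Γ : Set Ω) ∩ ⋂ k ∈ Finset.Icc 1 L, {((k : ℕ) : ℤ) • α}ᶜ ∈ 𝓝 (0 : Ω) := by
    apply inter_mem (hΓ.mem_nhds Γ.zero_mem)
    rw [biInter_finset_mem]
    intro k hk
    rw [Finset.mem_Icc] at hk
    apply isOpen_compl_singleton.mem_nhds
    have := alpha_free hα (k := (k : ℤ)) (by omega)
    exact fun h => this h.symm
  obtain ⟨Γ', p', hp', hord, hsub⟩ := exists_small α hU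
  refine ⟨p', ⟨hp', Γ', hord⟩, ?_, ?_⟩
  · have h1 : (p' : ℤ) • α ∈ Γ' := (hord.2 _).2 dvd_rfl
    have h2 := (hsub h1).1
    have h3 := (hmem _).1 h2
    exact_mod_cast h3
  · by_contra hcon
    rw [not_le] at hcon
    have h1 : (p' : ℤ) • α ∈ Γ' := (hord.2 _).2 dvd_rfl
    have h2 := (hsub h1).2
    simp only [Set.mem_iInter] at h2
    exact h2 p' (Finset.mem_Icc.2 ⟨hp', hcon.le⟩) rfl

lemma closed_of_dense {α : Ω} (hα : Dense (Set.range (fun n : ℤ => n • α))) {f g : C(Ω, ℝ)}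
    {c : ℝ} (h : ∀ n : ℤ, |f (n • α) - g (n • α)| ≤ c) (ω : Ω) : |f ω - g ω| ≤ c := by
  have hcl : IsClosed {ω : Ω | |f ω - g ω| ≤ c} :=
    isClosed_le (by fun_prop) continuous_const
  have hsub : Set.range (fun n : ℤ => n • α) ⊆ {ω : Ω | |f ω - g ω| ≤ c} := by
    rintro _ ⟨n, rfl⟩
    exact h n
  have := closure_minimal hsub hcl
  rw [hα.closure_eq] at this
  exact this (Set.mem_univ ω)

theorem dense_pp [Infinite Ω] {α : Ω} (hα : Dense (Set.range (fun n : ℤ => n • α))) :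
    Dense {f : C(Ω, ℝ) | ∀ ω, (Submodule.span ℂ
      (EigSet (fun n : ℤ => f (ω + n • α)))).topologicalClosure = ⊤} := by
  rw [Metric.dense_iff]
  intro f0 r hr
  obtain ⟨ε, hε⟩ : ∃ ε : ℝ, ε = r / 5 := ⟨_, rfl⟩
  have hε0 : 0 < ε := by rw [hε]; positivity
  -- uniform continuity
  obtain ⟨U, hU, hUf⟩ : ∃ U ∈ 𝓝 (0 : Ω), ∀ ω γ : Ω, γ ∈ U → |f0 (ω + γ) - f0 ω| < ε := by
    have ho : IsOpen {x : Ω × Ω | |f0 (x.1 + x.2) - f0 x.1| < ε} :=
      isOpen_lt (by fun_prop) continuous_const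
    obtain ⟨u, v, hu, hv, h1, h2, h3⟩ := generalized_tube_lemma (isCompact_univ (X := Ω))
      (isCompact_singleton (x := (0 : Ω))) ho (by
        rintro ⟨ω, γ⟩ ⟨_, hγ⟩
        simp only [Set.mem_singleton_iff] at hγ
        simp only [Set.mem_setOf_eq, hγ, add_zero, sub_self, abs_zero]
        exact hε0)
    refine ⟨v, hv.mem_nhds (h2 rfl), fun ω γ hγ => ?_⟩
    exact h3 (Set.mk_mem_prod (h1 (Set.mem_univ ω)) hγ)
  obtain ⟨Γ, p, hp, hord, hΓU⟩ := exists_small α hU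
  have hs0 : ∀ x : ℤ, f0 (((x + p) % (p : ℤ)) • α) = f0 ((x % (p : ℤ)) • α) := by
    intro x
    rw [Int.add_emod_right]
  obtain ⟨W, q, e, l, dl, η, hq, hWq, he, heh, he0, hW0, hWW, hHyp⟩ :=
    seq_exists (P := Per α) (per_extend hα) (s0 := fun x : ℤ => f0 ((x % (p : ℤ)) • α)) (p0 := p)
      ⟨hp, Γ, hord⟩ hp hs0 hε0
  have hlift : ∀ i, ∃ (Γi : AddSubgroup Ω) (g : C(Ω, ℝ)), IsOpen (Γi : Set Ω) ∧
      (∀ n : ℤ, g (n • α) = W i n) ∧ ∀ ω γ, γ ∈ Γi → g (ω + γ) = g ω := by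
    intro i
    obtain ⟨_, Γi, hΓi⟩ := hq i
    obtain ⟨g, h1, h2⟩ := lift hα hΓi (hWq i)
    exact ⟨Γi, g, hΓi.1, h1, h2⟩
  choose Γi g hΓi hg hginv using hlift
  have hdist : ∀ i, dist (g i) (g (i + 1)) ≤ e i := by
    intro i
    rw [ContinuousMap.dist_le (he i).le]
    intro ω
    rw [Real.dist_eq]
    refine closed_of_dense hα (fun n => ?_) ω
    rw [hg, hg, abs_sub_comm]
    exact hWW i n
  have hgeo : ∀ i j, e (i + j) ≤ e i / 2 ^ j := by
    intro i j
    induction j with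
    | zero => simp
    | succ j ih =>
      have h1 := heh (i + j)
      rw [← add_assoc, pow_succ, ← div_div]
      refine h1.trans ?_
      exact div_le_div_of_nonneg_right ih (by norm_num)
  have hstep : ∀ i j, dist (g (i + j)) (g (i + (j + 1))) ≤ 2 * e i / 2 / 2 ^ j := by
    intro i j
    have h1 := hdist (i + j)
    rw [add_assoc] at h1
    refine h1.trans ?_
    have : 2 * e i / 2 = e i := by ring
    rw [this]
    exact hgeo i j
  obtain ⟨f, hf⟩ := cauchySeq_tendsto_of_complete (cauchySeq_of_le_geometric_two (C := 2 * e 0)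
    (f := g) (fun n => by have := hstep 0 n; simpa using this))
  have hfd : ∀ i, dist (g i) f ≤ 2 * e i := by
    intro i
    have h1 : Tendsto (fun j => g (i + j)) atTop (𝓝 f) := by
      have := (tendsto_add_atTop_iff_nat i).2 hf
      simpa [add_comm] using this
    have := dist_le_of_le_geometric_two_of_tendsto₀ (C := 2 * e i) (f := fun j => g (i + j))
      (hstep i) h1
    simpa using this
  have hfp : ∀ i ω, |f ω - g i ω| ≤ 2 * e i := by
    intro i ω
    have h1 := hfd i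
    rw [ContinuousMap.dist_le (by have := he i; positivity)] at h1
    have h2 := h1 ω
    rw [Real.dist_eq, abs_sub_comm] at h2
    exact h2
  refine ⟨f, ?_, ?_⟩
  · rw [Metric.mem_ball]
    have hle : dist f f0 ≤ 4 * ε := by
      rw [ContinuousMap.dist_le (by positivity)]
      intro ω
      rw [Real.dist_eq]
      refine closed_of_dense hα (fun n => ?_) ω
      have h1 := hfp 0 (n • α)
      rw [hg] at h1
      have h2 := hW0 n
      have h3 : |f0 ((n % (p : ℤ)) • α) - f0 (n • α)| ≤ ε := by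
        have hm : (n % (p : ℤ) - n) • α ∈ Γ := by
          rw [hord.2]
          have := Int.emod_add_mul_ediv n p
          exact ⟨-(n / p), by linear_combination this⟩
        have h4 := hUf (n • α) ((n % (p : ℤ) - n) • α) (hΓU hm)
        rw [← add_smul, add_sub_cancel] at h4
        exact h4.le
      have e1 : f (n • α) - f0 (n • α) = (f (n • α) - W 0 n) +
          (W 0 n - f0 ((n % (p : ℤ)) • α)) + (f0 ((n % (p : ℤ)) • α) - f0 (n • α)) := by ring
      rw [e1]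
      refine (abs_add_le _ _).trans ?_
      refine (add_le_add_left (abs_add_le _ _) _).trans ?_
      linarith
    linarith
  · intro ω
    refine pure_point (K := ‖f‖) (l := l) (δ := dl) (η := η) (fun x => ?_) (hHyp _ ?_)
    · rw [← Real.norm_eq_abs]
      exact f.norm_coe_le_norm _
    · intro i
      have ho : IsOpen ((fun x => ω - x) ⁻¹' (Γi i : Set Ω)) := (hΓi i).preimage (by fun_prop)
      obtain ⟨_, ⟨t, rfl⟩, ht⟩ := hα.exists_mem_open ho ⟨ω, by simp⟩
      refine ⟨t, fun x => ?_⟩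
      have e1 : ω + x • α = (x + t) • α + (ω - t • α) := by rw [add_smul]; abel
      have e2 : W i (x + t) = g i (ω + x • α) := by
        rw [e1, hginv i _ _ ht, hg]
      rw [e2]
      exact hfp i _

end odo

end Pool.Agent.Helper5K9.LP
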