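import Pool.Agent.Helper5K9.LP.Barrier
import Pool.Agent.Helper5K9.LP.Noise3
import Pool.Agent.Helper5K9.LP.Loc

set_option autoImplicit false

/-!
Choice of parameters and of the limit-periodic sequence.
-/

namespace Pool.Agent.Helper5K9.LP

open Finset Filter Topology

lemma SB_shift {V : ℤ → ℝ} {l : ℤ} {δ : ℝ} (h : SB V l δ) (t : ℤ) :
    SB (fun x => V (x + t)) l δ := by
  intro E a φ M hφ hM
  obtain ⟨x, h1, h2, h3, h4⟩ := h E (a + t) (fun x => φ (x - t)) M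
    (fun x hx1 hx2 => by
      have := hφ (x - t) (by omega) (by omega)
      simp only [Hm] at this ⊢
      rw [sub_add_cancel] at this
      rw [show x + 1 - t = x - t + 1 by ring, show x - 1 - t = x - t - 1 by ring]
      exact this)
    (fun x hx1 hx2 => hM (x - t) (by omega) (by omega))
  refine ⟨x - t, by omega, by omega, h3, ?_⟩
  rw [show x - t + 1 = x + 1 - t by ring]
  exact h4

lemma exists_h {lam C c : ℝ} (hl0 : 0 < lam) (hl1 : lam < 1) (hC : 0 < C) (hc : 0 < c) :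
    ∃ h : ℕ, 1 ≤ h ∧ C * lam ^ h * (c * (h : ℝ) ^ 24) ≤ 1 := by
  have ht := tendsto_pow_const_mul_const_pow_of_abs_lt_one 24 (r := lam)
    (by rw [abs_of_pos hl0]; exact hl1)
  have hpos : 0 < 1 / (C * c) := by positivity
  have h1 := (ht.eventually (gt_mem_nhds hpos)).and (eventually_ge_atTop 1)
  obtain ⟨h, h2, h3⟩ := h1.exists
  refine ⟨h, h3, ?_⟩
  rw [lt_div_iff₀ (by positivity)] at h2
  nlinarith

/-- the amplitudes -/
noncomputable def amp (e0 : ℝ) (L0 : ℕ) : ℕ → ℝ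
  | 0 => e0
  | i + 1 => amp e0 L0 i / (256 * ((61 ^ i * L0 : ℕ) : ℝ) ^ 6)

section amp

variable {e0 : ℝ} {L0 : ℕ}

lemma LL_one (hL : 1 ≤ L0) (i : ℕ) : (1 : ℝ) ≤ ((61 ^ i * L0 : ℕ) : ℝ) := by
  have : 0 < 61 ^ i * L0 := by positivity
  exact_mod_cast this

lemma amp_pos (h0 : 0 < e0) (hL : 1 ≤ L0) (i : ℕ) : 0 < amp e0 L0 i := by
  induction i with
  | zero => exact h0
  | succ i ih =>
    have := LL_one hL i
    rw [amp]
    positivity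

lemma amp_half (h0 : 0 < e0) (hL : 1 ≤ L0) (i : ℕ) : amp e0 L0 (i + 1) ≤ amp e0 L0 i / 2 := by
  have h1 := amp_pos h0 hL i
  have h2 := LL_one hL i
  have h3 := one_le_pow₀ (n := 6) h2
  rw [amp]
  apply div_le_div_of_nonneg_left h1.le (by norm_num)
  linarith

lemma amp_le (h0 : 0 < e0) (hL : 1 ≤ L0) (i : ℕ) : amp e0 L0 i ≤ e0 := by
  induction i with
  | zero => exact le_rfl
  | succ i ih =>
    have h1 := amp_half h0 hL i
    have h2 := amp_pos h0 hL i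
    linarith

lemma amp_sq (h0 : 0 < e0) (hL : 1 ≤ L0) (he : e0 * 61 ^ 6 ≤ 1) (i : ℕ) :
    amp e0 L0 (i + 1) ^ 2 ≤ amp e0 L0 (i + 2) := by
  have h1 := amp_pos h0 hL i
  have h2 := LL_one hL i
  have h2' := amp_pos h0 hL (i + 1)
  have h3 := amp_le h0 hL i
  have e1 : amp e0 L0 (i + 2) = amp e0 L0 (i + 1) / (256 * ((61 ^ (i + 1) * L0 : ℕ) : ℝ) ^ 6) := rfl
  have e2 : ((61 ^ (i + 1) * L0 : ℕ) : ℝ) = 61 * ((61 ^ i * L0 : ℕ) : ℝ) := by
    push_cast; ring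
  rw [e1, e2]
  have e3 : amp e0 L0 (i + 1) = amp e0 L0 i / (256 * ((61 ^ i * L0 : ℕ) : ℝ) ^ 6) := rfl
  rw [le_div_iff₀ (by positivity)]
  have key : amp e0 L0 (i + 1) * (256 * (61 * ((61 ^ i * L0 : ℕ) : ℝ)) ^ 6) ≤ 1 := by
    rw [e3]
    have hne : ((61 ^ i * L0 : ℕ) : ℝ) ≠ 0 := by linarith
    have : amp e0 L0 i / (256 * ((61 ^ i * L0 : ℕ) : ℝ) ^ 6) *
        (256 * (61 * ((61 ^ i * L0 : ℕ) : ℝ)) ^ 6) = amp e0 L0 i * 61 ^ 6 := by
      field_simp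
    rw [this]
    nlinarith
  nlinarith

end amp

theorem seq_exists {P : Set ℕ} (hP2 : ∀ p ∈ P, ∀ L : ℕ, ∃ p' ∈ P, p ∣ p' ∧ L ≤ p')
    {s0 : ℤ → ℝ} {p0 : ℕ} (hp0 : p0 ∈ P) (hp00 : 0 < p0) (hs0 : ∀ x, s0 (x + p0) = s0 x) {δ : ℝ}
    (hδ : 0 < δ) :
    ∃ (W : ℕ → ℤ → ℝ) (q : ℕ → ℕ) (e : ℕ → ℝ) (l : ℕ → ℤ) (dl η : ℕ → ℝ),
      (∀ i, q i ∈ P) ∧ (∀ i x, W i (x + q i) = W i x) ∧ (∀ i, 0 < e i) ∧
      (∀ i, e (i + 1) ≤ e i / 2) ∧ e 0 ≤ δ ∧ (∀ x, |W 0 x - s0 x| ≤ δ) ∧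
      (∀ i x, |W (i + 1) x - W i x| ≤ e i) ∧
      ∀ V : ℤ → ℝ, (∀ i, ∃ t : ℤ, ∀ x, |V x - W i (x + t)| ≤ 2 * e i) → Hyp V l dl η := by
  obtain ⟨r, lam, C, R, hr, hlam0, hlam1, hC, hR, hbar⟩ := barrier hp00 hs0 hδ
  obtain ⟨e0, he0, he0r, he0δ, he06⟩ : ∃ e0 : ℝ, 0 < e0 ∧ 2 * e0 ≤ r ∧ e0 ≤ δ ∧ e0 * 61 ^ 6 ≤ 1 := by
    refine ⟨min (min (r / 2) δ) (1 / 61 ^ 6), by positivity, ?_, ?_, ?_⟩
    · have h1 := min_le_left (min (r / 2) δ) (1 / 61 ^ 6)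
      have h2 := min_le_left (r / 2) δ
      linarith
    · exact (min_le_left _ _).trans (min_le_right _ _)
    · have h1 := min_le_right (min (r / 2) δ) (1 / 61 ^ 6 : ℝ)
      have h2 : (1 / 61 ^ 6 : ℝ) * 61 ^ 6 = 1 := by norm_num
      nlinarith
  have hRr : (1 : ℝ) ≤ R := by exact_mod_cast hR
  obtain ⟨h, hh, hC24⟩ := exists_h hlam0 hlam1 (C := C) (by linarith)
    (c := (256 * (732 * (R : ℝ)) ^ 6 / e0) ^ 4) (by positivity)
  obtain ⟨L0, hL0⟩ : ∃ L0 : ℕ, L0 = 732 * (h * R) := ⟨_, rfl⟩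
  have hhR : 1 ≤ h * R := Nat.mul_pos hh hR
  have hL01 : 1 ≤ L0 := by omega
  have hLr : (L0 : ℝ) = 732 * R * h := by rw [hL0]; push_cast; ring
  obtain ⟨d0, hd0⟩ : ∃ d0 : ℝ, d0 = C * lam ^ h := ⟨_, rfl⟩
  have hd0p : 0 < d0 := by rw [hd0]; positivity
  set e := amp e0 L0 with he
  have hepos := amp_pos he0 hL01
  have hehalf := amp_half he0 hL01
  have hele := amp_le he0 hL01
  have hesq := amp_sq he0 hL01 he06
  have he01 : e0 ≤ 1 := by nlinarith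
  -- base of the invariant
  have hinv0 : d0 ≤ e 1 ^ 4 := by
    have e1 : e 1 = e0 / (256 * (L0 : ℝ) ^ 6) := by
      rw [he, amp, amp]; norm_num
    rw [e1, hd0, div_pow, le_div_iff₀ (by positivity), hLr]
    have e2 : (256 * (732 * (R : ℝ)) ^ 6 / e0) ^ 4 * (h : ℝ) ^ 24 =
        (256 * (732 * (R : ℝ) * h) ^ 6) ^ 4 / e0 ^ 4 := by
      rw [div_pow, mul_pow 732 (R : ℝ), mul_pow (732 * (R : ℝ)) (h : ℝ), mul_pow 732 (R : ℝ)]
      ring
    rw [e2, ← mul_div_assoc, div_le_one (by positivity)] at hC24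
    exact hC24
  have hinv : ∀ i, d0 ^ (2 ^ i) ≤ e (i + 1) ^ 4 := by
    intro i
    induction i with
    | zero => simpa using hinv0
    | succ i ih =>
      have h1 : d0 ^ (2 ^ (i + 1)) = (d0 ^ (2 ^ i)) ^ 2 := by rw [pow_succ, pow_mul]
      rw [h1]
      have h2 : (d0 ^ (2 ^ i)) ^ 2 ≤ (e (i + 1) ^ 4) ^ 2 :=
        pow_le_pow_left₀ (by positivity) ih 2
      have h3 : (e (i + 1) ^ 2) ^ 4 ≤ e (i + 2) ^ 4 :=
        pow_le_pow_left₀ (by positivity) (hesq i) 4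
      have h4 : (e (i + 1) ^ 4) ^ 2 = (e (i + 1) ^ 2) ^ 4 := by ring
      rw [h4] at h2
      exact h2.trans h3
  have hinv1 : ∀ i, d0 ^ (2 ^ i) ≤ e (i + 1) ^ 2 := by
    intro i
    refine (hinv i).trans ?_
    exact pow_le_pow_of_le_one (hepos _).le ((hele _).trans he01) (by norm_num)
  have hinv2 : ∀ i, d0 ^ (2 ^ i) ≤ e (i + 1) := by
    intro i
    refine (hinv i).trans ?_
    exact pow_le_of_le_one (hepos _).le ((hele _).trans he01) (by norm_num)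
  have hLi := LL_one hL01
  -- the first potential
  obtain ⟨q0, hq0P, hq0, hq0L⟩ := hP2 p0 hp0 (h * R)
  obtain ⟨v1, hv1p, hv1s, hv1SB⟩ := hbar h hh q0 hq0 hq0L
  -- the recursion
  have step : ∀ (i : ℕ) (st : {x : ℕ × (ℤ → ℝ) // x.1 ∈ P ∧ ∀ y, x.2 (y + x.1) = x.2 y}),
      ∃ st' : {x : ℕ × (ℤ → ℝ) // x.1 ∈ P ∧ ∀ y, x.2 (y + x.1) = x.2 y},
        (∀ x, |st'.1.2 x - st.1.2 x| ≤ e i) ∧
          NR st'.1.2 (e i / (64 * ((61 ^ i * L0 : ℕ) : ℝ) ^ 6)) ((61 ^ i * L0 : ℕ) : ℤ) := by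
    rintro i ⟨⟨q, W⟩, hq, hW⟩
    obtain ⟨q', hq'P, hq', hq'L⟩ := hP2 q hq (61 ^ i * L0)
    have hWq' : ∀ x, W (x + q') = W x := by
      obtain ⟨c, rfl⟩ := hq'
      intro x
      have hper : Function.Periodic W (q : ℤ) := hW
      have := hper.nat_mul c x
      rw [← this]
      push_cast
      rw [mul_comm]
    obtain ⟨ξ, h1, h2, h3⟩ := noise W (p := q') (L := 61 ^ i * L0)
      (Nat.mul_pos (by positivity) hL01) hq'L hWq' (hepos i)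
    refine ⟨⟨⟨q', fun x => W x + ξ x⟩, hq'P, fun y => ?_⟩, fun x => ?_, h3⟩
    · show W (y + q') + ξ (y + q') = W y + ξ y
      rw [hWq', h1]
    · show |W x + ξ x - W x| ≤ _
      rw [add_sub_cancel_left, abs_of_nonneg (h2 x).1]
      exact (h2 x).2
  choose F hF using step
  let sq : ℕ → {x : ℕ × (ℤ → ℝ) // x.1 ∈ P ∧ ∀ y, x.2 (y + x.1) = x.2 y} :=
    fun n => Nat.rec ⟨⟨q0, v1⟩, hq0P, hv1p⟩ (fun i st => F i st) n
  have hsq0 : sq 0 = ⟨⟨q0, v1⟩, hq0P, hv1p⟩ := rfl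
  have hsqS : ∀ i, sq (i + 1) = F i (sq i) := fun _ => rfl
  refine ⟨fun i => (sq i).1.2, fun i => (sq i).1.1, e, fun i => 61 ^ i * (3 * (h * R : ℕ)),
    fun i => d0 ^ (2 ^ i), fun i => 2 * e (i + 1), fun i => (sq i).2.1, fun i => (sq i).2.2, hepos,
    hehalf, he0δ, ?_, ?_, ?_⟩
  · intro x
    simp only [hsq0]
    exact hv1s x
  · intro i x
    simp only [hsqS]
    exact (hF i (sq i)).1 x
  intro V hV
  have hLz : ∀ i : ℕ, (244 : ℤ) * (61 ^ i * (3 * (h * R : ℕ))) = ((61 ^ i * L0 : ℕ) : ℤ) := by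
    intro i
    rw [hL0]; push_cast; ring
  refine ⟨?_, ?_, ?_, ?_, ?_, ?_, ?_, ?_, ?_, ?_⟩
  · have : (1 : ℤ) ≤ ((h * R : ℕ) : ℤ) := by exact_mod_cast hhR
    show (2 : ℤ) ≤ 61 ^ 0 * (3 * ((h * R : ℕ) : ℤ))
    rw [pow_zero, one_mul]
    omega
  · intro i
    show (61 : ℤ) ^ (i + 1) * (3 * ((h * R : ℕ) : ℤ)) = 61 * (61 ^ i * (3 * ((h * R : ℕ) : ℤ)))
    rw [pow_succ]; ring
  · intro i
    positivity
  · intro i
    exact (hinv2 i).trans ((hele _).trans he01)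
  · intro i
    have := hepos (i + 1)
    positivity
  · intro i
    have := hinv1 i
    show 4 * d0 ^ 2 ^ i ≤ (2 * e (i + 1)) ^ 2
    nlinarith
  · intro i
    show d0 ^ 2 ^ (i + 1) = (d0 ^ 2 ^ i) ^ 2
    rw [pow_succ 2 i, pow_mul]
  · intro i
    obtain ⟨t, ht⟩ := hV (i + 1)
    have h1 := (hF i (sq i)).2
    rw [← hsqS i] at h1
    have h2 := NR_shift h1 t
    show NR V (2 * e (i + 1)) (244 * (61 ^ i * (3 * ((h * R : ℕ) : ℤ))))
    rw [hLz]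
    refine NR_stable (d := 2 * e (i + 1)) (by have := hepos (i + 1); positivity) ht le_rfl ?_
    have e1 : 2 * (2 * e (i + 1)) = e i / (64 * ((61 ^ i * L0 : ℕ) : ℝ) ^ 6) := by
      have e2 : e (i + 1) = e i / (256 * ((61 ^ i * L0 : ℕ) : ℝ) ^ 6) := rfl
      have := hLi i
      rw [e2]
      field_simp
      ring
    rw [e1]
    exact h2
  · obtain ⟨t, ht⟩ := hV 0
    have h1 := hv1SB (fun x => V (x - t)) (fun x => by
      have h3 := ht (x - t)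
      rw [sub_add_cancel] at h3
      exact h3.trans he0r)
    have h2 := SB_shift h1 t
    simp only [add_sub_cancel_right] at h2
    show SB V (61 ^ 0 * (3 * ((h * R : ℕ) : ℤ))) (d0 ^ 2 ^ 0)
    rw [pow_zero, one_mul, pow_zero, pow_one, hd0]
    exact h2
  · intro i
    have h1 := hinv2 i
    have h2 := hLi i
    have e2 : e (i + 1) = e i / (256 * ((61 ^ i * L0 : ℕ) : ℝ) ^ 6) := rfl
    have h3 : e i ≤ 1 := (hele i).trans he01
    have h4 : e (i + 1) ≤ 1 / (256 * ((61 ^ i * L0 : ℕ) : ℝ) ^ 6) := by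
      rw [e2]
      exact div_le_div_of_nonneg_right h3 (by positivity)
    have h5 : (12 * ((61 ^ (i + 1) * (3 * (h * R : ℕ)) : ℤ) : ℝ) + 2) ≤
        4 * ((61 ^ i * L0 : ℕ) : ℝ) := by
      have : 12 * ((61 ^ (i + 1) * (3 * (h * R : ℕ)) : ℤ) : ℝ) = 3 * ((61 ^ i * L0 : ℕ) : ℝ) := by
        rw [hL0]; push_cast; ring
      rw [this]
      have g3 : (2 : ℝ) ≤ ((61 ^ i * L0 : ℕ) : ℝ) := by
        have g4 : 1 ≤ 61 ^ i := Nat.one_le_pow _ _ (by norm_num)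
        have g5 : 2 ≤ L0 := by omega
        have : 2 ≤ 61 ^ i * L0 := by nlinarith
        exact_mod_cast this
      linarith
    have h6 : (2 : ℝ) ^ i ≤ ((61 ^ i * L0 : ℕ) : ℝ) := by
      have g1 : (2 : ℝ) ^ i ≤ 61 ^ i := pow_le_pow_left₀ (by norm_num) (by norm_num) i
      have g2 : (1 : ℝ) ≤ L0 := by exact_mod_cast hL01
      push_cast
      nlinarith [pow_pos (show (0 : ℝ) < 61 by norm_num) i]
    set X : ℝ := ((61 ^ i * L0 : ℕ) : ℝ) with hX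
    have h7 : d0 ^ 2 ^ i * (12 * ((61 ^ (i + 1) * (3 * (h * R : ℕ)) : ℤ) : ℝ) + 2) ≤
        1 / (256 * X ^ 6) * (4 * X) := by
      apply mul_le_mul (h1.trans h4) h5
      · positivity
      · positivity
    refine h7.trans ?_
    have h8 : 1 / (256 * X ^ 6) * (4 * X) = 1 / (64 * X ^ 5) := by
      field_simp; norm_num
    rw [h8]
    have h9 : (1 / 8 : ℝ) * (1 / 2) ^ i = 1 / (8 * 2 ^ i) := by
      rw [one_div_pow]; field_simp
    rw [h9]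
    apply one_div_le_one_div_of_le (by positivity)
    have h10 : X ≤ X ^ 5 := le_self_pow₀ h2 (by norm_num)
    linarith

end Pool.Agent.Helper5K9.LP
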